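import Pool.Agent.TreewidthMinor.Dense

set_option autoImplicit false

/-!
# Counting adjacent pairs, and complete minors
-/

namespace Pool.Agent.K6

open SimpleGraph Pool.Agent.TreewidthMinor

variable {V V' W : Type}

/-- the number of ordered adjacent pairs -/
noncomputable def dn (G : SimpleGraph V) : ℕ := (dartSet G).ncard

/-- the neighbours -/
def nb (G : SimpleGraph V) (v : V) : Set V := {w | G.Adj v w}

/-- the common neighbours -/
def cn (G : SimpleGraph V) (u v : V) : Set V := {w | G.Adj u w ∧ G.Adj v w}

theorem dn_eq_sum [Fintype V] (G : SimpleGraph V) : dn G = ∑ v, (nb G v).ncard := by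
  classical
  have h : dn G = (Finset.univ.filter fun x : V × V => G.Adj x.1 x.2).card := by
    rw [dn, dartSet, ← Set.ncard_coe_finset]
    congr 1
    ext x
    simp
  rw [h, Finset.card_filter, Fintype.sum_prod_type]
  refine Finset.sum_congr rfl fun v _ => ?_
  rw [← Finset.card_filter, ← Set.ncard_coe_finset]
  congr 1
  ext w
  simp [nb]

theorem dn_even [Finite V] (G : SimpleGraph V) : Even (dn G) := by
  classical
  have := Fintype.ofFinite V
  have h : dn G = ∑ v, G.degree v := by
    rw [dn_eq_sum]
    refine Finset.sum_congr rfl fun v _ => ?_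
    rw [← G.card_neighborFinset_eq_degree, ← Set.ncard_coe_finset]
    congr 1
    ext w
    simp [nb]
  rw [h, G.sum_degrees_eq_twice_card_edges]
  exact even_two_mul _

theorem exists_low [Finite V] (G : SimpleGraph V) (k : ℕ) (h : dn G < k * Nat.card V) :
    ∃ v, (nb G v).ncard < k := by
  classical
  have := Fintype.ofFinite V
  by_contra hc
  push Not at hc
  have : ∑ _v : V, k ≤ ∑ v, (nb G v).ncard := Finset.sum_le_sum fun v _ => hc v
  rw [← dn_eq_sum, Finset.sum_const, Finset.card_univ, smul_eq_mul, ← Nat.card_eq_fintype_card]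
    at this
  rw [mul_comm] at h
  omega

theorem le_dn [Finite V] (G : SimpleGraph V) (k : ℕ) (h : ∀ v, k ≤ (nb G v).ncard) :
    k * Nat.card V ≤ dn G := by
  by_contra hc
  push Not at hc
  obtain ⟨v, hv⟩ := exists_low G k hc
  have := h v
  omega

theorem nb_lt [Finite V] (G : SimpleGraph V) (v : V) : (nb G v).ncard < Nat.card V := by
  have h1 : nb G v ⊆ {v}ᶜ := by
    intro w hw
    exact fun h => by
      rw [Set.mem_singleton_iff] at h
      subst h
      exact G.irrefl hw
  have h2 := Set.ncard_le_ncard h1 (Set.toFinite _)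
  have h3 := Set.ncard_add_ncard_compl ({v} : Set V) (Set.toFinite _) (Set.toFinite _)
  rw [Set.ncard_singleton] at h3
  omega

theorem dn_le [Finite V] (G : SimpleGraph V) : dn G ≤ Nat.card V * (Nat.card V - 1) := by
  classical
  have := Fintype.ofFinite V
  rw [dn_eq_sum]
  have : ∑ v, (nb G v).ncard ≤ ∑ _v : V, (Nat.card V - 1) :=
    Finset.sum_le_sum fun v _ => by have := nb_lt G v; omega
  rw [Finset.sum_const, Finset.card_univ, smul_eq_mul, ← Nat.card_eq_fintype_card] at this
  exact this

/-- Deleting a vertex. -/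
theorem dn_delete [Finite V] (G : SimpleGraph V) (v : V) :
    dn G ≤ dn (G.induce {x | x ≠ v}) + 2 * (nb G v).ncard := by
  classical
  let A : Set (V × V) := (fun x : {x : V // x ∈ {x | x ≠ v}} × {x : V // x ∈ {x | x ≠ v}} =>
    (x.1.1, x.2.1)) '' dartSet (G.induce {x | x ≠ v})
  let B : Set (V × V) := (fun w => (v, w)) '' nb G v
  let C : Set (V × V) := (fun w => (w, v)) '' nb G v
  have hsub : dartSet G ⊆ A ∪ (B ∪ C) := by
    rintro ⟨x, y⟩ hxy
    have hxy' : G.Adj x y := hxy
    by_cases hx : x = v
    · exact Or.inr (Or.inl ⟨y, by subst hx; exact hxy', by rw [hx]⟩)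
    · by_cases hy : y = v
      · exact Or.inr (Or.inr ⟨x, by subst hy; exact hxy'.symm, by rw [hy]⟩)
      · exact Or.inl ⟨(⟨x, hx⟩, ⟨y, hy⟩), hxy', rfl⟩
  have h1 := Set.ncard_le_ncard hsub (Set.toFinite _)
  have h2 := Set.ncard_union_le A (B ∪ C)
  have h3 := Set.ncard_union_le B C
  have h4 : A.ncard ≤ dn (G.induce {x | x ≠ v}) := Set.ncard_image_le (Set.toFinite _)
  have h5 : B.ncard ≤ (nb G v).ncard := Set.ncard_image_le (Set.toFinite _)
  have h6 : C.ncard ≤ (nb G v).ncard := Set.ncard_image_le (Set.toFinite _)
  have h7 : dn G = (dartSet G).ncard := rfl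
  omega

theorem isMinor_induce (G : SimpleGraph V) (s : Set V) : IsMinor (G.induce s) G :=
  isMinor_of_inj (fun x => x.1) Subtype.val_injective fun _ _ h => h

theorem isMinor_mono {G G' : SimpleGraph V} (h : G' ≤ G) : IsMinor G' G :=
  isMinor_of_inj id Function.injective_id fun _ _ hxy => h hxy

/-- A complete minor of a graph all of whose branch sets touch a connected set `Z` can be
enlarged by `Z`. -/
theorem cone {p : ℕ} {G' : SimpleGraph V'} {G : SimpleGraph V} (B' : V' → Set V)
    (h1 : ∀ x, SC G (B' x)) (h2 : ∀ x y, x ≠ y → Disjoint (B' x) (B' y))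
    (h3 : ∀ x y, G'.Adj x y → ∃ a ∈ B' x, ∃ b ∈ B' y, G.Adj a b)
    (Z : Set V) (hZ : SC G Z) (hd : ∀ x, Disjoint (B' x) Z)
    (ha : ∀ x, ∃ y ∈ B' x, ∃ z ∈ Z, G.Adj y z)
    (h : IsMinor (⊤ : SimpleGraph (Fin p)) G') : IsMinor (⊤ : SimpleGraph (Fin (p + 1))) G := by
  rw [isMinor_iff] at h ⊢
  obtain ⟨B, hB1, hB2, hB3⟩ := h
  obtain ⟨F, hFl, hFc⟩ : ∃ F : Fin (p + 1) → Set V, F (Fin.last p) = Z ∧
      ∀ i : Fin p, F i.castSucc = ⋃ x ∈ B i, B' x :=
    ⟨fun w => Fin.lastCases (motive := fun _ => Set V) Z (fun i => ⋃ x ∈ B i, B' x) w,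
      by simp, by intro i; simp⟩
  refine ⟨F, ?_, ?_, ?_⟩
  · intro w
    induction w using Fin.lastCases with
    | last => rw [hFl]; exact hZ
    | cast i =>
      rw [hFc]
      exact SC.biUnion (hB1 i) (fun x _ => h1 x) (fun x _ y _ hxy => h3 x y hxy)
  · have key : ∀ i, Disjoint (⋃ x ∈ B i, B' x) Z := by
      intro i
      rw [Set.disjoint_left]
      intro z hz hz'
      rw [Set.mem_iUnion₂] at hz
      obtain ⟨x, _, hx⟩ := hz
      exact Set.disjoint_left.1 (hd x) hx hz'
    intro w w' hww
    induction w using Fin.lastCases with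
    | last =>
      induction w' using Fin.lastCases with
      | last => exact absurd rfl hww
      | cast j => rw [hFl, hFc]; exact (key j).symm
    | cast i =>
      induction w' using Fin.lastCases with
      | last => rw [hFl, hFc]; exact key i
      | cast j =>
        rw [hFc, hFc, Set.disjoint_left]
        intro a ha hb
        rw [Set.mem_iUnion₂] at ha hb
        obtain ⟨x, hx, ha⟩ := ha
        obtain ⟨y, hy, hb⟩ := hb
        have hxy : x = y := by
          by_contra hne
          exact Set.disjoint_left.1 (h2 x y hne) ha hb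
        subst hxy
        have hij : i ≠ j := fun h => hww (by rw [h])
        exact Set.disjoint_left.1 (hB2 i j hij) hx hy
  · have key : ∀ i, ∃ y ∈ ⋃ x ∈ B i, B' x, ∃ z ∈ Z, G.Adj y z := by
      intro i
      obtain ⟨x, hx⟩ := (hB1 i).1
      obtain ⟨y, hy, z, hz, hyz⟩ := ha x
      exact ⟨y, Set.mem_biUnion hx hy, z, hz, hyz⟩
    intro w w' hww
    rw [top_adj] at hww
    induction w using Fin.lastCases with
    | last =>
      induction w' using Fin.lastCases with
      | last => exact absurd rfl hww
      | cast j =>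
        rw [hFl, hFc]
        obtain ⟨y, hy, z, hz, hyz⟩ := key j
        exact ⟨z, hz, y, hy, hyz.symm⟩
    | cast i =>
      induction w' using Fin.lastCases with
      | last =>
        rw [hFl, hFc]
        exact key i
      | cast j =>
        rw [hFc, hFc]
        have hij : i ≠ j := fun h => hww (by rw [h])
        obtain ⟨x, hx, y, hy, hxy⟩ := hB3 i j (by rw [top_adj]; exact hij)
        obtain ⟨a, ha', b, hb, hab⟩ := h3 x y hxy
        exact ⟨a, Set.mem_biUnion hx ha', b, Set.mem_biUnion hy hb, hab⟩

/-- A complete minor inside the neighbourhood of a vertex. -/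
theorem cone_nb {p : ℕ} {G : SimpleGraph V} (v : V)
    (h : IsMinor (⊤ : SimpleGraph (Fin p)) (G.induce (nb G v))) :
    IsMinor (⊤ : SimpleGraph (Fin (p + 1))) G := by
  refine cone (G' := G.induce (nb G v)) (fun x => {x.1}) (fun x => SC.singleton G _) ?_ ?_ {v}
    (SC.singleton G v) ?_ ?_ h
  · intro x y hxy
    rw [Set.disjoint_singleton]
    exact fun h => hxy (Subtype.ext h)
  · intro x y hxy
    exact ⟨x.1, rfl, y.1, rfl, hxy⟩
  · intro x
    rw [Set.disjoint_singleton]
    intro h
    have : G.Adj v x.1 := x.2
    rw [h] at this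
    exact G.irrefl this
  · intro x
    exact ⟨x.1, rfl, v, rfl, (x.2 : G.Adj v x.1).symm⟩

/-- the pairs inside a neighbourhood -/
theorem dn_nb_ge [Finite V] (G : SimpleGraph V) (v : V) (a : ℕ)
    (h : ∀ w, G.Adj v w → a ≤ (cn G v w).ncard) :
    a * (nb G v).ncard ≤ dn (G.induce (nb G v)) := by
  have := le_dn (G.induce (nb G v)) a ?_
  · rwa [Nat.card_coe_set_eq] at this
  · intro w
    have hw : G.Adj v w.1 := w.2
    refine (h w.1 hw).trans ?_
    have : cn G v w.1 ⊆ (fun x => x.1) '' nb (G.induce (nb G v)) w := by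
      rintro x ⟨hx1, hx2⟩
      exact ⟨⟨x, hx1⟩, hx2, rfl⟩
    refine (Set.ncard_le_ncard this (Set.toFinite _)).trans (Set.ncard_image_le (Set.toFinite _))

/-- removing one edge -/
theorem dn_remove [Finite V] (G : SimpleGraph V) (u v : V) :
    ∃ G' ≤ G, dn G ≤ dn G' + 2 ∧ (G.Adj u v → dn G' < dn G) := by
  classical
  let G' : SimpleGraph V := G.deleteEdges {s(u, v)}
  have hle : G' ≤ G := G.deleteEdges_le _
  have hsub : dartSet G ⊆ dartSet G' ∪ {(u, v), (v, u)} := by
    rintro ⟨x, y⟩ hxy
    have hxy' : G.Adj x y := hxy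
    by_cases h : s(x, y) = s(u, v)
    · rw [Sym2.eq_iff] at h
      rcases h with ⟨rfl, rfl⟩ | ⟨rfl, rfl⟩
      · exact Or.inr (Or.inl rfl)
      · exact Or.inr (Or.inr rfl)
    · left
      show G'.Adj x y
      rw [deleteEdges_adj]
      exact ⟨hxy', h⟩
  refine ⟨G', hle, ?_, ?_⟩
  · have h1 := Set.ncard_le_ncard hsub (Set.toFinite _)
    have h2 := Set.ncard_union_le (dartSet G') {(u, v), (v, u)}
    have h3 : ({(u, v), (v, u)} : Set (V × V)).ncard ≤ 2 :=
      (Set.ncard_insert_le _ _).trans (by rw [Set.ncard_singleton])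
    have h4 : dn G = (dartSet G).ncard := rfl
    have h5 : dn G' = (dartSet G').ncard := rfl
    omega
  · intro huv
    refine Set.ncard_lt_ncard ?_ (Set.toFinite _)
    refine ⟨fun x hx => hle hx, ?_⟩
    intro h
    have : G'.Adj u v := @h (u, v) huv
    rw [deleteEdges_adj] at this
    exact this.2 rfl

/-- The scheme of the proof of Mader's theorems. -/
theorem core (p a c n0 : ℕ) (hc : 2 ≤ c) (base : n0 * (n0 - 1) + c < 2 * a * n0)
    (step : ∀ (V : Type) [Finite V] (G : SimpleGraph V), n0 < Nat.card V →
      2 * a * Nat.card V ≤ dn G + c → dn G < 2 * a * Nat.card V →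
      (∀ u v, G.Adj u v → a ≤ (cn G u v).ncard) →
      (∀ v, a + 1 ≤ (nb G v).ncard) →
      (∀ (V' : Type) [Finite V'] (G' : SimpleGraph V'), n0 ≤ Nat.card V' →
        Nat.card V' < Nat.card V → 2 * a * Nat.card V' ≤ dn G' + c →
        IsMinor (⊤ : SimpleGraph (Fin p)) G') →
      IsMinor (⊤ : SimpleGraph (Fin p)) G) :
    ∀ (n : ℕ) (V : Type) [Finite V] (G : SimpleGraph V), Nat.card V = n → n0 ≤ n →
      2 * a * n ≤ dn G + c → IsMinor (⊤ : SimpleGraph (Fin p)) G := by
  intro n
  induction n using Nat.strong_induction_on with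
  | _ n ih =>
    intro V _ G hn hn0 he
    induction hm : dn G using Nat.strong_induction_on generalizing G with
    | _ m ihm =>
      rcases hn0.eq_or_lt with h0 | h0
      · exfalso
        have := dn_le G
        rw [hn, ← h0] at this
        rw [← h0] at he
        omega
      have hIH : ∀ (V' : Type) [Finite V'] (G' : SimpleGraph V'), n0 ≤ Nat.card V' →
          Nat.card V' < Nat.card V → 2 * a * Nat.card V' ≤ dn G' + c →
          IsMinor (⊤ : SimpleGraph (Fin p)) G' := by
        intro V' _ G' h1 h2 h3
        exact ih (Nat.card V') (by omega) V' G' rfl h1 h3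
      by_cases hdec : 2 * a * n + 2 ≤ dn G + c ∧ ∃ u v, G.Adj u v
      · obtain ⟨hd, u, v, huv⟩ := hdec
        obtain ⟨G', hle, h1, h2⟩ := dn_remove G u v
        exact (ihm (dn G') (by rw [← hm]; exact h2 huv) G' (by omega) rfl).trans (isMinor_mono hle)
      · have hlt : dn G < 2 * a * n := by
          by_contra hge
          push Not at hge
          apply hdec
          refine ⟨by omega, ?_⟩
          by_contra hne
          push Not at hne
          have h0' : dn G = 0 := by
            have : dartSet G = ∅ := by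
              ext x
              simp only [Set.mem_empty_iff_false, iff_false]
              exact fun hx => hne _ _ hx
            rw [dn, this, Set.ncard_empty]
          have : 0 < 2 * a * n0 := by omega
          have h3 : 0 < 2 * a := by
            rcases Nat.eq_zero_or_pos (2 * a) with h | h
            · rw [h] at this; omega
            · exact h
          have : 0 < 2 * a * n := Nat.mul_pos h3 (by omega)
          omega
        have ht : ∀ u v, G.Adj u v → (cn G u v).ncard < a →
            IsMinor (⊤ : SimpleGraph (Fin p)) G := by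
          intro u v huv hlt
          have h1 := ncard_dartSet_contr G u v huv
          have hcard : Nat.card {x : V // x ≠ v} + 1 = Nat.card V := by
            classical
            have := Fintype.ofFinite V
            rw [Nat.card_eq_fintype_card, Nat.card_eq_fintype_card, Fintype.card_subtype_compl,
              Fintype.card_subtype_eq]
            have : 0 < Fintype.card V := Fintype.card_pos_iff.mpr ⟨v⟩
            omega
          refine (hIH {x : V // x ≠ v} (contr G u v) (by omega) (by omega) ?_).trans
            (isMinor_contr G u v huv)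
          have h2 : dn G = (dartSet G).ncard := rfl
          have h3 : dn (contr G u v) = (dartSet (contr G u v)).ncard := rfl
          have h4 : (cn G u v).ncard = {w | G.Adj u w ∧ G.Adj v w}.ncard := rfl
          have h5 : 2 * a * Nat.card V = 2 * a * Nat.card {x : V // x ≠ v} + 2 * a := by
            rw [← hcard]; ring
          rw [← hn] at he
          omega
        have hdel : ∀ v, (nb G v).ncard ≤ a → IsMinor (⊤ : SimpleGraph (Fin p)) G := by
          intro v hv
          have h1 := dn_delete G v
          have hcard : Nat.card ↑{x : V | x ≠ v} + 1 = Nat.card V := by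
            classical
            have := Fintype.ofFinite V
            show Nat.card {x : V // x ≠ v} + 1 = Nat.card V
            rw [Nat.card_eq_fintype_card, Nat.card_eq_fintype_card, Fintype.card_subtype_compl,
              Fintype.card_subtype_eq]
            have : 0 < Fintype.card V := Fintype.card_pos_iff.mpr ⟨v⟩
            omega
          refine (hIH _ (G.induce {x | x ≠ v}) (by omega) (by omega) ?_).trans
            (isMinor_induce G _)
          have h5 : 2 * a * Nat.card V = 2 * a * Nat.card ↑{x : V | x ≠ v} + 2 * a := by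
            rw [← hcard]; ring
          rw [← hn] at he
          omega
        by_cases hA : ∃ u v, G.Adj u v ∧ (cn G u v).ncard < a
        · obtain ⟨u, v, huv, hlt⟩ := hA
          exact ht u v huv hlt
        push Not at hA
        by_cases hB : ∃ v, (nb G v).ncard ≤ a
        · obtain ⟨v, hv⟩ := hB
          exact hdel v hv
        push Not at hB
        exact step V G (by omega) (by rw [hn]; exact he) (by rw [hn]; exact hlt) hA
          (fun v => hB v) hIH

end Pool.Agent.K6
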