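import Pool.Agent.K6.Local

set_option autoImplicit false
set_option linter.unusedSectionVars false

/-!
# Dense bipartite graphs next to a contracted edge
-/

namespace Pool.Agent.K6

open SimpleGraph Pool.Agent.TreewidthMinor

open scoped Classical

variable {V : Type}

theorem fin5_ne (P : Fin 5 → Fin 5 → Prop) (hs : ∀ i j, P i j → P j i) (h01 : P 0 1)
    (h02 : P 0 2) (h03 : P 0 3) (h04 : P 0 4) (h12 : P 1 2) (h13 : P 1 3) (h14 : P 1 4)
    (h23 : P 2 3) (h24 : P 2 4) (h34 : P 3 4) : ∀ i j, i ≠ j → P i j := by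
  intro i j hij
  rcases lt_or_gt_of_ne hij with h | h
  · exact fin5_lt P h01 h02 h03 h04 h12 h13 h14 h23 h24 h34 i j h
  · exact hs _ _ (fin5_lt P h01 h02 h03 h04 h12 h13 h14 h23 h24 h34 j i h)

/-- A model of the complete graph on five vertices made of three pairs and two single vertices. -/
theorem pat8 {G : SimpleGraph V} {a b : V} (hab : G.Adj a b)
    (nk : ¬ IsMinor (⊤ : SimpleGraph (Fin 6)) G)
    {x1 y1 x2 y2 x3 y3 p q : V}
    (hin : ∀ s ∈ [x1, y1, x2, y2, x3, y3, p, q], s ∈ NA G a b ∨ s ∈ NA G b a)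
    (d12 : x1 ≠ x2 ∧ x1 ≠ y2 ∧ y1 ≠ x2 ∧ y1 ≠ y2)
    (d13 : x1 ≠ x3 ∧ x1 ≠ y3 ∧ y1 ≠ x3 ∧ y1 ≠ y3)
    (d23 : x2 ≠ x3 ∧ x2 ≠ y3 ∧ y2 ≠ x3 ∧ y2 ≠ y3)
    (d1 : x1 ≠ p ∧ y1 ≠ p ∧ x1 ≠ q ∧ y1 ≠ q) (d2 : x2 ≠ p ∧ y2 ≠ p ∧ x2 ≠ q ∧ y2 ≠ q)
    (d3 : x3 ≠ p ∧ y3 ≠ p ∧ x3 ≠ q ∧ y3 ≠ q)
    (h1 : G.Adj x1 y1) (h2 : G.Adj x2 y2) (h3 : G.Adj x3 y3) (hpq : G.Adj p q)
    (h1p : G.Adj x1 p ∨ G.Adj y1 p) (h1q : G.Adj x1 q ∨ G.Adj y1 q)
    (h2p : G.Adj x2 p ∨ G.Adj y2 p) (h2q : G.Adj x2 q ∨ G.Adj y2 q)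
    (h3p : G.Adj x3 p ∨ G.Adj y3 p) (h3q : G.Adj x3 q ∨ G.Adj y3 q)
    (h12 : G.Adj x1 y2 ∨ G.Adj y1 x2 ∨ G.Adj x1 x2)
    (h13 : G.Adj x1 y3 ∨ G.Adj y1 x3 ∨ G.Adj x1 x3)
    (h23 : G.Adj x2 y3 ∨ G.Adj y2 x3 ∨ G.Adj x2 x3) : False := by
  have d22 : ∀ {x y x' y' : V}, (x ≠ x' ∧ x ≠ y' ∧ y ≠ x' ∧ y ≠ y') →
      Disjoint ({x, y} : Set V) {x', y'} := by
    rintro x y x' y' ⟨e1, e2, e3, e4⟩
    rw [Set.disjoint_left]
    rintro t (ht | ht) (ht' | ht')
    · exact e1 (ht.symm.trans ht')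
    · exact e2 (ht.symm.trans (Set.mem_singleton_iff.1 ht'))
    · exact e3 ((Set.mem_singleton_iff.1 ht).symm.trans ht')
    · exact e4 ((Set.mem_singleton_iff.1 ht).symm.trans (Set.mem_singleton_iff.1 ht'))
  have d21 : ∀ {x y z : V}, x ≠ z → y ≠ z → Disjoint ({x, y} : Set V) {z} := by
    intro x y z e1 e2
    rw [Set.disjoint_singleton_right]
    rintro (h | h)
    · exact e1 h.symm
    · exact e2 (Set.mem_singleton_iff.1 h).symm
  have a22 : ∀ {x y x' y' : V}, G.Adj x y' ∨ G.Adj y x' ∨ G.Adj x x' →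
      ∃ s ∈ ({x, y} : Set V), ∃ t ∈ ({x', y'} : Set V), G.Adj s t := by
    rintro x y x' y' (h | h | h)
    · exact ⟨_, Or.inl rfl, _, Or.inr rfl, h⟩
    · exact ⟨_, Or.inr rfl, _, Or.inl rfl, h⟩
    · exact ⟨_, Or.inl rfl, _, Or.inl rfl, h⟩
  have a21 : ∀ {x y z : V}, G.Adj x z ∨ G.Adj y z →
      ∃ s ∈ ({x, y} : Set V), ∃ t ∈ ({z} : Set V), G.Adj s t := by
    rintro x y z (h | h)
    · exact ⟨_, Or.inl rfl, _, rfl, h⟩
    · exact ⟨_, Or.inr rfl, _, rfl, h⟩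
  let B : Fin 5 → Set V := ![{x1, y1}, {x2, y2}, {x3, y3}, {p}, {q}]
  refine no5 hab nk (W := Fin 5) (H := ⊤) B ?_ ?_ ?_ ?_
    (isMinor_of_inj id Function.injective_id fun _ _ h => h)
  · intro i
    fin_cases i
    · exact SC.pair h1
    · exact SC.pair h2
    · exact SC.pair h3
    · exact SC.singleton G _
    · exact SC.singleton G _
  · exact fin5_ne (fun i j => Disjoint (B i) (B j)) (fun i j h => h.symm) (d22 d12) (d22 d13)
      (d21 d1.1 d1.2.1) (d21 d1.2.2.1 d1.2.2.2) (d22 d23) (d21 d2.1 d2.2.1)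
      (d21 d2.2.2.1 d2.2.2.2) (d21 d3.1 d3.2.1) (d21 d3.2.2.1 d3.2.2.2)
      (by show Disjoint ({p} : Set V) {q}; rw [Set.disjoint_singleton]; exact hpq.ne)
  · intro i j hij
    rw [top_adj] at hij
    revert i j
    exact fin5_ne (fun i j => ∃ s ∈ B i, ∃ t ∈ B j, G.Adj s t)
      (fun i j ⟨s, hs, t, ht, h⟩ => ⟨t, ht, s, hs, h.symm⟩) (a22 h12) (a22 h13)
      (a21 h1p) (a21 h1q) (a22 h23) (a21 h2p) (a21 h2q) (a21 h3p) (a21 h3q)
      ⟨_, rfl, _, rfl, hpq⟩
  · intro i s hs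
    apply hin
    simp only [List.mem_cons, List.not_mem_nil, or_false]
    fin_cases i
    · rcases hs with hs | hs
      · exact Or.inl hs
      · exact Or.inr (Or.inl hs)
    · rcases hs with hs | hs
      · exact Or.inr (Or.inr (Or.inl hs))
      · exact Or.inr (Or.inr (Or.inr (Or.inl hs)))
    · rcases hs with hs | hs
      · exact Or.inr (Or.inr (Or.inr (Or.inr (Or.inl hs))))
      · exact Or.inr (Or.inr (Or.inr (Or.inr (Or.inr (Or.inl hs)))))
    · exact Or.inr (Or.inr (Or.inr (Or.inr (Or.inr (Or.inr (Or.inl hs))))))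
    · exact Or.inr (Or.inr (Or.inr (Or.inr (Or.inr (Or.inr (Or.inr hs))))))

section

variable {G : SimpleGraph V} {a b : V} (hab : G.Adj a b)
    (nk : ¬ IsMinor (⊤ : SimpleGraph (Fin 6)) G)
    (tf : ∀ x y z, G.Adj x y → G.Adj y z → G.Adj x z → False)

include hab nk tf

/-- two enumerations with few missing edges -/
theorem pat44 {l r : Fin 4 → V} (hl : Function.Injective l) (hr : Function.Injective r)
    (hlA : ∀ i, l i ∈ NA G a b) (hrB : ∀ i, r i ∈ NA G b a)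
    (h0r : ∀ i, G.Adj (l 0) (r i)) (h0l : ∀ i, G.Adj (l i) (r 0))
    (h11 : G.Adj (l 1) (r 1)) (h22 : G.Adj (l 2) (r 2)) (h33 : G.Adj (l 3) (r 3))
    (h12 : G.Adj (l 1) (r 2) ∨ G.Adj (l 2) (r 1)) (h13 : G.Adj (l 1) (r 3) ∨ G.Adj (l 3) (r 1))
    (h23 : G.Adj (l 2) (r 3) ∨ G.Adj (l 3) (r 2)) : False := by
  have nl : ∀ {i j : Fin 4}, i ≠ j → l i ≠ l j := fun h h' => h (hl h')
  have nr : ∀ {i j : Fin 4}, i ≠ j → r i ≠ r j := fun h h' => h (hr h')
  have nlr : ∀ i j : Fin 4, l i ≠ r j := by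
    intro i j h
    have h1 := (hlA i).1
    rw [h] at h1
    exact tf a b (r j) hab (hrB j).1 h1
  refine pat8 hab nk (x1 := l 1) (y1 := r 1) (x2 := l 2) (y2 := r 2) (x3 := l 3) (y3 := r 3)
    (p := l 0) (q := r 0) ?_ ⟨nl (by decide), nlr _ _, (nlr _ _).symm, nr (by decide)⟩
    ⟨nl (by decide), nlr _ _, (nlr _ _).symm, nr (by decide)⟩
    ⟨nl (by decide), nlr _ _, (nlr _ _).symm, nr (by decide)⟩
    ⟨nl (by decide), (nlr _ _).symm, nlr _ _, nr (by decide)⟩
    ⟨nl (by decide), (nlr _ _).symm, nlr _ _, nr (by decide)⟩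
    ⟨nl (by decide), (nlr _ _).symm, nlr _ _, nr (by decide)⟩
    h11 h22 h33 (h0r 0) (Or.inr (h0r 1).symm) (Or.inl (h0l 1)) (Or.inr (h0r 2).symm)
    (Or.inl (h0l 2)) (Or.inr (h0r 3).symm) (Or.inl (h0l 3)) ?_ ?_ ?_
  · intro s hs
    simp only [List.mem_cons, List.not_mem_nil, or_false] at hs
    rcases hs with rfl | rfl | rfl | rfl | rfl | rfl | rfl | rfl
    · exact Or.inl (hlA _)
    · exact Or.inr (hrB _)
    · exact Or.inl (hlA _)
    · exact Or.inr (hrB _)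
    · exact Or.inl (hlA _)
    · exact Or.inr (hrB _)
    · exact Or.inl (hlA _)
    · exact Or.inr (hrB _)
  · rcases h12 with h | h
    · exact Or.inl h
    · exact Or.inr (Or.inl h.symm)
  · rcases h13 with h | h
    · exact Or.inl h
    · exact Or.inr (Or.inl h.symm)
  · rcases h23 with h | h
    · exact Or.inl h
    · exact Or.inr (Or.inl h.symm)

/-- three against four, and one more vertex -/
theorem pat34 {l : Fin 3 → V} {r : Fin 4 → V} {y : V} (hl : Function.Injective l)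
    (hr : Function.Injective r) (hlA : ∀ i, l i ∈ NA G a b) (hrB : ∀ i, r i ∈ NA G b a)
    (hy : y ∈ NA G a b) (hyl : ∀ i, y ≠ l i) (hlr : ∀ i j, G.Adj (l i) (r j))
    (hy0 : G.Adj y (r 0)) (hy1 : G.Adj y (r 1)) : False := by
  have nl : ∀ {i j : Fin 3}, i ≠ j → l i ≠ l j := fun h h' => h (hl h')
  have nr : ∀ {i j : Fin 4}, i ≠ j → r i ≠ r j := fun h h' => h (hr h')
  have nlr' : ∀ {x : V} (j : Fin 4), x ∈ NA G a b → x ≠ r j := by
    intro x j hx h
    have h1 := hx.1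
    rw [h] at h1
    exact tf a b (r j) hab (hrB j).1 h1
  have nlr : ∀ (i : Fin 3) (j : Fin 4), l i ≠ r j := fun i j => nlr' j (hlA i)
  refine pat8 hab nk (x1 := l 0) (y1 := r 2) (x2 := l 1) (y2 := r 3) (x3 := y) (y3 := r 1)
    (p := l 2) (q := r 0) ?_ ⟨nl (by decide), nlr _ _, (nlr _ _).symm, nr (by decide)⟩
    ⟨(hyl _).symm, nlr _ _, (nlr' _ hy).symm, nr (by decide)⟩
    ⟨(hyl _).symm, nlr _ _, (nlr' _ hy).symm, nr (by decide)⟩
    ⟨nl (by decide), (nlr _ _).symm, nlr _ _, nr (by decide)⟩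
    ⟨nl (by decide), (nlr _ _).symm, nlr _ _, nr (by decide)⟩
    ⟨hyl _, (nlr _ _).symm, nlr' _ hy, nr (by decide)⟩
    (hlr _ _) (hlr _ _) hy1 (hlr _ _) (Or.inr (hlr _ _).symm) (Or.inl (hlr _ _))
    (Or.inr (hlr _ _).symm) (Or.inl (hlr _ _)) (Or.inr (hlr _ _).symm) (Or.inl hy0)
    (Or.inl (hlr _ _)) (Or.inl (hlr _ _)) (Or.inl (hlr _ _))
  intro s hs
  simp only [List.mem_cons, List.not_mem_nil, or_false] at hs
  rcases hs with rfl | rfl | rfl | rfl | rfl | rfl | rfl | rfl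
  · exact Or.inl (hlA _)
  · exact Or.inr (hrB _)
  · exact Or.inl (hlA _)
  · exact Or.inr (hrB _)
  · exact Or.inl hy
  · exact Or.inr (hrB _)
  · exact Or.inl (hlA _)
  · exact Or.inr (hrB _)

end

theorem perm4 : ∀ i j : Fin 4, i ≠ j → ∃ σ : Equiv.Perm (Fin 4), σ i = 1 ∧ σ j = 2 := by decide

/-- an enumeration of four elements with two prescribed values -/
theorem enum4 {A : Finset V} (hA : A.card = 4) {x y : V} (hx : x ∈ A) (hy : y ∈ A)
    (hxy : x ≠ y) (i j : Fin 4) (hij : i ≠ j) :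
    ∃ l : Fin 4 → V, Function.Injective l ∧ (∀ k, l k ∈ A) ∧ l i = x ∧ l j = y := by
  have h1 : (A.erase x).card = 3 := by rw [Finset.card_erase_of_mem hx, hA]
  have h2 : y ∈ A.erase x := Finset.mem_erase.2 ⟨hxy.symm, hy⟩
  have h3 : ((A.erase x).erase y).card = 2 := by rw [Finset.card_erase_of_mem h2, h1]
  obtain ⟨z, w, hzw, h4⟩ := Finset.card_eq_two.1 h3
  have hz : z ∈ (A.erase x).erase y := by rw [h4]; exact Finset.mem_insert_self _ _
  have hw : w ∈ (A.erase x).erase y := by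
    rw [h4]; exact Finset.mem_insert_of_mem (Finset.mem_singleton_self _)
  rw [Finset.mem_erase, Finset.mem_erase] at hz hw
  obtain ⟨l, hl⟩ : ∃ l : Fin 4 → V, l = ![z, x, y, w] := ⟨_, rfl⟩
  have e0 : l 0 = z := by rw [hl]; rfl
  have e1 : l 1 = x := by rw [hl]; rfl
  have e2 : l 2 = y := by rw [hl]; rfl
  have e3 : l 3 = w := by rw [hl]; rfl
  have hinj : Function.Injective l := by
    intro p q hpq
    fin_cases p <;> fin_cases q
    · rfl
    · exact absurd (e0.symm.trans (hpq.trans e1)) hz.2.1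
    · exact absurd (e0.symm.trans (hpq.trans e2)) hz.1
    · exact absurd (e0.symm.trans (hpq.trans e3)) hzw
    · exact absurd (e1.symm.trans (hpq.trans e0)) (Ne.symm hz.2.1)
    · rfl
    · exact absurd (e1.symm.trans (hpq.trans e2)) hxy
    · exact absurd (e1.symm.trans (hpq.trans e3)) (Ne.symm hw.2.1)
    · exact absurd (e2.symm.trans (hpq.trans e0)) (Ne.symm hz.1)
    · exact absurd (e2.symm.trans (hpq.trans e1)) (Ne.symm hxy)
    · rfl
    · exact absurd (e2.symm.trans (hpq.trans e3)) (Ne.symm hw.1)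
    · exact absurd (e3.symm.trans (hpq.trans e0)) (Ne.symm hzw)
    · exact absurd (e3.symm.trans (hpq.trans e1)) hw.2.1
    · exact absurd (e3.symm.trans (hpq.trans e2)) hw.1
    · rfl
  have hmem : ∀ k, l k ∈ A := by
    intro k
    fin_cases k
    · exact e0 ▸ hz.2.2
    · exact e1 ▸ hx
    · exact e2 ▸ hy
    · exact e3 ▸ hw.2.2
  obtain ⟨σ, s1, s2⟩ := perm4 i j hij
  exact ⟨l ∘ σ, hinj.comp σ.injective, fun k => hmem _, by rw [Function.comp, s1, e1],
    by rw [Function.comp, s2, e2]⟩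

section

variable {G : SimpleGraph V} {a b : V} (hab : G.Adj a b)
    (nk : ¬ IsMinor (⊤ : SimpleGraph (Fin 6)) G)
    (tf : ∀ x y z, G.Adj x y → G.Adj y z → G.Adj x z → False)

include hab nk tf

/-- A bipartite graph with two classes of size four and at most two missing edges. -/
theorem Q44 {A B : Finset V} (hA : ∀ u ∈ A, u ∈ NA G a b) (hB : ∀ v ∈ B, v ∈ NA G b a)
    (cA : A.card = 4) (cB : B.card = 4) {P1 Q1 P2 Q2 : V} (hP1 : P1 ∈ A) (hQ1 : Q1 ∈ A)
    (hP2 : P2 ∈ B) (hQ2 : Q2 ∈ B)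
    (hm : ∀ u ∈ A, ∀ v ∈ B, ¬ G.Adj u v → (u = P1 ∧ v = P2) ∨ (u = Q1 ∧ v = Q2)) : False := by
  have other : ∀ {A : Finset V}, A.card = 4 → ∀ {x : V}, x ∈ A → ∃ y ∈ A, x ≠ y := by
    intro A cA x hx
    have h1 : 0 < (A.erase x).card := by rw [Finset.card_erase_of_mem hx, cA]; omega
    obtain ⟨y, hy⟩ := Finset.card_pos.1 h1
    rw [Finset.mem_erase] at hy
    exact ⟨y, hy.2, hy.1.symm⟩
  have fin : ∀ (l r : Fin 4 → V) (z w : Fin 4 × Fin 4), Function.Injective l →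
      Function.Injective r → (∀ i, l i ∈ A) → (∀ i, r i ∈ B) →
      l z.1 = P1 → r z.2 = P2 → l w.1 = Q1 → r w.2 = Q2 →
      ∀ i j, (i, j) ≠ z → (i, j) ≠ w → G.Adj (l i) (r j) := by
    intro l r z w hl hr hlA hrB e1 e2 e3 e4 i j h1 h2
    by_contra hn
    rcases hm _ (hlA i) _ (hrB j) hn with ⟨h3, h4⟩ | ⟨h3, h4⟩
    · exact h1 (Prod.ext (hl (h3.trans e1.symm)) (hr (h4.trans e2.symm)))
    · exact h2 (Prod.ext (hl (h3.trans e3.symm)) (hr (h4.trans e4.symm)))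
  by_cases h1 : P1 = Q1
  · obtain ⟨P', hP', hne⟩ := other cA hP1
    obtain ⟨l, hl, hlA, l1, l2⟩ := enum4 cA hP1 hP' hne 1 2 (by decide)
    by_cases h2 : P2 = Q2
    · obtain ⟨R', hR', hne'⟩ := other cB hP2
      obtain ⟨r, hr, hrB, r2, r3⟩ := enum4 cB hP2 hR' hne' 2 3 (by decide)
      have key := fin l r (1, 2) (1, 2) hl hr hlA hrB l1 r2 (l1.trans h1) (r2.trans h2)
      exact pat44 hab nk tf hl hr (fun i => hA _ (hlA i)) (fun i => hB _ (hrB i))
        (fun i => key 0 i (by fin_cases i <;> decide) (by fin_cases i <;> decide))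
        (fun i => key i 0 (by fin_cases i <;> decide) (by fin_cases i <;> decide))
        (key 1 1 (by decide) (by decide)) (key 2 2 (by decide) (by decide))
        (key 3 3 (by decide) (by decide)) (Or.inr (key 2 1 (by decide) (by decide)))
        (Or.inr (key 3 1 (by decide) (by decide))) (Or.inr (key 3 2 (by decide) (by decide)))
    · obtain ⟨r, hr, hrB, r2, r3⟩ := enum4 cB hP2 hQ2 h2 2 3 (by decide)
      have key := fin l r (1, 2) (1, 3) hl hr hlA hrB l1 r2 (l1.trans h1) r3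
      exact pat44 hab nk tf hl hr (fun i => hA _ (hlA i)) (fun i => hB _ (hrB i))
        (fun i => key 0 i (by fin_cases i <;> decide) (by fin_cases i <;> decide))
        (fun i => key i 0 (by fin_cases i <;> decide) (by fin_cases i <;> decide))
        (key 1 1 (by decide) (by decide)) (key 2 2 (by decide) (by decide))
        (key 3 3 (by decide) (by decide)) (Or.inr (key 2 1 (by decide) (by decide)))
        (Or.inr (key 3 1 (by decide) (by decide))) (Or.inr (key 3 2 (by decide) (by decide)))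
  · obtain ⟨l, hl, hlA, l1, l2⟩ := enum4 cA hP1 hQ1 h1 1 2 (by decide)
    by_cases h2 : P2 = Q2
    · obtain ⟨R', hR', hne'⟩ := other cB hP2
      obtain ⟨r, hr, hrB, r3, r1⟩ := enum4 cB hP2 hR' hne' 3 1 (by decide)
      have key := fin l r (1, 3) (2, 3) hl hr hlA hrB l1 r3 l2 (r3.trans h2)
      exact pat44 hab nk tf hl hr (fun i => hA _ (hlA i)) (fun i => hB _ (hrB i))
        (fun i => key 0 i (by fin_cases i <;> decide) (by fin_cases i <;> decide))
        (fun i => key i 0 (by fin_cases i <;> decide) (by fin_cases i <;> decide))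
        (key 1 1 (by decide) (by decide)) (key 2 2 (by decide) (by decide))
        (key 3 3 (by decide) (by decide)) (Or.inr (key 2 1 (by decide) (by decide)))
        (Or.inr (key 3 1 (by decide) (by decide))) (Or.inr (key 3 2 (by decide) (by decide)))
    · obtain ⟨r, hr, hrB, r3, r1⟩ := enum4 cB hP2 hQ2 h2 3 1 (by decide)
      have key := fin l r (1, 3) (2, 1) hl hr hlA hrB l1 r3 l2 r1
      exact pat44 hab nk tf hl hr (fun i => hA _ (hlA i)) (fun i => hB _ (hrB i))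
        (fun i => key 0 i (by fin_cases i <;> decide) (by fin_cases i <;> decide))
        (fun i => key i 0 (by fin_cases i <;> decide) (by fin_cases i <;> decide))
        (key 1 1 (by decide) (by decide)) (key 2 2 (by decide) (by decide))
        (key 3 3 (by decide) (by decide)) (Or.inl (key 1 2 (by decide) (by decide)))
        (Or.inr (key 3 1 (by decide) (by decide))) (Or.inr (key 3 2 (by decide) (by decide)))

/-- the same, by counting -/
theorem Q44' {A B : Finset V} (hA : ∀ u ∈ A, u ∈ NA G a b) (hB : ∀ v ∈ B, v ∈ NA G b a)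
    (cA : A.card = 4) (cB : B.card = 4)
    (hm : ((A ×ˢ B).filter (fun x => ¬ G.Adj x.1 x.2)).card ≤ 2) : False := by
  obtain ⟨x0, hx0⟩ := Finset.card_pos.1 (show 0 < A.card by omega)
  obtain ⟨y0, hy0⟩ := Finset.card_pos.1 (show 0 < B.card by omega)
  obtain ⟨S, hS⟩ : ∃ S, S = (A ×ˢ B).filter (fun x => ¬ G.Adj x.1 x.2) := ⟨_, rfl⟩
  rw [← hS] at hm
  have mS : ∀ {u v}, u ∈ A → v ∈ B → ¬ G.Adj u v → (u, v) ∈ S := by
    intro u v hu hv h
    rw [hS, Finset.mem_filter, Finset.mem_product]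
    exact ⟨⟨hu, hv⟩, h⟩
  have mS' : ∀ {x}, x ∈ S → x.1 ∈ A ∧ x.2 ∈ B := by
    intro x hx
    rw [hS, Finset.mem_filter, Finset.mem_product] at hx
    exact hx.1
  have h0 : S.card = 0 ∨ S.card = 1 ∨ S.card = 2 := by omega
  rcases h0 with h0 | h0 | h0
  · refine Q44 hab nk tf hA hB cA cB hx0 hx0 hy0 hy0 ?_
    intro u hu v hv h
    have := mS hu hv h
    rw [Finset.card_eq_zero.1 h0] at this
    exact absurd this (Finset.notMem_empty _)
  · obtain ⟨p, hp⟩ := Finset.card_eq_one.1 h0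
    have h1 := mS' (x := p) (by rw [hp]; exact Finset.mem_singleton_self _)
    refine Q44 hab nk tf hA hB cA cB h1.1 h1.1 h1.2 h1.2 ?_
    intro u hu v hv h
    have := mS hu hv h
    rw [hp, Finset.mem_singleton] at this
    exact Or.inl ⟨congrArg Prod.fst this, congrArg Prod.snd this⟩
  · obtain ⟨p, q, -, hp⟩ := Finset.card_eq_two.1 h0
    have h1 := mS' (x := p) (by rw [hp]; exact Finset.mem_insert_self _ _)
    have h2 := mS' (x := q) (by
      rw [hp]; exact Finset.mem_insert_of_mem (Finset.mem_singleton_self _))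
    refine Q44 hab nk tf hA hB cA cB h1.1 h2.1 h1.2 h2.2 ?_
    intro u hu v hv h
    have := mS hu hv h
    rw [hp, Finset.mem_insert, Finset.mem_singleton] at this
    rcases this with h | h
    · exact Or.inl ⟨congrArg Prod.fst h, congrArg Prod.snd h⟩
    · exact Or.inr ⟨congrArg Prod.fst h, congrArg Prod.snd h⟩

/-- no complete bipartite graph with classes of size four -/
theorem noK44 {A B : Finset V} (hA : ∀ u ∈ A, u ∈ NA G a b) (hB : ∀ v ∈ B, v ∈ NA G b a)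
    (cA : 4 ≤ A.card) (cB : 4 ≤ B.card) (hm : ∀ u ∈ A, ∀ v ∈ B, G.Adj u v) : False := by
  obtain ⟨A', hA', cA'⟩ := Finset.exists_subset_card_eq cA
  obtain ⟨B', hB', cB'⟩ := Finset.exists_subset_card_eq cB
  refine Q44' hab nk tf (fun u hu => hA u (hA' hu)) (fun v hv => hB v (hB' hv)) cA' cB' ?_
  rw [Finset.filter_false_of_mem]
  · simp
  · intro x hx
    rw [Finset.mem_product] at hx
    exact fun h => h (hm _ (hA' hx.1) _ (hB' hx.2))

end

end Pool.Agent.K6
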