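import Pool.Agent.K6.Ineq

set_option autoImplicit false
set_option linter.unusedSectionVars false

/-!
# Summation over the matching, and its contraction
-/

namespace Pool.Agent.K6

open SimpleGraph Pool.Agent.TreewidthMinor

open scoped Classical

variable {V : Type} [Fintype V] {G : SimpleGraph V} {M : Finset (V × V)}

/-- the uncovered vertices -/
noncomputable def Un (M : Finset (V × V)) : Finset V := Finset.univ.filter (fun u => ¬ Sat M u)

theorem mem_Un {u : V} : u ∈ Un M ↔ ¬ Sat M u := by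
  rw [Un, Finset.mem_filter]
  exact ⟨fun h => h.2, fun h => ⟨Finset.mem_univ _, h⟩⟩

/-- a sum over all vertices -/
theorem sum_split (K : Mtch G M) (f : V → ℕ) :
    ∑ v, f v = ∑ e ∈ M, (f e.1 + f e.2) + ∑ u ∈ Un M, f u := by
  have h1 : Set.InjOn (fun e : V × V => e.1) M := by
    intro e he f hf h
    by_contra hne
    exact (K.dis e he f hf hne).1 h
  have h2 : Set.InjOn (fun e : V × V => e.2) M := by
    intro e he f hf h
    by_contra hne
    exact (K.dis e he f hf hne).2.2.2 h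
  have d1 : Disjoint (M.image (fun e => e.1)) (M.image (fun e => e.2)) := by
    rw [Finset.disjoint_left]
    intro x hx hx'
    rw [Finset.mem_image] at hx hx'
    obtain ⟨e, he, h⟩ := hx
    obtain ⟨e', he', h'⟩ := hx'
    by_cases hee : e = e'
    · rw [← hee] at h'
      exact (K.adj e he).ne (h.trans h'.symm)
    · exact (K.dis e he e' he' hee).2.1 (h.trans h'.symm)
  have d2 : Disjoint (M.image (fun e => e.1) ∪ M.image (fun e => e.2)) (Un M) := by
    rw [Finset.disjoint_left]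
    intro x hx hx'
    rw [Finset.mem_union, Finset.mem_image, Finset.mem_image] at hx
    rcases hx with ⟨e, he, h⟩ | ⟨e, he, h⟩
    · exact (mem_Un.1 hx') ⟨e, he, Or.inl h.symm⟩
    · exact (mem_Un.1 hx') ⟨e, he, Or.inr h.symm⟩
  have h3 : (Finset.univ : Finset V) =
      (M.image (fun e => e.1) ∪ M.image (fun e => e.2)) ∪ Un M := by
    ext x
    simp only [Finset.mem_univ, true_iff, Finset.mem_union, Finset.mem_image]
    by_cases hx : Sat M x
    · obtain ⟨e, he, h | h⟩ := hx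
      · exact Or.inl (Or.inl ⟨e, he, h.symm⟩)
      · exact Or.inl (Or.inr ⟨e, he, h.symm⟩)
    · exact Or.inr (mem_Un.2 hx)
  rw [h3, Finset.sum_union d2, Finset.sum_union d1, Finset.sum_image h1, Finset.sum_image h2,
    Finset.sum_add_distrib]

/-- the darts counted around an edge of the matching -/
theorem pr_count {a b : V} :
    ∑ u ∈ Un M, ∑ w ∈ Finset.univ.filter (G.Adj u), (if Pr G (u, w) (a, b) then 1 else 0) ≤
      (UU G M a b).ncard + (TT G M a b).ncard := by
  obtain ⟨X, hX⟩ : ∃ X : Finset (V × V), X = Finset.univ.filter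
    (fun x => x.1 ∈ NA G a b ∧ x.2 ∈ NA G b a ∧ G.Adj x.1 x.2 ∧ ¬ Sat M x.1) := ⟨_, rfl⟩
  obtain ⟨Y, hY⟩ : ∃ Y : Finset (V × V), Y = Finset.univ.filter
    (fun x => x.1 ∈ NA G a b ∧ x.2 ∈ NA G b a ∧ G.Adj x.1 x.2 ∧ ¬ Sat M x.2) := ⟨_, rfl⟩
  have mX : ∀ {x}, x ∈ X ↔ (x.1 ∈ NA G a b ∧ x.2 ∈ NA G b a ∧ G.Adj x.1 x.2 ∧ ¬ Sat M x.1) := by
    intro x
    rw [hX, Finset.mem_filter]
    exact ⟨fun h => h.2, fun h => ⟨Finset.mem_univ _, h⟩⟩
  have mY : ∀ {x}, x ∈ Y ↔ (x.1 ∈ NA G a b ∧ x.2 ∈ NA G b a ∧ G.Adj x.1 x.2 ∧ ¬ Sat M x.2) := by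
    intro x
    rw [hY, Finset.mem_filter]
    exact ⟨fun h => h.2, fun h => ⟨Finset.mem_univ _, h⟩⟩
  have c1 : (X ∪ Y).card = (TT G M a b).ncard := by
    rw [← Set.ncard_coe_finset]
    congr 1
    ext x
    rw [Finset.mem_coe, Finset.mem_union, mX, mY]
    constructor
    · rintro (h | h)
      · exact ⟨h.1, h.2.1, h.2.2.1, Or.inl h.2.2.2⟩
      · exact ⟨h.1, h.2.1, h.2.2.1, Or.inr h.2.2.2⟩
    · rintro ⟨h1, h2, h3, h4 | h4⟩
      · exact Or.inl ⟨h1, h2, h3, h4⟩
      · exact Or.inr ⟨h1, h2, h3, h4⟩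
  have c2 : (X ∩ Y).card = (UU G M a b).ncard := by
    rw [← Set.ncard_coe_finset]
    congr 1
    ext x
    rw [Finset.mem_coe, Finset.mem_inter, mX, mY]
    constructor
    · rintro ⟨h1, h2⟩
      exact ⟨h1.1, h1.2.1, h1.2.2.1, h1.2.2.2, h2.2.2.2⟩
    · rintro ⟨h1, h2, h3, h4, h5⟩
      exact ⟨⟨h1, h2, h3, h4⟩, ⟨h1, h2, h3, h5⟩⟩
  have c3 := Finset.card_union_add_card_inter X Y
  obtain ⟨Z, hZ⟩ : ∃ Z : Finset (V × V), Z = Finset.univ.filter
    (fun x => ¬ Sat M x.1 ∧ G.Adj x.1 x.2 ∧ Pr G x (a, b)) := ⟨_, rfl⟩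
  have c4 : ∑ u ∈ Un M, ∑ w ∈ Finset.univ.filter (G.Adj u),
      (if Pr G (u, w) (a, b) then 1 else 0) = Z.card := by
    rw [hZ, Finset.card_filter, Fintype.sum_prod_type, Un, Finset.sum_filter]
    refine Finset.sum_congr rfl fun u _ => ?_
    by_cases hu : ¬ Sat M u
    · rw [if_pos hu, Finset.sum_filter]
      refine Finset.sum_congr rfl fun w _ => ?_
      by_cases h1 : G.Adj u w
      · by_cases h2 : Pr G (u, w) (a, b)
        · rw [if_pos h1, if_pos h2, if_pos ⟨hu, h1, h2⟩]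
        · rw [if_pos h1, if_neg h2, if_neg fun h => h2 h.2.2]
      · rw [if_neg h1, if_neg fun h => h1 h.2.1]
    · rw [if_neg hu, Finset.sum_eq_zero]
      intro w _
      rw [if_neg fun h => hu h.1]
  have c5 : Z ⊆ X ∪ Y.image Prod.swap := by
    intro x hx
    rw [hZ, Finset.mem_filter] at hx
    obtain ⟨-, h1, h2, h3, h4, h5, h6, h7⟩ := hx
    rw [Finset.mem_union, Finset.mem_image]
    simp only at h3 h4 h5 h6 h7
    rcases h7 with ⟨h7, h8⟩ | ⟨h7, h8⟩
    · exact Or.inl (mX.2 ⟨⟨h7.symm, h4⟩, ⟨h8.symm, h5⟩, h2, h1⟩)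
    · exact Or.inr ⟨x.swap, mY.2 ⟨⟨h8.symm, h6⟩, ⟨h7.symm, h3⟩, h2.symm, h1⟩, Prod.swap_swap x⟩
  have c6 := Finset.card_le_card c5
  have c7 := Finset.card_union_le X (Y.image Prod.swap)
  have c8 : (Y.image Prod.swap).card ≤ Y.card := Finset.card_image_le
  omega

/-- three for each dart from an uncovered vertex -/
theorem sum_three (K : Opt G M) {u w : V} (hu : ¬ Sat M u) (huw : G.Adj u w) :
    3 ≤ cM G M (u, w) + ∑ e ∈ M, ((if w = e.1 then 3 - cM G M (u, w) else 0) +
      (if w = e.2 then 3 - cM G M (u, w) else 0)) := by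
  by_cases hw : Sat M w
  · obtain ⟨e, he, h⟩ := hw
    have h1 : (if w = e.1 then 3 - cM G M (u, w) else 0) +
        (if w = e.2 then 3 - cM G M (u, w) else 0) ≤
        ∑ e ∈ M, ((if w = e.1 then 3 - cM G M (u, w) else 0) +
          (if w = e.2 then 3 - cM G M (u, w) else 0)) :=
      Finset.single_le_sum (f := fun e : V × V => (if w = e.1 then 3 - cM G M (u, w) else 0) +
          (if w = e.2 then 3 - cM G M (u, w) else 0)) (fun _ _ => Nat.zero_le _) he
    rcases h with h | h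
    · rw [if_pos h] at h1
      omega
    · rw [if_pos h] at h1
      omega
  · have := K.three_le hu hw huw
    omega

theorem big_sum (K : Opt G M) :
    3 * ∑ u ∈ Un M, (nb G u).ncard ≤
      ∑ e ∈ M, (RR G M e.1 e.2 + ((UU G M e.1 e.2).ncard + (TT G M e.1 e.2).ncard)) := by
  have hdeg : ∀ u, (nb G u).ncard = (Finset.univ.filter (G.Adj u)).card := by
    intro u
    rw [← Set.ncard_coe_finset]
    congr 1
    ext w
    simp [nb]
  have h1 : 3 * ∑ u ∈ Un M, (nb G u).ncard =
      ∑ u ∈ Un M, ∑ w ∈ Finset.univ.filter (G.Adj u), 3 := by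
    rw [Finset.mul_sum]
    refine Finset.sum_congr rfl fun u _ => ?_
    rw [hdeg, Finset.sum_const, smul_eq_mul, mul_comm]
  have h2 : ∑ u ∈ Un M, ∑ w ∈ Finset.univ.filter (G.Adj u), 3 ≤
      ∑ u ∈ Un M, ∑ w ∈ Finset.univ.filter (G.Adj u), (cM G M (u, w) +
        ∑ e ∈ M, ((if w = e.1 then 3 - cM G M (u, w) else 0) +
          (if w = e.2 then 3 - cM G M (u, w) else 0))) := by
    refine Finset.sum_le_sum fun u hu => Finset.sum_le_sum fun w hw => ?_
    exact sum_three K (mem_Un.1 hu) (Finset.mem_filter.1 hw).2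
  have h3 : ∑ u ∈ Un M, ∑ w ∈ Finset.univ.filter (G.Adj u), cM G M (u, w) ≤
      ∑ e ∈ M, ((UU G M e.1 e.2).ncard + (TT G M e.1 e.2).ncard) := by
    have h4 : ∀ u w, cM G M (u, w) = ∑ e ∈ M, (if Pr G (u, w) e then 1 else 0) := by
      intro u w
      rw [cM, Finset.card_filter]
    simp only [h4]
    have h5 : ∑ u ∈ Un M, ∑ w ∈ Finset.univ.filter (G.Adj u), ∑ e ∈ M,
        (if Pr G (u, w) e then 1 else 0) =
        ∑ e ∈ M, ∑ u ∈ Un M, ∑ w ∈ Finset.univ.filter (G.Adj u),
          (if Pr G (u, w) e then 1 else 0) :=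
      (Finset.sum_congr rfl fun u _ => Finset.sum_comm).trans Finset.sum_comm
    rw [h5]
    refine Finset.sum_le_sum fun e he => ?_
    exact pr_count (a := e.1) (b := e.2)
  have hend : ∀ a : V, ∑ u ∈ Un M, ∑ w ∈ Finset.univ.filter (G.Adj u),
      (if w = a then 3 - cM G M (u, w) else 0) = ∑ u ∈ AA G M a, ss G M a u := by
    intro a
    have hAA : AA G M a = (Un M).filter (fun u => G.Adj u a) := by
      ext u
      rw [mem_AA, Finset.mem_filter, mem_Un]
    rw [hAA, Finset.sum_filter]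
    refine Finset.sum_congr rfl fun u _ => ?_
    rw [Finset.sum_ite_eq']
    by_cases h : G.Adj u a
    · rw [if_pos h, if_pos (Finset.mem_filter.2 ⟨Finset.mem_univ _, h⟩)]
      rfl
    · rw [if_neg h, if_neg fun h' => h (Finset.mem_filter.1 h').2]
  have h6 : ∑ u ∈ Un M, ∑ w ∈ Finset.univ.filter (G.Adj u), ∑ e ∈ M,
      ((if w = e.1 then 3 - cM G M (u, w) else 0) + (if w = e.2 then 3 - cM G M (u, w) else 0)) =
      ∑ e ∈ M, RR G M e.1 e.2 := by
    have h7 : ∑ u ∈ Un M, ∑ w ∈ Finset.univ.filter (G.Adj u), ∑ e ∈ M,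
        ((if w = e.1 then 3 - cM G M (u, w) else 0) + (if w = e.2 then 3 - cM G M (u, w) else 0)) =
        ∑ e ∈ M, ∑ u ∈ Un M, ∑ w ∈ Finset.univ.filter (G.Adj u),
        ((if w = e.1 then 3 - cM G M (u, w) else 0) + (if w = e.2 then 3 - cM G M (u, w) else 0)) :=
      (Finset.sum_congr rfl fun u _ => Finset.sum_comm).trans Finset.sum_comm
    rw [h7]
    refine Finset.sum_congr rfl fun e _ => ?_
    rw [RR, ← hend e.1, ← hend e.2, ← Finset.sum_add_distrib]
    refine Finset.sum_congr rfl fun u _ => ?_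
    rw [Finset.sum_add_distrib]
  rw [h1]
  refine h2.trans ?_
  rw [Finset.sum_congr rfl fun u _ => Finset.sum_add_distrib, Finset.sum_add_distrib, h6,
    Finset.sum_add_distrib (s := M), add_comm]
  exact Nat.add_le_add_left h3 _

/-- the index set of the contraction of the matching -/
def II (M : Finset (V × V)) : Type := {e : V × V // e ∈ M} ⊕ {u : V // u ∈ Un M}

/-- the branch sets -/
noncomputable def BB (M : Finset (V × V)) : II M → Finset V
  | Sum.inl e => {e.1.1, e.1.2}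
  | Sum.inr u => {u.1}

noncomputable instance : Fintype (II M) := by unfold II; infer_instance

theorem card_II : Nat.card (II M) = M.card + (Un M).card := by
  rw [Nat.card_eq_fintype_card]
  have : Fintype.card (II M) = Fintype.card ({e : V × V // e ∈ M} ⊕ {u : V // u ∈ Un M}) :=
    Fintype.card_congr (Equiv.refl _)
  rw [this, Fintype.card_sum, Fintype.card_coe, Fintype.card_coe]

/-- a sum over all vertices, through the branch sets -/
theorem sum_BB (K : Mtch G M) (f : V → ℕ) : ∑ v, f v = ∑ i : II M, ∑ v ∈ BB M i, f v := by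
  rw [sum_split K]
  have : ∑ i : II M, ∑ v ∈ BB M i, f v =
      ∑ i : {e : V × V // e ∈ M} ⊕ {u : V // u ∈ Un M}, ∑ v ∈ BB M i, f v :=
    Fintype.sum_equiv (Equiv.refl _) _ _ fun _ => rfl
  rw [this, Fintype.sum_sum_type]
  congr 1
  · rw [← Finset.sum_coe_sort M]
    refine Finset.sum_congr rfl fun e _ => ?_
    have hne : e.1.1 ≠ e.1.2 := (K.adj _ e.2).ne
    change f e.1.1 + f e.1.2 = ∑ v ∈ ({e.1.1, e.1.2} : Finset V), f v
    rw [Finset.sum_pair hne]
  · rw [← Finset.sum_coe_sort (Un M)]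
    refine Finset.sum_congr rfl fun u _ => ?_
    change f u.1 = ∑ v ∈ ({u.1} : Finset V), f v
    rw [Finset.sum_singleton]

/-- the contraction of the matching -/
def HH (G : SimpleGraph V) (M : Finset (V × V)) : SimpleGraph (II M) where
  Adj i j := i ≠ j ∧ ∃ s ∈ BB M i, ∃ t ∈ BB M j, G.Adj s t
  symm := ⟨fun _ _ h => ⟨h.1.symm, h.2.elim fun s hs => hs.2.elim fun t ht =>
    ⟨t, ht.1, s, hs.1, ht.2.symm⟩⟩⟩
  loopless := ⟨fun _ h => h.1 rfl⟩

/-- parallel pairs -/
noncomputable def pp (G : SimpleGraph V) (M : Finset (V × V)) : II M → II M → ℕ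
  | Sum.inl e, Sum.inl f => if Pr G e.1 f.1 then 1 else 0
  | Sum.inl _, Sum.inr _ => 0
  | Sum.inr _, Sum.inl _ => 0
  | Sum.inr _, Sum.inr _ => 0

/-- the diagonal -/
noncomputable def qq (M : Finset (V × V)) : II M → II M → ℕ
  | Sum.inl e, Sum.inl f => if e = f then 2 else 0
  | Sum.inl _, Sum.inr _ => 0
  | Sum.inr _, Sum.inl _ => 0
  | Sum.inr _, Sum.inr _ => 0

theorem sum_II (M : Finset (V × V)) (g : II M → ℕ) : ∑ i : II M, g i =
    ∑ e : {e : V × V // e ∈ M}, g (Sum.inl e) + ∑ u : {u : V // u ∈ Un M}, g (Sum.inr u) := by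
  have h1 : ∑ i : II M, g i = ∑ i : {e : V × V // e ∈ M} ⊕ {u : V // u ∈ Un M}, g i :=
    Fintype.sum_equiv (Equiv.refl _) _ _ fun _ => rfl
  exact h1.trans
    (Fintype.sum_sum_type (fun i : {e : V × V // e ∈ M} ⊕ {u : V // u ∈ Un M} => g i))

theorem sum_pp : ∑ i : II M, ∑ j : II M, pp G M i j = PM G M := by
  rw [sum_II, PM, ← Finset.sum_coe_sort M]
  have h1 : ∑ u : {u : V // u ∈ Un M}, ∑ j : II M, pp G M (Sum.inr u) j = 0 := by
    refine Finset.sum_eq_zero fun u _ => ?_
    rw [sum_II]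
    simp only [pp, Finset.sum_const_zero, add_zero]
  rw [h1, add_zero]
  refine Finset.sum_congr rfl fun e _ => ?_
  rw [sum_II, cM, Finset.card_filter, ← Finset.sum_coe_sort M]
  simp only [pp, Finset.sum_const_zero, add_zero]

theorem sum_qq : ∑ i : II M, ∑ j : II M, qq M i j = 2 * M.card := by
  rw [sum_II]
  have h1 : ∑ u : {u : V // u ∈ Un M}, ∑ j : II M, qq M (Sum.inr u) j = 0 := by
    refine Finset.sum_eq_zero fun u _ => ?_
    rw [sum_II]
    simp only [qq, Finset.sum_const_zero, add_zero]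
  rw [h1, add_zero]
  have h2 : ∀ e : {e : V × V // e ∈ M}, ∑ j : II M, qq M (Sum.inl e) j = 2 := by
    intro e
    rw [sum_II]
    simp only [qq, Finset.sum_const_zero, add_zero]
    rw [Finset.sum_ite_eq, if_pos (Finset.mem_univ _)]
  rw [Finset.sum_congr rfl fun e _ => h2 e, Finset.sum_const, Finset.card_univ, Fintype.card_coe,
    smul_eq_mul, mul_comm]

/-- the darts between two branch sets -/
theorem dart_le (K : Mtch G M) (tf : ∀ x y z, G.Adj x y → G.Adj y z → G.Adj x z → False)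
    (i j : II M) : ∑ s ∈ BB M i, ∑ t ∈ BB M j, (if G.Adj s t then 1 else 0) ≤
      (if (HH G M).Adj i j then 1 else 0) + pp G M i j + qq M i j := by
  rcases i with e | u <;> rcases j with f | v
  · have he := K.adj _ e.2
    have hf := K.adj _ f.2
    change ∑ s ∈ ({e.1.1, e.1.2} : Finset V), ∑ t ∈ ({f.1.1, f.1.2} : Finset V),
      (if G.Adj s t then 1 else 0) ≤ _
    rw [Finset.sum_pair he.ne, Finset.sum_pair hf.ne, Finset.sum_pair hf.ne]
    by_cases hef : e = f
    · subst hef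
      have h1 : qq M (Sum.inl e) (Sum.inl e) = 2 := by simp [qq]
      rw [h1, if_neg (G.irrefl), if_neg (G.irrefl), if_pos he, if_pos he.symm]
      omega
    · have hne : e.1 ≠ f.1 := fun h => hef (Subtype.ext h)
      obtain ⟨k1, k2, k3, k4⟩ := K.dis _ e.2 _ f.2 hne
      have hadj : ∀ s ∈ BB M (Sum.inl e), ∀ t ∈ BB M (Sum.inl f), G.Adj s t →
          (HH G M).Adj (Sum.inl e) (Sum.inl f) := fun s hs t ht h =>
        ⟨fun h' => hef (Sum.inl_injective h'), s, hs, t, ht, h⟩
      have m1 : e.1.1 ∈ BB M (Sum.inl e) := Finset.mem_insert_self _ _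
      have m2 : e.1.2 ∈ BB M (Sum.inl e) := Finset.mem_insert_of_mem (Finset.mem_singleton_self _)
      have m3 : f.1.1 ∈ BB M (Sum.inl f) := Finset.mem_insert_self _ _
      have m4 : f.1.2 ∈ BB M (Sum.inl f) := Finset.mem_insert_of_mem (Finset.mem_singleton_self _)
      have hpp : ((G.Adj e.1.1 f.1.1 ∧ G.Adj e.1.2 f.1.2) ∨ (G.Adj e.1.1 f.1.2 ∧ G.Adj e.1.2 f.1.1)) →
          pp G M (Sum.inl e) (Sum.inl f) = 1 := by
        intro h
        have : Pr G e.1 f.1 := ⟨k1, k2, k3, k4, h⟩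
        simp [pp, this]
      by_cases h11 : G.Adj e.1.1 f.1.1
      · have h12 : ¬ G.Adj e.1.1 f.1.2 := fun h => tf _ _ _ h11 hf h
        have h21 : ¬ G.Adj e.1.2 f.1.1 := fun h => tf _ _ _ he h h11
        rw [if_pos h11, if_neg h12, if_neg h21, if_pos (hadj _ m1 _ m3 h11)]
        by_cases h22 : G.Adj e.1.2 f.1.2
        · rw [if_pos h22, hpp (Or.inl ⟨h11, h22⟩)]
          omega
        · rw [if_neg h22]
          omega
      · rw [if_neg h11]
        by_cases h12 : G.Adj e.1.1 f.1.2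
        · have h22 : ¬ G.Adj e.1.2 f.1.2 := fun h => tf _ _ _ he h h12
          rw [if_pos h12, if_neg h22, if_pos (hadj _ m1 _ m4 h12)]
          by_cases h21 : G.Adj e.1.2 f.1.1
          · rw [if_pos h21, hpp (Or.inr ⟨h12, h21⟩)]
            omega
          · rw [if_neg h21]
            omega
        · rw [if_neg h12]
          by_cases h21 : G.Adj e.1.2 f.1.1
          · have h22 : ¬ G.Adj e.1.2 f.1.2 := fun h => tf _ _ _ h21 hf h
            rw [if_pos h21, if_neg h22, if_pos (hadj _ m2 _ m3 h21)]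
            omega
          · rw [if_neg h21]
            by_cases h22 : G.Adj e.1.2 f.1.2
            · rw [if_pos h22, if_pos (hadj _ m2 _ m4 h22)]
              omega
            · rw [if_neg h22]
              omega
  · have he := K.adj _ e.2
    change ∑ s ∈ ({e.1.1, e.1.2} : Finset V), ∑ t ∈ ({v.1} : Finset V),
      (if G.Adj s t then 1 else 0) ≤ _
    rw [Finset.sum_pair he.ne, Finset.sum_singleton, Finset.sum_singleton]
    have m1 : e.1.1 ∈ BB M (Sum.inl e) := Finset.mem_insert_self _ _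
    have m2 : e.1.2 ∈ BB M (Sum.inl e) := Finset.mem_insert_of_mem (Finset.mem_singleton_self _)
    have m3 : v.1 ∈ BB M (Sum.inr v) := Finset.mem_singleton_self _
    have hne : (Sum.inl e : II M) ≠ Sum.inr v := fun h => Sum.inl_ne_inr h
    by_cases h1 : G.Adj e.1.1 v.1
    · have h2 : ¬ G.Adj e.1.2 v.1 := fun h => tf _ _ _ he h h1
      have : (HH G M).Adj (Sum.inl e) (Sum.inr v) := ⟨hne, _, m1, _, m3, h1⟩
      rw [if_pos h1, if_neg h2, if_pos this]
      omega
    · rw [if_neg h1]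
      by_cases h2 : G.Adj e.1.2 v.1
      · have : (HH G M).Adj (Sum.inl e) (Sum.inr v) := ⟨hne, _, m2, _, m3, h2⟩
        rw [if_pos h2, if_pos this]
        omega
      · rw [if_neg h2]
        omega
  · have hf := K.adj _ f.2
    change ∑ s ∈ ({u.1} : Finset V), ∑ t ∈ ({f.1.1, f.1.2} : Finset V),
      (if G.Adj s t then 1 else 0) ≤ _
    rw [Finset.sum_singleton, Finset.sum_pair hf.ne]
    have m1 : f.1.1 ∈ BB M (Sum.inl f) := Finset.mem_insert_self _ _
    have m2 : f.1.2 ∈ BB M (Sum.inl f) := Finset.mem_insert_of_mem (Finset.mem_singleton_self _)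
    have m3 : u.1 ∈ BB M (Sum.inr u) := Finset.mem_singleton_self _
    have hne : (Sum.inr u : II M) ≠ Sum.inl f := fun h => Sum.inr_ne_inl h
    by_cases h1 : G.Adj u.1 f.1.1
    · have h2 : ¬ G.Adj u.1 f.1.2 := fun h => tf _ _ _ h1 hf h
      have : (HH G M).Adj (Sum.inr u) (Sum.inl f) := ⟨hne, _, m3, _, m1, h1⟩
      rw [if_pos h1, if_neg h2, if_pos this]
      omega
    · rw [if_neg h1]
      by_cases h2 : G.Adj u.1 f.1.2
      · have : (HH G M).Adj (Sum.inr u) (Sum.inl f) := ⟨hne, _, m3, _, m2, h2⟩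
        rw [if_pos h2, if_pos this]
        omega
      · rw [if_neg h2]
        omega
  · change ∑ s ∈ ({u.1} : Finset V), ∑ t ∈ ({v.1} : Finset V),
      (if G.Adj s t then 1 else 0) ≤ _
    rw [Finset.sum_singleton, Finset.sum_singleton]
    by_cases h1 : G.Adj u.1 v.1
    · have : (HH G M).Adj (Sum.inr u) (Sum.inr v) := by
        refine ⟨?_, u.1, Finset.mem_singleton_self _, v.1, Finset.mem_singleton_self _, h1⟩
        intro h
        have h' : u = v := Sum.inr_injective h
        rw [h'] at h1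
        exact G.irrefl h1
      rw [if_pos h1, if_pos this]
      omega
    · rw [if_neg h1]
      omega

theorem dn_sum {W : Type} [Fintype W] (H : SimpleGraph W) :
    dn H = ∑ i, ∑ j, (if H.Adj i j then 1 else 0) := by
  rw [dn_eq_sum]
  refine Finset.sum_congr rfl fun v _ => ?_
  rw [← Finset.card_filter, ← Set.ncard_coe_finset]
  congr 1
  ext w
  simp [nb]

theorem dn_HH (K : Mtch G M) (tf : ∀ x y z, G.Adj x y → G.Adj y z → G.Adj x z → False) :
    dn G ≤ dn (HH G M) + PM G M + 2 * M.card := by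
  rw [dn_sum, dn_sum, ← sum_pp, ← sum_qq (M := M), sum_BB K]
  have h1 : ∑ i : II M, ∑ v ∈ BB M i, ∑ j, (if G.Adj v j then 1 else 0) =
      ∑ i : II M, ∑ j : II M, ∑ s ∈ BB M i, ∑ t ∈ BB M j, (if G.Adj s t then 1 else 0) := by
    refine Finset.sum_congr rfl fun i _ => ?_
    rw [Finset.sum_comm (s := Finset.univ)]
    refine Finset.sum_congr rfl fun s _ => ?_
    rw [sum_BB K]
  rw [h1, ← Finset.sum_add_distrib, ← Finset.sum_add_distrib]
  refine Finset.sum_le_sum fun i _ => ?_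
  rw [← Finset.sum_add_distrib, ← Finset.sum_add_distrib]
  exact Finset.sum_le_sum fun j _ => dart_le K tf i j

theorem HH_minor (K : Mtch G M) : IsMinor (HH G M) G := by
  refine ⟨fun i => ↑(BB M i), ?_, ?_, ?_⟩
  · intro i
    apply connected_of_sc
    rcases i with e | u
    · change SC G (↑({e.1.1, e.1.2} : Finset V) : Set V)
      rw [Finset.coe_insert, Finset.coe_singleton]
      exact SC.pair (K.adj _ e.2)
    · change SC G (↑({u.1} : Finset V) : Set V)
      rw [Finset.coe_singleton]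
      exact SC.singleton G _
  · intro i j hij
    rw [Finset.disjoint_coe, Finset.disjoint_left]
    intro s hs ht
    rcases i with e | u <;> rcases j with f | v
    · have hne : e.1 ≠ f.1 := fun h => hij (congrArg Sum.inl (Subtype.ext h))
      obtain ⟨k1, k2, k3, k4⟩ := K.dis _ e.2 _ f.2 hne
      rcases Finset.mem_insert.1 hs with h | h <;> rcases Finset.mem_insert.1 ht with h' | h'
      · exact k1 (h.symm.trans h')
      · exact k2 (h.symm.trans (Finset.mem_singleton.1 h'))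
      · exact k3 ((Finset.mem_singleton.1 h).symm.trans h')
      · exact k4 ((Finset.mem_singleton.1 h).symm.trans (Finset.mem_singleton.1 h'))
    · have h1 := mem_Un.1 v.2
      have h2 : s = v.1 := Finset.mem_singleton.1 ht
      rw [← h2] at h1
      rcases Finset.mem_insert.1 hs with h | h
      · exact h1 ⟨e.1, e.2, Or.inl h⟩
      · exact h1 ⟨e.1, e.2, Or.inr (Finset.mem_singleton.1 h)⟩
    · have h1 := mem_Un.1 u.2
      have h2 : s = u.1 := Finset.mem_singleton.1 hs
      rw [← h2] at h1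
      rcases Finset.mem_insert.1 ht with h | h
      · exact h1 ⟨f.1, f.2, Or.inl h⟩
      · exact h1 ⟨f.1, f.2, Or.inr (Finset.mem_singleton.1 h)⟩
    · have h2 : s = u.1 := Finset.mem_singleton.1 hs
      have h3 : s = v.1 := Finset.mem_singleton.1 ht
      exact hij (congrArg Sum.inr (Subtype.ext (h2.symm.trans h3)))
  · rintro i j ⟨-, s, hs, t, ht, h⟩
    exact ⟨s, hs, t, ht, h⟩

/-- **Main theorem.** A triangle-free graph with all degrees at least seven has a minor which is
complete on six vertices. -/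
theorem main_minor [Nonempty V] (G : SimpleGraph V)
    (tf : ∀ x y z, G.Adj x y → G.Adj y z → G.Adj x z → False)
    (h7 : ∀ v, 7 ≤ (nb G v).ncard) : IsMinor (⊤ : SimpleGraph (Fin 6)) G := by
  by_contra nk
  obtain ⟨M, K⟩ := exists_opt G
  have h1 := big_sum K
  have h2 : ∑ e ∈ M, (RR G M e.1 e.2 + ((UU G M e.1 e.2).ncard + (TT G M e.1 e.2).ncard)) +
      (210 * M.card + 21 * PM G M) ≤ 21 * ∑ e ∈ M, ((nb G e.1).ncard + (nb G e.2).ncard) := by
    have e1 : 210 * M.card + 21 * PM G M = ∑ e ∈ M, (210 + 21 * cM G M e) := by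
      rw [Finset.sum_add_distrib, Finset.sum_const, smul_eq_mul, PM, Finset.mul_sum, mul_comm]
    rw [e1, ← Finset.sum_add_distrib, Finset.mul_sum]
    refine Finset.sum_le_sum fun e he => ?_
    have := edge_ineq K tf nk h7 (a := e.1) (b := e.2) he
    have e2 : (e.1, e.2) = e := rfl
    rw [e2] at this
    omega
  have h3 := sum_split K.mt (fun v => (nb G v).ncard)
  rw [← dn_eq_sum] at h3
  have h4 : (Un M).card * 7 ≤ ∑ u ∈ Un M, (nb G u).ncard := by
    rw [← smul_eq_mul]
    exact Finset.card_nsmul_le_sum _ _ _ fun u _ => h7 u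
  have h5 := dn_HH K.mt tf
  have h6 := sum_split K.mt (fun _ => 1)
  simp only [Finset.sum_const, Finset.card_univ, smul_eq_mul, mul_one] at h6
  have h7' : 8 ≤ Fintype.card V := by
    obtain ⟨v⟩ := ‹Nonempty V›
    have h8 := nb_lt G v
    have h9 := h7 v
    rw [Nat.card_eq_fintype_card] at h8
    omega
  refine nk ((mader6 _ (HH G M) ?_ ?_).trans (HH_minor K.mt))
  · rw [card_II]; omega
  · rw [card_II]; omega

end Pool.Agent.K6
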