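import Pool.Agent.K6.Local
import Pool.Agent.K6.Four

set_option autoImplicit false
set_option linter.unusedSectionVars false

/-!
# The inequality for one edge of the matching
-/

namespace Pool.Agent.K6

open SimpleGraph Pool.Agent.TreewidthMinor

open scoped Classical

variable {V : Type}

/-- three against four, as sets -/
theorem S34 {G : SimpleGraph V} {a b : V} (hab : G.Adj a b)
    (nk : ¬ IsMinor (⊤ : SimpleGraph (Fin 6)) G)
    (tf : ∀ x y z, G.Adj x y → G.Adj y z → G.Adj x z → False)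
    {A B : Finset V} (hA : ∀ u ∈ A, u ∈ NA G a b) (hB : ∀ v ∈ B, v ∈ NA G b a)
    (cA : A.card = 3) (cB : B.card = 4) (hAB : ∀ u ∈ A, ∀ v ∈ B, G.Adj u v) {y : V}
    (hy : y ∈ NA G a b) (hyA : y ∉ A) {v w : V} (hv : v ∈ B) (hw : w ∈ B) (hvw : v ≠ w)
    (hyv : G.Adj y v) (hyw : G.Adj y w) : False := by
  obtain ⟨r, hr, hrB, r0, r1⟩ := enum4 cB hv hw hvw 0 1 (by decide)
  obtain ⟨p, q, s, hpq, hps, hqs, hA3⟩ := Finset.card_eq_three.1 cA
  have hp : p ∈ A := by rw [hA3]; simp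
  have hq : q ∈ A := by rw [hA3]; simp
  have hs : s ∈ A := by rw [hA3]; simp
  obtain ⟨l, hl⟩ : ∃ l : Fin 3 → V, l = ![p, q, s] := ⟨_, rfl⟩
  have e0 : l 0 = p := by rw [hl]; rfl
  have e1 : l 1 = q := by rw [hl]; rfl
  have e2 : l 2 = s := by rw [hl]; rfl
  have hinj : Function.Injective l := by
    intro i j hij
    fin_cases i <;> fin_cases j
    · rfl
    · exact absurd (e0.symm.trans (hij.trans e1)) hpq
    · exact absurd (e0.symm.trans (hij.trans e2)) hps
    · exact absurd (e1.symm.trans (hij.trans e0)) (Ne.symm hpq)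
    · rfl
    · exact absurd (e1.symm.trans (hij.trans e2)) hqs
    · exact absurd (e2.symm.trans (hij.trans e0)) (Ne.symm hps)
    · exact absurd (e2.symm.trans (hij.trans e1)) (Ne.symm hqs)
    · rfl
  have hlA : ∀ i, l i ∈ A := by
    intro i
    fin_cases i
    · exact e0 ▸ hp
    · exact e1 ▸ hq
    · exact e2 ▸ hs
  exact pat34 hab nk tf hinj hr (fun i => hA _ (hlA i)) (fun i => hB _ (hrB i)) hy
    (fun i h => hyA (h ▸ hlA i)) (fun i j => hAB _ (hlA i) _ (hrB j)) (r0 ▸ hyv) (r1 ▸ hyw)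

/-- many large values -/
theorem count_large (B : Finset V) (f : V → ℕ) (k l : ℕ) (hl : l = k + 1)
    (h : ∀ v ∈ B, f v ≤ l) :
    ∑ v ∈ B, f v ≤ k * B.card + (B.filter (fun v => l ≤ f v)).card := by
  rw [Finset.card_filter, mul_comm, ← smul_eq_mul, ← Finset.sum_const, ← Finset.sum_add_distrib]
  refine Finset.sum_le_sum fun v hv => ?_
  have := h v hv
  split_ifs <;> omega

/-- the crude bound for the two sums -/
theorem crude (A B : Finset V) (s t : V → ℕ) (N k : ℕ) (hA : A.card ≤ N) (hB : B.card ≤ N)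
    (hs : ∀ u ∈ A, s u ≤ k) (ht : ∀ v ∈ B, t v ≤ k)
    (hst : ∀ u ∈ A, ∀ v ∈ B, s u + t v ≤ k + 1) :
    ∑ u ∈ A, s u + ∑ v ∈ B, t v ≤ (k + 1) * N := by
  rcases A.eq_empty_or_nonempty with rfl | hne
  · have h1 : ∑ v ∈ B, t v ≤ B.card • k := Finset.sum_le_card_nsmul _ _ _ ht
    rw [smul_eq_mul] at h1
    rw [Finset.sum_empty, zero_add]
    nlinarith
  · obtain ⟨u0, hu0, hmax⟩ := Finset.exists_max_image A s hne
    have h1 : ∑ u ∈ A, s u ≤ A.card • s u0 := Finset.sum_le_card_nsmul _ _ _ hmax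
    have h2 : ∑ v ∈ B, t v ≤ B.card • (k + 1 - s u0) := by
      refine Finset.sum_le_card_nsmul _ _ _ fun v hv => ?_
      have := hst u0 hu0 v hv
      omega
    rw [smul_eq_mul] at h1 h2
    have h3 := hs u0 hu0
    have h4 : A.card * s u0 ≤ N * s u0 := Nat.mul_le_mul_right _ hA
    have h5 : B.card * (k + 1 - s u0) ≤ N * (k + 1 - s u0) := Nat.mul_le_mul_right _ hB
    have h6 : N * s u0 + N * (k + 1 - s u0) = (k + 1) * N := by
      rw [← mul_add, mul_comm]
      congr 1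
      omega
    omega

section

variable [Fintype V] {G : SimpleGraph V} {M : Finset (V × V)}

/-- the uncovered neighbours of `a` -/
noncomputable def AA (G : SimpleGraph V) (M : Finset (V × V)) (a : V) : Finset V :=
  Finset.univ.filter (fun u => ¬ Sat M u ∧ G.Adj u a)

theorem mem_AA {a u : V} : u ∈ AA G M a ↔ ¬ Sat M u ∧ G.Adj u a := by
  rw [AA, Finset.mem_filter]
  exact ⟨fun h => h.2, fun h => ⟨Finset.mem_univ _, h⟩⟩

/-- the deficit of the edge `u a` -/
noncomputable def ss (G : SimpleGraph V) (M : Finset (V × V)) (a u : V) : ℕ := 3 - cM G M (u, a)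

/-- the sum of the deficits around `(a, b)` -/
noncomputable def RR (G : SimpleGraph V) (M : Finset (V × V)) (a b : V) : ℕ :=
  ∑ u ∈ AA G M a, ss G M a u + ∑ v ∈ AA G M b, ss G M b v

variable {a b : V}

theorem AA_NA (K : Loc G M a b) {u : V} (hu : u ∈ AA G M a) : u ∈ NA G a b :=
  ⟨(mem_AA.1 hu).2.symm, fun h => (mem_AA.1 hu).1 (h ▸ ⟨_, K.ab, Or.inr rfl⟩)⟩

theorem AA_NA' (K : Loc G M a b) {u : V} (hu : u ∈ AA G M b) : u ∈ NA G b a :=
  ⟨(mem_AA.1 hu).2.symm, fun h => (mem_AA.1 hu).1 (h ▸ ⟨_, K.ab, Or.inl rfl⟩)⟩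

theorem card_AA (K : Loc G M a b) :
    (AA G M a).card + 1 + (Xs G M a b).ncard ≤ (nb G a).ncard := by
  have h1 := K.card_NA
  have h3' : Xs G M a b ⊆ NA G a b := fun x hx => ⟨hx.2.1, hx.2.2.1⟩
  have h4' := Set.ncard_sdiff_add_ncard_of_subset h3' (Set.toFinite _)
  have h5 : (↑(AA G M a) : Set V) ⊆ NA G a b \ Xs G M a b := fun u hu =>
    ⟨AA_NA K hu, fun h => (mem_AA.1 hu).1 h.1⟩
  have h6 := Set.ncard_le_ncard h5 (Set.toFinite _)
  rw [Set.ncard_coe_finset] at h6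
  omega

theorem card_AA' (K : Loc G M a b) :
    (AA G M b).card + 1 + (Xs G M a b).ncard ≤ (nb G b).ncard := by
  have h1 := K.card_NB
  have h2 := K.card_swap
  have h3' : Xs G M b a ⊆ NA G b a := fun x hx => ⟨hx.2.1, hx.2.2.1⟩
  have h4' := Set.ncard_sdiff_add_ncard_of_subset h3' (Set.toFinite _)
  have h5 : (↑(AA G M b) : Set V) ⊆ NA G b a \ Xs G M b a := fun u hu =>
    ⟨AA_NA' K hu, fun h => (mem_AA.1 hu).1 h.1⟩
  have h6 := Set.ncard_le_ncard h5 (Set.toFinite _)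
  rw [Set.ncard_coe_finset] at h6
  omega

theorem UU_eq (K : Loc G M a b) :
    UU G M a b = ↑((AA G M a ×ˢ AA G M b).filter (fun x => G.Adj x.1 x.2)) := by
  ext x
  rw [Finset.mem_coe, Finset.mem_filter, Finset.mem_product]
  constructor
  · rintro ⟨h1, h2, h3, h4, h5⟩
    exact ⟨⟨mem_AA.2 ⟨h4, h1.1.symm⟩, mem_AA.2 ⟨h5, h2.1.symm⟩⟩, h3⟩
  · rintro ⟨⟨h1, h2⟩, h3⟩
    exact ⟨AA_NA K h1, AA_NA' K h2, h3, (mem_AA.1 h1).1, (mem_AA.1 h2).1⟩

theorem UU_missing (K : Loc G M a b) :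
    (UU G M a b).ncard + ((AA G M a ×ˢ AA G M b).filter (fun x => ¬ G.Adj x.1 x.2)).card =
      (AA G M a).card * (AA G M b).card := by
  rw [UU_eq K, Set.ncard_coe_finset, ← Finset.card_product]
  exact Finset.card_filter_add_card_filter_not _

theorem UU_le (K : Loc G M a b) :
    (UU G M a b).ncard ≤ (AA G M a).card * (AA G M b).card := by
  have := UU_missing K
  omega

/-- few missing pairs -/
theorem UU_44 (K : Loc G M a b) (hA : (AA G M a).card ≤ 4) (hB : (AA G M b).card ≤ 4)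
    (h : 14 ≤ (UU G M a b).ncard) : False := by
  have h1 := UU_missing K
  have hA4 : (AA G M a).card = 4 := by
    by_contra hne
    have h2 : (AA G M a).card ≤ 3 := by omega
    have h3 : (AA G M a).card * (AA G M b).card ≤ 3 * 4 := Nat.mul_le_mul h2 hB
    omega
  have hB4 : (AA G M b).card = 4 := by
    by_contra hne
    have h2 : (AA G M b).card ≤ 3 := by omega
    have h3 : (AA G M a).card * (AA G M b).card ≤ 4 * 3 := Nat.mul_le_mul hA h2
    omega
  rw [hA4, hB4] at h1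
  exact Q44' K.adj K.nk K.tf (fun u hu => AA_NA K hu) (fun v hv => AA_NA' K hv) hA4 hB4 (by omega)

/-- five against five with at most one missing pair -/
theorem UU_55 (K : Loc G M a b) (hA : (AA G M a).card ≤ 5) (hB : (AA G M b).card ≤ 5)
    (h : 24 ≤ (UU G M a b).ncard) : False := by
  have h1 := UU_missing K
  have hA4 : (AA G M a).card = 5 := by
    by_contra hne
    have h2 : (AA G M a).card ≤ 4 := by omega
    have h3 : (AA G M a).card * (AA G M b).card ≤ 4 * 5 := Nat.mul_le_mul h2 hB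
    omega
  have hB4 : (AA G M b).card = 5 := by
    by_contra hne
    have h2 : (AA G M b).card ≤ 4 := by omega
    have h3 : (AA G M a).card * (AA G M b).card ≤ 5 * 4 := Nat.mul_le_mul hA h2
    omega
  rw [hA4, hB4] at h1
  obtain ⟨A', hA', cA'⟩ := Finset.exists_subset_card_eq (show 4 ≤ (AA G M a).card by omega)
  obtain ⟨B', hB', cB'⟩ := Finset.exists_subset_card_eq (show 4 ≤ (AA G M b).card by omega)
  refine Q44' K.adj K.nk K.tf (fun u hu => AA_NA K (hA' hu)) (fun v hv => AA_NA' K (hB' hv)) cA' cB'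
    ?_
  have h2 : ((A' ×ˢ B').filter (fun x => ¬ G.Adj x.1 x.2)).card ≤
      ((AA G M a ×ˢ AA G M b).filter (fun x => ¬ G.Adj x.1 x.2)).card :=
    Finset.card_le_card (Finset.filter_subset_filter _ (Finset.product_subset_product hA' hB'))
  omega

/-- the facts on the deficits -/
theorem ss_le (K : Opt G M) (hab : (a, b) ∈ M) {u : V} (hu : u ∈ AA G M a) :
    ss G M a u + cM G M (a, b) ≤ 3 := by
  have h1 := K.rot1 hab (mem_AA.1 hu).1 (mem_AA.1 hu).2
  have h2 := K.le_two hab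
  unfold ss
  omega

theorem ss_le' (K : Opt G M) (hab : (a, b) ∈ M) {u : V} (hu : u ∈ AA G M b) :
    ss G M b u + cM G M (a, b) ≤ 3 := by
  have h1 := K.rot2 hab (mem_AA.1 hu).1 (mem_AA.1 hu).2
  have h2 := K.le_two hab
  unfold ss
  omega

theorem ss_add (K : Opt G M) (tf : ∀ x y z, G.Adj x y → G.Adj y z → G.Adj x z → False)
    (hab : (a, b) ∈ M) {u v : V} (hu : u ∈ AA G M a) (hv : v ∈ AA G M b) :
    ss G M a u + ss G M b v + cM G M (a, b) ≤ 3 + if G.Adj u v then 1 else 0 := by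
  have h1 := K.rot1 hab (mem_AA.1 hu).1 (mem_AA.1 hu).2
  have h2 := K.rot2 hab (mem_AA.1 hv).1 (mem_AA.1 hv).2
  have h3 := K.le_two hab
  have h4 := K.aug tf hab (mem_AA.1 hu).1 (mem_AA.1 hv).1 (mem_AA.1 hu).2 (mem_AA.1 hv).2
  unfold ss
  split_ifs at h4 ⊢ <;> omega

theorem ss_adj (K : Opt G M) (tf : ∀ x y z, G.Adj x y → G.Adj y z → G.Adj x z → False)
    (hab : (a, b) ∈ M) {u v : V} (hu : u ∈ AA G M a) (hv : v ∈ AA G M b)
    (h : 4 ≤ ss G M a u + ss G M b v + cM G M (a, b)) : G.Adj u v := by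
  have h1 := ss_add K tf hab hu hv
  by_contra hn
  rw [if_neg hn] at h1
  omega

/-- two large sets of large deficits -/
theorem ss_44 (K : Opt G M) (L : Loc G M a b) (k l : ℕ) (hkl : 4 ≤ k + l + cM G M (a, b))
    (h1 : 4 ≤ ((AA G M a).filter (fun u => k ≤ ss G M a u)).card)
    (h2 : 4 ≤ ((AA G M b).filter (fun v => l ≤ ss G M b v)).card) : False := by
  refine noK44 L.adj L.nk L.tf (A := (AA G M a).filter (fun u => k ≤ ss G M a u))
    (B := (AA G M b).filter (fun v => l ≤ ss G M b v)) ?_ ?_ h1 h2 ?_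
  · intro u hu
    exact AA_NA L (Finset.mem_filter.1 hu).1
  · intro v hv
    exact AA_NA' L (Finset.mem_filter.1 hv).1
  · intro u hu v hv
    rw [Finset.mem_filter] at hu hv
    exact ss_adj K L.tf L.ab hu.1 hv.1 (by omega)

/-- the case of degree sum fourteen and one parallel edge -/
theorem R13 (K : Opt G M) (L : Loc G M a b) (hc : cM G M (a, b) = 1)
    (hA : (AA G M a).card ≤ 5) (hB : (AA G M b).card ≤ 5) : RR G M a b ≤ 13 := by
  by_contra hR
  push Not at hR
  unfold RR at hR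
  have ha : ∀ u ∈ AA G M a, ss G M a u ≤ 2 := fun u hu => by
    have := ss_le K L.ab hu; omega
  have hb : ∀ v ∈ AA G M b, ss G M b v ≤ 2 := fun u hu => by
    have := ss_le' K L.ab hu; omega
  have cA := count_large (AA G M a) (ss G M a) 1 2 rfl ha
  have cB := count_large (AA G M b) (ss G M b) 1 2 rfl hb
  have sA : ∑ u ∈ AA G M a, ss G M a u ≤ (AA G M a).card • 2 :=
    Finset.sum_le_card_nsmul _ _ _ ha
  have sB : ∑ v ∈ AA G M b, ss G M b v ≤ (AA G M b).card • 2 :=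
    Finset.sum_le_card_nsmul _ _ _ hb
  rw [smul_eq_mul] at sA sB
  by_cases h2 : ∃ u ∈ AA G M a, ss G M a u = 2
  · obtain ⟨u, hu, hu2⟩ := h2
    have hb' : ∀ v ∈ AA G M b, ss G M b v ≤ 1 := fun v hv => by
      have h1 := ss_add K L.tf L.ab hu hv
      rw [hu2, hc] at h1
      split_ifs at h1 <;> omega
    have cB' := count_large (AA G M b) (ss G M b) 0 1 rfl hb'
    have sB' : ∑ v ∈ AA G M b, ss G M b v ≤ (AA G M b).card • 1 :=
      Finset.sum_le_card_nsmul _ _ _ hb'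
    rw [smul_eq_mul] at sB'
    exact ss_44 K L 2 1 (by omega) (by omega) (by omega)
  · have ha' : ∀ u ∈ AA G M a, ss G M a u ≤ 1 := fun u hu => by
      have h1 := ha u hu
      have h3 : ss G M a u ≠ 2 := fun h => h2 ⟨u, hu, h⟩
      omega
    have cA' := count_large (AA G M a) (ss G M a) 0 1 rfl ha'
    have sA' : ∑ u ∈ AA G M a, ss G M a u ≤ (AA G M a).card • 1 :=
      Finset.sum_le_card_nsmul _ _ _ ha'
    rw [smul_eq_mul] at sA'
    exact ss_44 K L 1 2 (by omega) (by omega) (by omega)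

/-- pigeonhole: four vertices and two colours -/
theorem pigeon {B : Finset V} (hB : B.card = 4) {X : Set V} (hX : X.ncard = 2) (P : V → V → Prop)
    (h : ∀ v ∈ B, ∃ x ∈ X, P x v) : ∃ x ∈ X, ∃ v ∈ B, ∃ w ∈ B, v ≠ w ∧ P x v ∧ P x w := by
  choose! f hf hP using h
  have hfin : X.Finite := Set.toFinite _
  have h1 : ∀ v ∈ B, f v ∈ hfin.toFinset := fun v hv => hfin.mem_toFinset.2 (hf v hv)
  have h2 : hfin.toFinset.card < B.card := by
    rw [← Set.ncard_eq_toFinset_card X hfin, hX, hB]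
    norm_num
  obtain ⟨v, hv, w, hw, hvw, he⟩ := Finset.exists_ne_map_eq_of_card_lt_of_maps_to h2 h1
  exact ⟨f v, hf v hv, v, hv, w, hw, hvw, hP v hv, he ▸ hP w hw⟩

/-- the case of degree sum fourteen and two parallel edges, seven deficits -/
theorem R7 (K : Opt G M) (L : Loc G M a b) (hc : cM G M (a, b) = 2)
    (hA : (AA G M a).card ≤ 4) (hB : (AA G M b).card ≤ 4) :
    RR G M a b ≤ 7 ∧ (RR G M a b = 7 →
      (∀ u ∈ AA G M a, ∀ v ∈ AA G M b, G.Adj u v →
        ∃ x ∈ Xs G M a b, G.Adj u (mu M x) ∧ G.Adj v x) → False) := by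
  have ha : ∀ u ∈ AA G M a, ss G M a u ≤ 1 := fun u hu => by
    have := ss_le K L.ab hu; omega
  have hb : ∀ v ∈ AA G M b, ss G M b v ≤ 1 := fun u hu => by
    have := ss_le' K L.ab hu; omega
  have cA := count_large (AA G M a) (ss G M a) 0 1 rfl ha
  have cB := count_large (AA G M b) (ss G M b) 0 1 rfl hb
  have hfA := Finset.card_filter_le (AA G M a) (fun u => 1 ≤ ss G M a u)
  have hfB := Finset.card_filter_le (AA G M b) (fun u => 1 ≤ ss G M b u)
  have hX : (Xs G M a b).ncard = 2 := by rw [L.mt.card_Xs L.tf, hc]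
  have n44 : ¬ (4 ≤ ((AA G M a).filter (fun u => 1 ≤ ss G M a u)).card ∧
      4 ≤ ((AA G M b).filter (fun v => 1 ≤ ss G M b v)).card) :=
    fun h => ss_44 K L 1 1 (by omega) h.1 h.2
  unfold RR
  refine ⟨by omega, fun hR hxs => ?_⟩
  have hadj : ∀ u ∈ (AA G M a).filter (fun u => 1 ≤ ss G M a u),
      ∀ v ∈ (AA G M b).filter (fun v => 1 ≤ ss G M b v), G.Adj u v := by
    intro u hu v hv
    rw [Finset.mem_filter] at hu hv
    exact ss_adj K L.tf L.ab hu.1 hv.1 (by omega)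
  have hcase : (((AA G M a).filter (fun u => 1 ≤ ss G M a u)).card = 3 ∧
      ((AA G M b).filter (fun v => 1 ≤ ss G M b v)).card = 4) ∨
      (((AA G M a).filter (fun u => 1 ≤ ss G M a u)).card = 4 ∧
      ((AA G M b).filter (fun v => 1 ≤ ss G M b v)).card = 3) := by omega
  generalize hA1 : (AA G M a).filter (fun u => 1 ≤ ss G M a u) = A1 at hadj hcase
  generalize hB1 : (AA G M b).filter (fun v => 1 ≤ ss G M b v) = B1 at hadj hcase
  have mA : ∀ {u}, u ∈ A1 → u ∈ AA G M a := by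
    intro u hu; rw [← hA1] at hu; exact (Finset.mem_filter.1 hu).1
  have mB : ∀ {u}, u ∈ B1 → u ∈ AA G M b := by
    intro u hu; rw [← hB1] at hu; exact (Finset.mem_filter.1 hu).1
  rcases hcase with ⟨h3, h4⟩ | ⟨h4, h3⟩
  · obtain ⟨u0, hu0⟩ := Finset.card_pos.1 (show 0 < A1.card by omega)
    obtain ⟨x, hx, v, hv, w, hw, hvw, h5, h6⟩ := pigeon h4 hX (fun x v => G.Adj v x) (by
      intro v hv
      obtain ⟨x, hx, -, h⟩ := hxs u0 (mA hu0) v (mB hv) (hadj u0 hu0 v hv)
      exact ⟨x, hx, h⟩)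
    exact S34 L.adj L.nk L.tf (fun u hu => AA_NA L (mA hu)) (fun v hv => AA_NA' L (mB hv)) h3 h4
      hadj (y := x) ⟨hx.2.1, hx.2.2.1⟩ (fun h => (mem_AA.1 (mA h)).1 hx.1) hv hw hvw h5.symm h6.symm
  · obtain ⟨v0, hv0⟩ := Finset.card_pos.1 (show 0 < B1.card by omega)
    obtain ⟨x, hx, v, hv, w, hw, hvw, h5, h6⟩ := pigeon h4 hX (fun x u => G.Adj u (mu M x)) (by
      intro u hu
      obtain ⟨x, hx, h, -⟩ := hxs u (mA hu) v0 (mB hv0) (hadj u hu v0 hv0)
      exact ⟨x, hx, h⟩)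
    have hx' := L.swap_mem hx
    exact S34 L.adj.symm L.nk L.tf (fun u hu => AA_NA' L (mB hu)) (fun v hv => AA_NA L (mA hv))
      h3 h4 (fun u hu v hv => (hadj v hv u hu).symm) (y := mu M x) ⟨hx'.2.1, hx'.2.2.1⟩
      (fun h => (mem_AA.1 (mB h)).1 hx'.1) hv hw hvw h5.symm h6.symm

/-- the case where both elements of `Xs` are seen by all the pairs -/
theorem T24 (L : Loc G M a b) (hX : (Xs G M a b).ncard = 2)
    (hA : (AA G M a).card ≤ 4) (hB : (AA G M b).card ≤ 4) (hU : 12 ≤ (UU G M a b).ncard)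
    (hxs : ∀ u v, (u, v) ∈ UU G M a b → ∀ x ∈ Xs G M a b, G.Adj u (mu M x) ∧ G.Adj v x) :
    26 ≤ (TT G M a b).ncard := by
  obtain ⟨A1, hA1⟩ : ∃ A1, A1 = (AA G M a).filter (fun u => ∃ v, (u, v) ∈ UU G M a b) := ⟨_, rfl⟩
  obtain ⟨B1, hB1⟩ : ∃ B1, B1 = (AA G M b).filter (fun v => ∃ u, (u, v) ∈ UU G M a b) := ⟨_, rfl⟩
  have c1 : A1.card ≤ 4 := by rw [hA1]; exact (Finset.card_filter_le _ _).trans hA
  have c2 : B1.card ≤ 4 := by rw [hB1]; exact (Finset.card_filter_le _ _).trans hB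
  have hsub : UU G M a b ⊆ ↑(A1 ×ˢ B1) := by
    intro x hx
    rw [Finset.mem_coe, Finset.mem_product, hA1, hB1, Finset.mem_filter, Finset.mem_filter]
    have h1 := hx
    rw [UU_eq L, Finset.mem_coe, Finset.mem_filter, Finset.mem_product] at h1
    exact ⟨⟨h1.1.1, x.2, hx⟩, h1.1.2, x.1, hx⟩
  have c3 := Set.ncard_le_ncard hsub (Set.toFinite _)
  rw [Set.ncard_coe_finset, Finset.card_product] at c3
  have c4 : 7 ≤ A1.card + B1.card := by
    by_contra hlt
    push Not at hlt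
    have : A1.card * B1.card < 12 := by
      interval_cases A1.card <;> interval_cases B1.card <;> omega
    omega
  obtain ⟨XF, hXF⟩ : ∃ XF, XF = (Set.toFinite (Xs G M a b)).toFinset := ⟨_, rfl⟩
  have mX : ∀ {x}, x ∈ XF ↔ x ∈ Xs G M a b := by
    intro x; rw [hXF]; exact (Set.toFinite _).mem_toFinset
  have cX : XF.card = 2 := by rw [hXF, ← Set.ncard_eq_toFinset_card, hX]
  obtain ⟨P, hP⟩ : ∃ P : Finset (V × V), P = (A1 ×ˢ XF).image (fun x => (x.1, mu M x.2)) := ⟨_, rfl⟩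
  obtain ⟨Q, hQ⟩ : ∃ Q : Finset (V × V), Q = XF ×ˢ B1 := ⟨_, rfl⟩
  have cP : P.card = A1.card * 2 := by
    rw [hP, Finset.card_image_of_injOn, Finset.card_product, cX]
    intro x hx y hy hxy
    rw [Finset.mem_coe, Finset.mem_product] at hx hy
    have h1 : x.1 = y.1 := (Prod.ext_iff.1 hxy).1
    have h2 : mu M x.2 = mu M y.2 := (Prod.ext_iff.1 hxy).2
    exact Prod.ext h1 (L.mu_inj (mX.1 hx.2).1 (mX.1 hy.2).1 h2)
  have cQ : Q.card = 2 * B1.card := by rw [hQ, Finset.card_product, cX]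
  have aA : ∀ {u}, u ∈ A1 → u ∈ AA G M a ∧ ∀ x ∈ Xs G M a b, G.Adj u (mu M x) := by
    intro u hu
    rw [hA1, Finset.mem_filter] at hu
    obtain ⟨h1, v, hv⟩ := hu
    exact ⟨h1, fun x hx => (hxs u v hv x hx).1⟩
  have aB : ∀ {v}, v ∈ B1 → v ∈ AA G M b ∧ ∀ x ∈ Xs G M a b, G.Adj v x := by
    intro v hv
    rw [hB1, Finset.mem_filter] at hv
    obtain ⟨h1, u, hu⟩ := hv
    exact ⟨h1, fun x hx => (hxs u v hu x hx).2⟩
  obtain ⟨UF, hUF⟩ : ∃ UF, UF = (Set.toFinite (UU G M a b)).toFinset := ⟨_, rfl⟩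
  have mU : ∀ {x}, x ∈ UF ↔ x ∈ UU G M a b := by
    intro x; rw [hUF]; exact (Set.toFinite _).mem_toFinset
  have cU : UF.card = (UU G M a b).ncard := by rw [hUF, ← Set.ncard_eq_toFinset_card]
  have sP : ∀ {x}, x ∈ P → ¬ Sat M x.1 ∧ Sat M x.2 ∧ x ∈ TT G M a b := by
    intro x hx
    rw [hP, Finset.mem_image] at hx
    obtain ⟨y, hy, rfl⟩ := hx
    rw [Finset.mem_product] at hy
    have h1 := aA hy.1
    have h2 := L.swap_mem (mX.1 hy.2)
    exact ⟨(mem_AA.1 h1.1).1, h2.1, AA_NA L h1.1, ⟨h2.2.1, h2.2.2.1⟩, h1.2 _ (mX.1 hy.2),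
      Or.inl (mem_AA.1 h1.1).1⟩
  have sQ : ∀ {x}, x ∈ Q → Sat M x.1 ∧ ¬ Sat M x.2 ∧ x ∈ TT G M a b := by
    intro x hx
    rw [hQ, Finset.mem_product] at hx
    have h1 := aB hx.2
    have h2 := mX.1 hx.1
    exact ⟨h2.1, (mem_AA.1 h1.1).1, ⟨h2.2.1, h2.2.2.1⟩, AA_NA' L h1.1, (h1.2 _ h2).symm,
      Or.inr (mem_AA.1 h1.1).1⟩
  have d1 : Disjoint P Q := by
    rw [Finset.disjoint_left]
    exact fun x hx hx' => (sP hx).1 (sQ hx').1
  have d2 : Disjoint UF (P ∪ Q) := by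
    rw [Finset.disjoint_left]
    intro x hx hx'
    have h1 := mU.1 hx
    rcases Finset.mem_union.1 hx' with h | h
    · exact h1.2.2.2.2 (sP h).2.1
    · exact h1.2.2.2.1 (sQ h).1
  have hT : (↑(UF ∪ (P ∪ Q)) : Set (V × V)) ⊆ TT G M a b := by
    intro x hx
    rw [Finset.mem_coe, Finset.mem_union, Finset.mem_union] at hx
    rcases hx with h | h | h
    · have h1 := mU.1 h
      exact ⟨h1.1, h1.2.1, h1.2.2.1, Or.inl h1.2.2.2.1⟩
    · exact (sP h).2.2
    · exact (sQ h).2.2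
  have c5 := Set.ncard_le_ncard hT (Set.toFinite _)
  rw [Set.ncard_coe_finset, Finset.card_union_of_disjoint d2, Finset.card_union_of_disjoint d1] at c5
  omega

/-- the inequality for one edge -/
theorem edge_ineq (K : Opt G M) (tf : ∀ x y z, G.Adj x y → G.Adj y z → G.Adj x z → False)
    (nk : ¬ IsMinor (⊤ : SimpleGraph (Fin 6)) G) (h7 : ∀ v, 7 ≤ (nb G v).ncard)
    (hab : (a, b) ∈ M) :
    RR G M a b + ((UU G M a b).ncard + (TT G M a b).ncard) + 210 + 21 * cM G M (a, b) ≤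
      21 * ((nb G a).ncard + (nb G b).ncard) := by
  have L : Loc G M a b := ⟨K.mt, tf, nk, hab⟩
  have ha := h7 a
  have hb := h7 b
  have hX : (Xs G M a b).ncard = cM G M (a, b) := K.mt.card_Xs tf a b
  have hc2 : cM G M (a, b) ≤ 2 := K.le_two hab
  have cA := card_AA L
  have cB := card_AA' L
  have hW := L.card_WW
  have hT := L.two_T
  have hH := L.dn_H (by omega)
  have hU := L.UU_bound (by omega)
  have hR : RR G M a b ≤ (3 - cM G M (a, b) + 1) *
      ((nb G a).ncard + (nb G b).ncard - 8 - cM G M (a, b)) := by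
    refine crude _ _ _ _ _ _ (by omega) (by omega) ?_ ?_ ?_
    · intro u hu
      have := ss_le K hab hu
      omega
    · intro u hu
      have := ss_le' K hab hu
      omega
    · intro u hu v hv
      have := ss_add K tf hab hu hv
      split_ifs at this <;> omega
  generalize (nb G a).ncard = da at *
  generalize (nb G b).ncard = db at *
  have h012 : cM G M (a, b) = 0 ∨ cM G M (a, b) = 1 ∨ cM G M (a, b) = 2 := by omega
  rcases h012 with hc | hc | hc
  · rw [hc] at hR hX ⊢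
    omega
  · rw [hc] at hR hX
    by_cases h14 : da + db = 14
    · have h1 := R13 K L hc (by omega) (by omega)
      have h2 : (UU G M a b).ncard ≤ 23 := by
        by_contra hlt
        exact UU_55 L (by omega) (by omega) (by omega)
      omega
    · omega
  · rw [hc] at hR hX
    by_cases h14 : da + db = 14
    · have hA4 : (AA G M a).card ≤ 4 := by omega
      have hB4 : (AA G M b).card ≤ 4 := by omega
      obtain ⟨h1, h1'⟩ := R7 K L hc hA4 hB4
      have h2 : (UU G M a b).ncard ≤ 13 := by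
        by_contra hlt
        exact UU_44 L hA4 hB4 (by omega)
      by_contra hlt
      push Not at hlt
      have hT23 : 23 ≤ (TT G M a b).ncard := by omega
      have hW10 : (WW G M a b).ncard = 10 := by omega
      have htri : ∀ u v, (u, v) ∈ UU G M a b → (TT G M a b).ncard ≤
          22 + {x | x ∈ Xs G M a b ∧ G.Adj u (mu M x) ∧ G.Adj v x}.ncard :=
        fun u v huv => L.tri_bound huv hW10
      by_cases hT24 : 24 ≤ (TT G M a b).ncard
      · have h3 := T24 L hX hA4 hB4 (by omega) (by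
          intro u v huv x hx
          have h4 := htri u v huv
          have h5 : {x | x ∈ Xs G M a b ∧ G.Adj u (mu M x) ∧ G.Adj v x} ⊆ Xs G M a b :=
            fun x hx => hx.1
          have h6 : {x | x ∈ Xs G M a b ∧ G.Adj u (mu M x) ∧ G.Adj v x} = Xs G M a b :=
            Set.eq_of_subset_of_ncard_le h5 (by omega) (Set.toFinite _)
          rw [← h6] at hx
          exact hx.2)
        omega
      · refine h1' (by omega) ?_
        intro u hu v hv huv
        have h4 := htri u v ⟨AA_NA L hu, AA_NA' L hv, huv, (mem_AA.1 hu).1, (mem_AA.1 hv).1⟩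
        have h5 : {x | x ∈ Xs G M a b ∧ G.Adj u (mu M x) ∧ G.Adj v x}.Nonempty := by
          rw [← Set.ncard_pos]
          omega
        obtain ⟨x, hx⟩ := h5
        exact ⟨x, hx.1, hx.2⟩
    · omega

end

end Pool.Agent.K6
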