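import Pool.Agent.K6.Match

set_option autoImplicit false
set_option linter.unusedSectionVars false

/-!
# The neighbourhood of a contracted edge
-/

namespace Pool.Agent.K6

open SimpleGraph Pool.Agent.TreewidthMinor

open scoped Classical

variable {V : Type}

/-- the standing assumptions -/
structure Loc (G : SimpleGraph V) (M : Finset (V × V)) (a b : V) : Prop where
  mt : Mtch G M
  tf : ∀ x y z, G.Adj x y → G.Adj y z → G.Adj x z → False
  nk : ¬ IsMinor (⊤ : SimpleGraph (Fin 6)) G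
  ab : (a, b) ∈ M

/-- the neighbours of `a` except `b` -/
def NA (G : SimpleGraph V) (a b : V) : Set V := {w | G.Adj a w ∧ w ≠ b}

/-- the vertices of the contracted neighbourhood -/
def WW (G : SimpleGraph V) (M : Finset (V × V)) (a b : V) : Set V :=
  NA G a b ∪ (NA G b a \ Xs G M b a)

/-- the branch sets -/
def Bs (G : SimpleGraph V) (M : Finset (V × V)) (a b w : V) : Set V :=
  {s | s = w ∨ (w ∈ Xs G M a b ∧ s = mu M w)}

/-- the contracted neighbourhood -/
def H0 (G : SimpleGraph V) (M : Finset (V × V)) (a b : V) : SimpleGraph V where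
  Adj w w' := w ≠ w' ∧ ∃ s ∈ Bs G M a b w, ∃ t ∈ Bs G M a b w', G.Adj s t
  symm := ⟨fun _ _ h => ⟨h.1.symm, h.2.elim fun s hs => hs.2.elim fun t ht =>
    ⟨t, ht.1, s, hs.1, ht.2.symm⟩⟩⟩
  loopless := ⟨fun _ h => h.1 rfl⟩

/-- A minor with all branch sets inside the two neighbourhoods of an edge. -/
theorem no5 {G : SimpleGraph V} {a b : V} (hab : G.Adj a b)
    (nk : ¬ IsMinor (⊤ : SimpleGraph (Fin 6)) G) {W : Type} {H : SimpleGraph W}
    (B : W → Set V) (h1 : ∀ x, SC G (B x))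
    (h2 : ∀ x y, x ≠ y → Disjoint (B x) (B y))
    (h3 : ∀ x y, H.Adj x y → ∃ s ∈ B x, ∃ t ∈ B y, G.Adj s t)
    (h4 : ∀ x, ∀ s ∈ B x, s ∈ NA G a b ∨ s ∈ NA G b a) :
    ¬ IsMinor (⊤ : SimpleGraph (Fin 5)) H := by
  intro hm
  apply nk
  refine cone B h1 h2 h3 {a, b} (SC.pair hab) ?_ ?_ hm
  · intro x
    rw [Set.disjoint_left]
    intro s hs hs'
    rcases h4 x s hs with h | h
    · rcases hs' with hs' | hs'
      · rw [hs'] at h; exact G.irrefl h.1
      · exact h.2 hs'
    · rcases hs' with hs' | hs'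
      · exact h.2 hs'
      · rw [Set.mem_singleton_iff.1 hs'] at h; exact G.irrefl h.1
  · intro x
    obtain ⟨s, hs⟩ := (h1 x).1
    rcases h4 x s hs with h | h
    · exact ⟨s, hs, a, Or.inl rfl, h.1.symm⟩
    · exact ⟨s, hs, b, Or.inr rfl, h.1.symm⟩

section

variable [Finite V] {G : SimpleGraph V} {M : Finset (V × V)} {a b : V} (K : Loc G M a b)

include K

theorem Loc.adj : G.Adj a b := K.mt.adj _ K.ab

theorem Loc.swap_mem {x : V} (hx : x ∈ Xs G M a b) : mu M x ∈ Xs G M b a := by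
  obtain ⟨h1, h2, h3, h4, h5⟩ := hx
  have h6 := K.mt.mu_mu h1
  exact ⟨K.mt.mu_sat h1, h4, h5, by rw [h6]; exact h2, by rw [h6]; exact h3⟩

theorem Loc.swap_mem' {x : V} (hx : x ∈ Xs G M b a) : mu M x ∈ Xs G M a b := by
  obtain ⟨h1, h2, h3, h4, h5⟩ := hx
  have h6 := K.mt.mu_mu h1
  exact ⟨K.mt.mu_sat h1, h4, h5, by rw [h6]; exact h2, by rw [h6]; exact h3⟩

theorem Loc.mu_inj {x y : V} (hx : Sat M x) (hy : Sat M y) (h : mu M x = mu M y) : x = y := by
  rw [← K.mt.mu_mu hx, h, K.mt.mu_mu hy]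

theorem Loc.card_swap : (Xs G M b a).ncard = (Xs G M a b).ncard := by
  have h1 : Xs G M b a = mu M '' Xs G M a b := by
    ext x
    constructor
    · intro hx
      exact ⟨mu M x, K.swap_mem' hx, K.mt.mu_mu hx.1⟩
    · rintro ⟨y, hy, rfl⟩
      exact K.swap_mem hy
  rw [h1]
  exact Set.InjOn.ncard_image fun x hx y hy h => K.mu_inj hx.1 hy.1 h

theorem Loc.disj {x : V} (h1 : G.Adj a x) (h2 : G.Adj b x) : False :=
  K.tf a b x K.adj h2 h1

theorem Loc.card_NA : (NA G a b).ncard + 1 = (nb G a).ncard := by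
  have : NA G a b = nb G a \ {b} := by
    ext x
    exact ⟨fun h => ⟨h.1, h.2⟩, fun h => ⟨h.1, h.2⟩⟩
  rw [this]
  exact Set.ncard_sdiff_singleton_add_one (show b ∈ nb G a from K.adj) (Set.toFinite _)

theorem Loc.card_NB : (NA G b a).ncard + 1 = (nb G b).ncard := by
  have : NA G b a = nb G b \ {a} := by
    ext x
    exact ⟨fun h => ⟨h.1, h.2⟩, fun h => ⟨h.1, h.2⟩⟩
  rw [this]
  exact Set.ncard_sdiff_singleton_add_one (show a ∈ nb G b from K.adj.symm) (Set.toFinite _)

theorem Loc.card_WW : (WW G M a b).ncard + (Xs G M a b).ncard + 2 =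
    (nb G a).ncard + (nb G b).ncard := by
  have h1 : Disjoint (NA G a b) (NA G b a \ Xs G M b a) := by
    rw [Set.disjoint_left]
    intro x hx hx'
    exact K.disj hx.1 hx'.1.1
  have h2 := Set.ncard_union_eq h1 (Set.toFinite _) (Set.toFinite _)
  have h3 : Xs G M b a ⊆ NA G b a := fun x hx => ⟨hx.2.1, hx.2.2.1⟩
  have h4 := Set.ncard_sdiff_add_ncard_of_subset h3 (Set.toFinite _)
  have h5 := K.card_NA
  have h6 := K.card_NB
  have h7 := K.card_swap
  have h8 : (WW G M a b).ncard = (NA G a b ∪ (NA G b a \ Xs G M b a)).ncard := rfl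
  omega

/-- A minor with all branch sets inside the two neighbourhoods. -/
theorem Loc.no_five {W : Type} {H : SimpleGraph W} (B : W → Set V) (h1 : ∀ x, SC G (B x))
    (h2 : ∀ x y, x ≠ y → Disjoint (B x) (B y))
    (h3 : ∀ x y, H.Adj x y → ∃ s ∈ B x, ∃ t ∈ B y, G.Adj s t)
    (h4 : ∀ x, ∀ s ∈ B x, s ∈ NA G a b ∨ s ∈ NA G b a) :
    ¬ IsMinor (⊤ : SimpleGraph (Fin 5)) H := no5 K.adj K.nk B h1 h2 h3 h4

theorem Loc.no_five_H : ¬ IsMinor (⊤ : SimpleGraph (Fin 5)) ((H0 G M a b).induce (WW G M a b)) := by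
  refine K.no_five (fun w => Bs G M a b w.1) ?_ ?_ ?_ ?_
  · intro w
    by_cases hw : w.1 ∈ Xs G M a b
    · have : Bs G M a b w.1 = {w.1, mu M w.1} := by
        ext s
        constructor
        · rintro (h | h)
          · exact Or.inl h
          · exact Or.inr h.2
        · rintro (h | h)
          · exact Or.inl h
          · exact Or.inr ⟨hw, h⟩
      rw [this]
      exact SC.pair (K.mt.mu_adj hw.1)
    · have : Bs G M a b w.1 = {w.1} := by
        ext s
        constructor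
        · rintro (h | h)
          · exact h
          · exact absurd h.1 hw
        · intro h
          exact Or.inl h
      rw [this]
      exact SC.singleton G _
  · intro w w' hww
    have hne : w.1 ≠ w'.1 := fun h => hww (Subtype.ext h)
    have key : ∀ {w w' : V}, w ∈ WW G M a b → w' ∈ Xs G M a b → w ≠ mu M w' := by
      intro w w' hw hw' h
      have h1 := K.swap_mem hw'
      rw [← h] at h1
      rcases hw with hw | hw
      · exact K.disj hw.1 h1.2.1
      · exact hw.2 h1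
    rw [Set.disjoint_left]
    rintro s (h | h) (h' | h')
    · exact hne (h.symm.trans h')
    · exact key w.2 h'.1 (h.symm.trans h'.2)
    · exact key w'.2 h.1 (h'.symm.trans h.2)
    · exact hne (K.mu_inj h.1.1 h'.1.1 (h.2.symm.trans h'.2))
  · intro w w' h
    exact h.2
  · intro w s hs
    rcases hs with hs | hs
    · rw [hs]
      rcases w.2 with h | h
      · exact Or.inl h
      · exact Or.inr h.1
    · right
      have := K.swap_mem hs.1
      rw [hs.2]
      exact ⟨this.2.1, this.2.2.1⟩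

theorem Loc.dn_H (h : 3 ≤ (WW G M a b).ncard) :
    dn ((H0 G M a b).induce (WW G M a b)) + 10 < 6 * (WW G M a b).ncard := by
  by_contra hc
  push Not at hc
  refine K.no_five_H (mader5 _ _ ?_ ?_)
  · rw [Nat.card_coe_set_eq]; exact h
  · rw [Nat.card_coe_set_eq]; exact hc

/-- the pairs which are counted -/
def TT (G : SimpleGraph V) (M : Finset (V × V)) (a b : V) : Set (V × V) :=
  {x | x.1 ∈ NA G a b ∧ x.2 ∈ NA G b a ∧ G.Adj x.1 x.2 ∧ (¬ Sat M x.1 ∨ ¬ Sat M x.2)}

theorem Loc.two_T : 2 * (TT G M a b).ncard ≤ dn ((H0 G M a b).induce (WW G M a b)) := by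
  rw [dn_induce]
  obtain ⟨ρ, hρ⟩ : ∃ ρ : V → V, ρ = fun q => if q ∈ Xs G M b a then mu M q else q := ⟨_, rfl⟩
  have hρ1 : ∀ {q}, q ∈ Xs G M b a → ρ q = mu M q := by
    intro q hq; rw [hρ]; exact if_pos hq
  have hρ2 : ∀ {q}, q ∉ Xs G M b a → ρ q = q := by
    intro q hq; rw [hρ]; exact if_neg hq
  have hW : ∀ {q}, q ∈ NA G b a → ρ q ∈ WW G M a b := by
    intro q hq
    by_cases h : q ∈ Xs G M b a
    · rw [hρ1 h]
      have := K.swap_mem' h
      exact Or.inl ⟨this.2.1, this.2.2.1⟩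
    · rw [hρ2 h]
      exact Or.inr ⟨hq, h⟩
  have hself : ∀ {q}, q ∈ NA G b a → q ∈ Bs G M a b (ρ q) := by
    intro q hq
    by_cases h : q ∈ Xs G M b a
    · rw [hρ1 h]
      exact Or.inr ⟨K.swap_mem' h, (K.mt.mu_mu h.1).symm⟩
    · rw [hρ2 h]
      exact Or.inl rfl
  have hne : ∀ x ∈ TT G M a b, x.1 ≠ ρ x.2 := by
    rintro ⟨p, q⟩ ⟨hp, hq, hpq, hs⟩ h
    simp only at hp hq hpq hs h
    by_cases hX : q ∈ Xs G M b a
    · rw [hρ1 hX] at h
      rcases hs with hs | hs
      · exact hs (by rw [h]; exact K.mt.mu_sat hX.1)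
      · exact hs hX.1
    · rw [hρ2 hX] at h
      exact hpq.ne h
  have hinj : ∀ {q q'}, q ∈ NA G b a → q' ∈ NA G b a → ρ q = ρ q' → q = q' := by
    intro q q' hq hq' h
    by_cases h1 : q ∈ Xs G M b a
    · by_cases h2 : q' ∈ Xs G M b a
      · rw [hρ1 h1, hρ1 h2] at h
        exact K.mu_inj h1.1 h2.1 h
      · rw [hρ1 h1, hρ2 h2] at h
        exact (K.disj (K.swap_mem' h1).2.1 (by rw [h]; exact hq'.1)).elim
    · by_cases h2 : q' ∈ Xs G M b a
      · rw [hρ2 h1, hρ1 h2] at h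
        exact (K.disj (K.swap_mem' h2).2.1 (by rw [← h]; exact hq.1)).elim
      · rw [hρ2 h1, hρ2 h2] at h
        exact h
  have hD : ∀ x ∈ TT G M a b, (H0 G M a b).Adj x.1 (ρ x.2) := by
    intro x hx
    exact ⟨hne x hx, x.1, Or.inl rfl, x.2, hself hx.2.1, hx.2.2.1⟩
  have hsub : ((fun x : V × V => (x.1, ρ x.2)) '' TT G M a b) ∪
      ((fun x : V × V => (ρ x.2, x.1)) '' TT G M a b) ⊆
      {x : V × V | (H0 G M a b).Adj x.1 x.2 ∧ x.1 ∈ WW G M a b ∧ x.2 ∈ WW G M a b} := by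
    rintro y (⟨x, hx, rfl⟩ | ⟨x, hx, rfl⟩)
    · exact ⟨hD x hx, Or.inl hx.1, hW hx.2.1⟩
    · exact ⟨(hD x hx).symm, hW hx.2.1, Or.inl hx.1⟩
  have hdis : Disjoint ((fun x : V × V => (x.1, ρ x.2)) '' TT G M a b)
      ((fun x : V × V => (ρ x.2, x.1)) '' TT G M a b) := by
    rw [Set.disjoint_left]
    rintro y ⟨x, hx, rfl⟩ ⟨x', hx', h⟩
    have e1 : ρ x'.2 = x.1 := congrArg Prod.fst h
    have e2 : x'.1 = ρ x.2 := congrArg Prod.snd h
    by_cases h1 : x'.2 ∈ Xs G M b a
    · have hs : Sat M x.1 := by rw [← e1, hρ1 h1]; exact K.mt.mu_sat h1.1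
      have hs' : ¬ Sat M x.2 := by
        rcases hx.2.2.2 with h | h
        · exact absurd hs h
        · exact h
      have h2 : x.2 ∉ Xs G M b a := fun h => hs' h.1
      rw [hρ2 h2] at e2
      exact K.disj hx'.1.1 (by rw [e2]; exact hx.2.1.1)
    · rw [hρ2 h1] at e1
      exact K.disj hx.1.1 (by rw [← e1]; exact hx'.2.1.1)
  have c1 : ((fun x : V × V => (x.1, ρ x.2)) '' TT G M a b).ncard = (TT G M a b).ncard := by
    refine Set.InjOn.ncard_image ?_
    intro x hx y hy h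
    have h' : (x.1, ρ x.2) = (y.1, ρ y.2) := h
    have e1 : x.1 = y.1 := (Prod.mk.inj h').1
    have e2 : ρ x.2 = ρ y.2 := (Prod.mk.inj h').2
    exact Prod.ext e1 (hinj hx.2.1 hy.2.1 e2)
  have c2 : ((fun x : V × V => (ρ x.2, x.1)) '' TT G M a b).ncard = (TT G M a b).ncard := by
    refine Set.InjOn.ncard_image ?_
    intro x hx y hy h
    have e1 : x.1 = y.1 := congrArg Prod.snd h
    have e2 : ρ x.2 = ρ y.2 := congrArg Prod.fst h
    exact Prod.ext e1 (hinj hx.2.1 hy.2.1 e2)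
  have c3 := Set.ncard_union_eq hdis (Set.toFinite _) (Set.toFinite _)
  have c4 := Set.ncard_le_ncard hsub (Set.toFinite _)
  omega

/-- the pairs of uncovered vertices -/
def UU (G : SimpleGraph V) (M : Finset (V × V)) (a b : V) : Set (V × V) :=
  {x | x.1 ∈ NA G a b ∧ x.2 ∈ NA G b a ∧ G.Adj x.1 x.2 ∧ ¬ Sat M x.1 ∧ ¬ Sat M x.2}

theorem Loc.UU_bound (h : (Xs G M a b).ncard + (Xs G M a b).ncard + 5 ≤
    (nb G a).ncard + (nb G b).ncard) :
    2 * (UU G M a b).ncard + 6 * ((Xs G M a b).ncard + (Xs G M a b).ncard + 2) + 10 <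
      6 * ((nb G a).ncard + (nb G b).ncard) := by
  obtain ⟨W, hW⟩ : ∃ W, W = (NA G a b \ Xs G M a b) ∪ (NA G b a \ Xs G M b a) := ⟨_, rfl⟩
  have h1 : Disjoint (NA G a b \ Xs G M a b) (NA G b a \ Xs G M b a) := by
    rw [Set.disjoint_left]
    intro x hx hx'
    exact K.disj hx.1.1 hx'.1.1
  have h2 := Set.ncard_union_eq h1 (Set.toFinite _) (Set.toFinite _)
  rw [← hW] at h2
  have h3 : Xs G M b a ⊆ NA G b a := fun x hx => ⟨hx.2.1, hx.2.2.1⟩
  have h3' : Xs G M a b ⊆ NA G a b := fun x hx => ⟨hx.2.1, hx.2.2.1⟩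
  have h4 := Set.ncard_sdiff_add_ncard_of_subset h3 (Set.toFinite _)
  have h4' := Set.ncard_sdiff_add_ncard_of_subset h3' (Set.toFinite _)
  have h5 := K.card_NA
  have h6 := K.card_NB
  have h7 := K.card_swap
  have hno : ¬ IsMinor (⊤ : SimpleGraph (Fin 5)) (G.induce W) := by
    refine K.no_five (fun w => {w.1}) (fun w => SC.singleton G _) ?_ ?_ ?_
    · intro x y hxy
      rw [Set.disjoint_singleton]
      exact fun h => hxy (Subtype.ext h)
    · intro x y hxy
      exact ⟨x.1, rfl, y.1, rfl, hxy⟩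
    · intro x s hs
      rw [Set.mem_singleton_iff] at hs
      have hx := (Set.ext_iff.1 hW x.1).1 x.2
      rw [hs]
      rcases hx with h | h
      · exact Or.inl h.1
      · exact Or.inr h.1
  have hlt : dn (G.induce W) + 10 < 6 * W.ncard := by
    by_contra hc
    push Not at hc
    refine hno (mader5 _ _ ?_ ?_)
    · rw [Nat.card_coe_set_eq]; omega
    · rw [Nat.card_coe_set_eq]; exact hc
  rw [dn_induce] at hlt
  have hsub : UU G M a b ∪ (Prod.swap '' UU G M a b) ⊆
      {x : V × V | G.Adj x.1 x.2 ∧ x.1 ∈ W ∧ x.2 ∈ W} := by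
    rw [hW]
    rintro y (hy | ⟨x, hx, rfl⟩)
    · exact ⟨hy.2.2.1, Or.inl ⟨hy.1, fun h => hy.2.2.2.1 h.1⟩,
        Or.inr ⟨hy.2.1, fun h => hy.2.2.2.2 h.1⟩⟩
    · exact ⟨hx.2.2.1.symm, Or.inr ⟨hx.2.1, fun h => hx.2.2.2.2 h.1⟩,
        Or.inl ⟨hx.1, fun h => hx.2.2.2.1 h.1⟩⟩
  have hdis : Disjoint (UU G M a b) (Prod.swap '' UU G M a b) := by
    rw [Set.disjoint_left]
    rintro y hy ⟨x, hx, rfl⟩
    exact K.disj hx.1.1 hy.2.1.1
  have c1 : (Prod.swap '' UU G M a b).ncard = (UU G M a b).ncard :=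
    Set.ncard_image_of_injective _ Prod.swap_injective
  have c3 := Set.ncard_union_eq hdis (Set.toFinite _) (Set.toFinite _)
  have c4 := Set.ncard_le_ncard hsub (Set.toFinite _)
  omega

/-- contraction of an edge of the contracted neighbourhood -/
theorem Loc.tri_bound {u v : V} (huv : (u, v) ∈ UU G M a b) (hW : (WW G M a b).ncard = 10) :
    (TT G M a b).ncard ≤ 22 + {x | x ∈ Xs G M a b ∧ G.Adj u (mu M x) ∧ G.Adj v x}.ncard := by
  obtain ⟨hu, hv, huv, hus, hvs⟩ := huv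
  simp only at hu hv huv hus hvs
  have hbu : ∀ s, s ∈ Bs G M a b u ↔ s = u := by
    intro s
    constructor
    · rintro (h | h)
      · exact h
      · exact absurd h.1.1 hus
    · exact fun h => Or.inl h
  have hvX : v ∉ Xs G M b a := fun h => hvs h.1
  have hvX' : v ∉ Xs G M a b := fun h => hvs h.1
  have hbv : ∀ s, s ∈ Bs G M a b v ↔ s = v := by
    intro s
    constructor
    · rintro (h | h)
      · exact h
      · exact absurd h.1 hvX'
    · exact fun h => Or.inl h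
  let u' : WW G M a b := ⟨u, Or.inl hu⟩
  let v' : WW G M a b := ⟨v, Or.inr ⟨hv, hvX⟩⟩
  have hadj : ((H0 G M a b).induce (WW G M a b)).Adj u' v' :=
    ⟨huv.ne, u, (hbu u).2 rfl, v, (hbv v).2 rfl, huv⟩
  have h1 := ncard_dartSet_contr _ u' v' hadj
  have hcard : Nat.card {x : WW G M a b // x ≠ v'} + 1 = Nat.card (WW G M a b) := by
    have := Fintype.ofFinite (WW G M a b)
    rw [Nat.card_eq_fintype_card, Nat.card_eq_fintype_card, Fintype.card_subtype_compl,
      Fintype.card_subtype_eq]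
    have : 0 < Fintype.card (WW G M a b) := Fintype.card_pos_iff.mpr ⟨v'⟩
    omega
  rw [Nat.card_coe_set_eq, hW] at hcard
  have h2 : dn (contr ((H0 G M a b).induce (WW G M a b)) u' v') + 10 < 6 * 9 := by
    by_contra hc
    push Not at hc
    refine K.no_five_H ((mader5 _ (contr ((H0 G M a b).induce (WW G M a b)) u' v') ?_ ?_).trans
      (isMinor_contr _ u' v' hadj))
    · omega
    · have : Nat.card {x : WW G M a b // x ≠ v'} = 9 := by omega
      rw [this]; exact hc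
  have h3 : {w | ((H0 G M a b).induce (WW G M a b)).Adj u' w ∧
      ((H0 G M a b).induce (WW G M a b)).Adj v' w}.ncard ≤
      {x | x ∈ Xs G M a b ∧ G.Adj u (mu M x) ∧ G.Adj v x}.ncard := by
    have hs : (fun w : WW G M a b => w.1) '' {w | ((H0 G M a b).induce (WW G M a b)).Adj u' w ∧
        ((H0 G M a b).induce (WW G M a b)).Adj v' w} ⊆
        {x | x ∈ Xs G M a b ∧ G.Adj u (mu M x) ∧ G.Adj v x} := by
      rintro x ⟨w, ⟨⟨-, s, hs, t, ht, hst⟩, ⟨-, s', hs', t', ht', hst'⟩⟩, rfl⟩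
      have es : s = u := (hbu s).1 hs
      have es' : s' = v := (hbv s').1 hs'
      rw [es] at hst
      rw [es'] at hst'
      rcases ht with ht | ht
      · rw [ht] at hst
        rcases ht' with ht' | ht'
        · rw [ht'] at hst'
          exact (K.tf u v w.1 huv hst' hst).elim
        · exact (K.tf a u w.1 hu.1 hst ht'.1.2.1).elim
      · rcases ht' with ht' | ht'
        · rw [ht.2] at hst
          rw [ht'] at hst'
          exact ⟨ht.1, hst, hst'⟩
        · rw [ht'.2] at hst'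
          exact (K.tf b v _ hv.1 hst' (K.swap_mem ht'.1).2.1).elim
    rw [← Set.ncard_image_of_injective _ Subtype.val_injective]
    exact Set.ncard_le_ncard hs (Set.toFinite _)
  have h4 := K.two_T
  have h5 : dn ((H0 G M a b).induce (WW G M a b)) =
    (dartSet ((H0 G M a b).induce (WW G M a b))).ncard := rfl
  have h6 : dn (contr ((H0 G M a b).induce (WW G M a b)) u' v') =
    (dartSet (contr ((H0 G M a b).induce (WW G M a b)) u' v')).ncard := rfl
  omega

end

end Pool.Agent.K6
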