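import Pool.Agent.K6.Small

set_option autoImplicit false

/-!
# Mader's theorems for complete minors on four, five and six vertices
-/

namespace Pool.Agent.K6

open SimpleGraph Pool.Agent.TreewidthMinor

variable {V W : Type}

theorem mader4 (V : Type) [Finite V] (G : SimpleGraph V) (h : 2 ≤ Nat.card V)
    (he : 4 * Nat.card V ≤ dn G + 4) : IsMinor (⊤ : SimpleGraph (Fin 4)) G := by
  refine core 4 2 4 2 (by omega) (by omega) ?_ (Nat.card V) V G rfl h (by omega)
  intro V _ G _ _ h2 h3 h4 _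
  obtain ⟨v, hv⟩ := exists_low G 4 (by omega)
  have hv3 : (nb G v).ncard = 3 := by have := h4 v; omega
  refine cone_nb v (clique_minor _ Set.univ 3 (Set.toFinite _) ?_ ?_)
  · rw [Set.ncard_univ, Nat.card_coe_set_eq, hv3]
  · rintro ⟨x, hx⟩ - ⟨y, hy⟩ - hxy
    have hne : x ≠ y := fun h => hxy (Subtype.ext h)
    show G.Adj x y
    by_contra hna
    have hsub : cn G v x ⊆ nb G v \ {x, y} := by
      rintro w ⟨hw1, hw2⟩
      refine ⟨hw1, ?_⟩
      rintro (rfl | hw)
      · exact G.irrefl hw2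
      · rw [Set.mem_singleton_iff] at hw
        rw [hw] at hw2
        exact hna hw2
    have h5 := Set.ncard_le_ncard hsub (Set.toFinite _)
    have h6 : ({x, y} : Set V).ncard = 2 := Set.ncard_pair hne
    have h7 : ({x, y} : Set V) ⊆ nb G v := by
      rintro w (rfl | hw)
      · exact hx
      · rw [Set.mem_singleton_iff.1 hw]; exact hy
    have h8 := Set.ncard_sdiff_add_ncard_of_subset h7 (Set.toFinite _)
    have h9 := h3 v x hx
    omega

theorem mader5 (V : Type) [Finite V] (G : SimpleGraph V) (h : 3 ≤ Nat.card V)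
    (he : 6 * Nat.card V ≤ dn G + 10) : IsMinor (⊤ : SimpleGraph (Fin 5)) G := by
  refine core 5 3 10 3 (by omega) (by omega) ?_ (Nat.card V) V G rfl h (by omega)
  intro V _ G _ _ h2 h3 h4 _
  obtain ⟨v, hv⟩ := exists_low G 6 (by omega)
  have hv4 := h4 v
  have h5 := dn_nb_ge G v 3 (fun w hw => h3 v w hw)
  have hev := dn_even (G.induce (nb G v))
  refine cone_nb v (mader4 _ _ ?_ ?_)
  · rw [Nat.card_coe_set_eq]; omega
  · rw [Nat.card_coe_set_eq]
    obtain ⟨k, hk⟩ := hev
    omega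

/-- adding a virtual edge -/
theorem dn_sup_edge [Finite V] (G : SimpleGraph V) {p q : V} (hpq : p ≠ q) (hna : ¬ G.Adj p q) :
    dn G + 2 ≤ dn (G ⊔ SimpleGraph.edge p q) := by
  have hsub : dartSet G ∪ {(p, q), (q, p)} ⊆ dartSet (G ⊔ SimpleGraph.edge p q) := by
    rintro x (hx | hx | hx)
    · exact Or.inl hx
    · rw [hx]
      show (G ⊔ SimpleGraph.edge p q).Adj p q
      rw [sup_adj, edge_adj]
      exact Or.inr ⟨Or.inl ⟨rfl, rfl⟩, hpq⟩
    · rw [Set.mem_singleton_iff] at hx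
      rw [hx]
      show (G ⊔ SimpleGraph.edge p q).Adj q p
      rw [sup_adj, edge_adj]
      exact Or.inr ⟨Or.inr ⟨rfl, rfl⟩, hpq.symm⟩
  have h1 := Set.ncard_le_ncard hsub (Set.toFinite _)
  have hdis : Disjoint (dartSet G) {(p, q), (q, p)} := by
    rw [Set.disjoint_left]
    rintro x hx (h | h)
    · rw [h] at hx; exact hna hx
    · rw [Set.mem_singleton_iff] at h
      rw [h] at hx
      exact hna (G.adj_symm hx)
  have h2 := Set.ncard_union_eq hdis (Set.toFinite _) (Set.toFinite _)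
  have h3 : ({(p, q), (q, p)} : Set (V × V)).ncard = 2 := by
    refine Set.ncard_pair ?_
    intro h
    exact hpq (congrArg Prod.fst h)
  have h4 : dn G = (dartSet G).ncard := rfl
  have h5 : dn (G ⊔ SimpleGraph.edge p q) = (dartSet (G ⊔ SimpleGraph.edge p q)).ncard := rfl
  omega

/-- The component of `r` in the graph induced on `R`. -/
def compo (G : SimpleGraph V) (R : Set V) (r : V) : Set V :=
  {x | ∃ w : G.Walk r x, ∀ z ∈ w.support, z ∈ R}

theorem compo_sub {G : SimpleGraph V} {R : Set V} {r : V} : compo G R r ⊆ R := by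
  rintro x ⟨w, hw⟩
  exact hw x w.end_mem_support

theorem compo_sc {G : SimpleGraph V} {R : Set V} {r : V} (hr : r ∈ R) : SC G (compo G R r) := by
  classical
  have hself : r ∈ compo G R r := ⟨Walk.nil, by
    intro z hz
    rw [Walk.support_nil, List.mem_singleton] at hz
    rw [hz]; exact hr⟩
  have hin : ∀ {x : V} (w : G.Walk r x), (∀ z ∈ w.support, z ∈ R) →
      ∀ z ∈ w.support, z ∈ compo G R r := by
    intro x w hw z hz
    exact ⟨w.takeUntil z hz, fun t ht => hw t (w.support_takeUntil_subset_support hz ht)⟩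
  refine ⟨⟨r, hself⟩, ?_⟩
  rintro x ⟨w, hw⟩ y ⟨w', hw'⟩
  refine ⟨w.reverse.append w', ?_⟩
  intro z hz
  rw [Walk.mem_support_append_iff, Walk.support_reverse, List.mem_reverse] at hz
  rcases hz with hz | hz
  · exact hin w hw z hz
  · exact hin w' hw' z hz

theorem compo_adj {G : SimpleGraph V} {R : Set V} {r x y : V} (hx : x ∈ compo G R r)
    (hy : y ∈ R) (hxy : G.Adj x y) : y ∈ compo G R r := by
  obtain ⟨w, hw⟩ := hx
  refine ⟨w.append (Walk.cons hxy Walk.nil), ?_⟩
  intro z hz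
  rw [Walk.mem_support_append_iff, Walk.support_cons, Walk.support_nil] at hz
  rcases hz with hz | hz
  · exact hw z hz
  · rw [List.mem_cons, List.mem_singleton] at hz
    rcases hz with rfl | rfl
    · exact hw _ w.end_mem_support
    · exact hy

/-- the darts inside a set -/
theorem dn_induce [Finite V] (G : SimpleGraph V) (s : Set V) :
    dn (G.induce s) = {x : V × V | G.Adj x.1 x.2 ∧ x.1 ∈ s ∧ x.2 ∈ s}.ncard := by
  have : {x : V × V | G.Adj x.1 x.2 ∧ x.1 ∈ s ∧ x.2 ∈ s} =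
      (fun x : s × s => (x.1.1, x.2.1)) '' dartSet (G.induce s) := by
    ext ⟨x, y⟩
    constructor
    · rintro ⟨h1, h2, h3⟩
      exact ⟨(⟨x, h2⟩, ⟨y, h3⟩), h1, rfl⟩
    · rintro ⟨⟨x', y'⟩, h, h'⟩
      have e1 : x'.1 = x := congrArg Prod.fst h'
      have e2 : y'.1 = y := congrArg Prod.snd h'
      subst e1; subst e2
      exact ⟨h, x'.2, y'.2⟩
  rw [this, Set.ncard_image_of_injective]
  · rfl
  · rintro ⟨x, y⟩ ⟨x', y'⟩ h
    have e1 : x.1 = x'.1 := congrArg Prod.fst h
    have e2 : y.1 = y'.1 := congrArg Prod.snd h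
    exact Prod.ext (Subtype.ext e1) (Subtype.ext e2)

/-- the darts inside a clique -/
theorem dn_clique [Finite V] (G : SimpleGraph V) (s : Set V)
    (h : ∀ x ∈ s, ∀ y ∈ s, x ≠ y → G.Adj x y) :
    s.ncard * (s.ncard - 1) ≤ dn (G.induce s) := by
  have h1 := le_dn (G.induce s) (s.ncard - 1) ?_
  · rw [Nat.card_coe_set_eq] at h1
    rw [mul_comm]; exact h1
  · intro v
    have h2 : (s \ {v.1}) ⊆ (fun x => x.1) '' nb (G.induce s) v := by
      rintro x ⟨hx1, hx2⟩
      exact ⟨⟨x, hx1⟩, h v.1 v.2 x hx1 (fun h => hx2 h.symm), rfl⟩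
    have h3 := (Set.ncard_le_ncard h2 (Set.toFinite _)).trans
      (Set.ncard_image_le (Set.toFinite _))
    rw [Set.ncard_sdiff_singleton_of_mem v.2] at h3
    exact h3

theorem mader6 (V : Type) [Finite V] (G : SimpleGraph V) (h : 4 ≤ Nat.card V)
    (he : 8 * Nat.card V ≤ dn G + 18) : IsMinor (⊤ : SimpleGraph (Fin 6)) G := by
  classical
  refine core 6 4 18 4 (by omega) (by omega) ?_ (Nat.card V) V G rfl h (by omega)
  intro V _ G h0 h1 h2 h3 h4 hIH
  obtain ⟨v, hv⟩ := exists_low G 8 (by omega)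
  have hv5 := h4 v
  by_cases hM : IsMinor (⊤ : SimpleGraph (Fin 5)) (G.induce (nb G v))
  · exact cone_nb v hM
  have hcard : Nat.card (nb G v) = (nb G v).ncard := Nat.card_coe_set_eq _
  have hΓ1 := dn_nb_ge G v 4 (fun w hw => h3 v w hw)
  have hΓ2 : dn (G.induce (nb G v)) + 10 < 6 * (nb G v).ncard := by
    by_contra hc
    push Not at hc
    exact hM (mader5 _ _ (by omega) (by rw [hcard]; exact hc))
  obtain ⟨k, hk⟩ := dn_even (G.induce (nb G v))
  -- the neighbourhood has exactly the maximal number of edges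
  have hΓ : dn (G.induce (nb G v)) + 12 = 6 * (nb G v).ncard := by
    by_contra hne
    have hd : (nb G v).ncard = 7 := by omega
    have hdn : dn (G.induce (nb G v)) = 28 := by omega
    refine hM (seven _ (by rw [hcard]; exact hd) ?_)
    have hge : ∀ w, 4 ≤ (nb (G.induce (nb G v)) w).ncard := by
      intro w
      refine (h3 v w.1 w.2).trans ?_
      have : cn G v w.1 ⊆ (fun x => x.1) '' nb (G.induce (nb G v)) w := by
        rintro x ⟨hx1, hx2⟩
        exact ⟨⟨x, hx1⟩, hx2, rfl⟩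
      exact (Set.ncard_le_ncard this (Set.toFinite _)).trans
        (Set.ncard_image_le (Set.toFinite _))
    have := Fintype.ofFinite (nb G v)
    have hs := dn_eq_sum (G.induce (nb G v))
    rw [hdn] at hs
    intro w
    by_contra hw
    have hlt : ∑ _x : nb G v, 4 < ∑ x : nb G v, (nb (G.induce (nb G v)) x).ncard :=
      Finset.sum_lt_sum (fun x _ => hge x) ⟨w, Finset.mem_univ _, by have := hge w; omega⟩
    rw [← hs, Finset.sum_const, Finset.card_univ, smul_eq_mul, ← Nat.card_eq_fintype_card,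
      hcard, hd] at hlt
    omega
  obtain ⟨R, hR⟩ : ∃ R : Set V, R = {x | x ≠ v ∧ ¬ G.Adj v x} := ⟨_, rfl⟩
  by_cases hRe : R = ∅
  · exfalso
    have hs : {x : V | x ≠ v} = nb G v := by
      ext x
      constructor
      · intro hx
        by_contra hx'
        have : x ∈ R := by rw [hR]; exact ⟨hx, hx'⟩
        rw [hRe] at this
        exact this
      · intro hx
        exact (G.ne_of_adj hx).symm
    have e1 := dn_delete G v
    rw [hs] at e1
    have e2 : Nat.card V = (nb G v).ncard + 1 := by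
      have := Set.ncard_add_ncard_compl ({v} : Set V) (Set.toFinite _) (Set.toFinite _)
      have hs' : ({v}ᶜ : Set V) = nb G v := by rw [← hs]; rfl
      rw [hs', Set.ncard_singleton] at this
      omega
    omega
  obtain ⟨r, hr⟩ := Set.nonempty_iff_ne_empty.2 hRe
  obtain ⟨C, hC⟩ : ∃ C, C = compo G R r := ⟨_, rfl⟩
  have hrC : r ∈ C := by
    rw [hC]
    exact ⟨Walk.nil, by
      intro z hz
      rw [Walk.support_nil, List.mem_singleton] at hz
      rw [hz]; exact hr⟩
  have hCR : C ⊆ R := by rw [hC]; exact compo_sub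
  have hCsc : SC G C := by rw [hC]; exact compo_sc hr
  have hCadj : ∀ {x y}, x ∈ C → y ∈ R → G.Adj x y → y ∈ C := by
    intro x y hx hy hxy
    rw [hC] at hx ⊢
    exact compo_adj hx hy hxy
  have hCv : ∀ {x}, x ∈ C → x ≠ v ∧ ¬ G.Adj v x := by
    intro x hx
    have := hCR hx
    rw [hR] at this
    exact this
  obtain ⟨K, hK⟩ : ∃ K : Set V, K = {x | G.Adj v x ∧ ∃ c ∈ C, G.Adj c x} := ⟨_, rfl⟩
  have hKm : ∀ {x}, x ∈ K ↔ G.Adj v x ∧ ∃ c ∈ C, G.Adj c x := by intro x; rw [hK]; rfl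
  have hKout : ∀ {x y}, x ∈ C → G.Adj x y → y ∈ C ∨ y ∈ K := by
    intro x y hx hxy
    by_cases hy : y ∈ R
    · exact Or.inl (hCadj hx hy hxy)
    · right
      rw [hKm]
      refine ⟨?_, x, hx, hxy⟩
      by_contra hn
      apply hy
      rw [hR]
      refine ⟨?_, hn⟩
      rintro rfl
      exact (hCv hx).2 hxy.symm
  by_cases hcl : ∀ x ∈ K, ∀ y ∈ K, x ≠ y → G.Adj x y
  swap
  · -- two nonadjacent attachments
    push Not at hcl
    obtain ⟨p, hp, q, hq, hpq, hna⟩ := hcl
    rw [hKm] at hp hq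
    obtain ⟨hvp, c, hc, hcp⟩ := hp
    obtain ⟨hvq, c', hc', hcq⟩ := hq
    have hne : (⟨p, hvp⟩ : nb G v) ≠ ⟨q, hvq⟩ := fun h => hpq (congrArg Subtype.val h)
    have e1 := dn_sup_edge (G.induce (nb G v)) hne hna
    have hmin := mader5 _ (G.induce (nb G v) ⊔ SimpleGraph.edge ⟨p, hvp⟩ ⟨q, hvq⟩) (by omega)
      (by rw [hcard]; omega)
    obtain ⟨B, hB⟩ : ∃ B : nb G v → Set V, B = fun x => if x.1 = q then {x.1} ∪ C else {x.1} :=
      ⟨_, rfl⟩
    have Bq : ∀ x : nb G v, x.1 = q → B x = {x.1} ∪ C := by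
      intro x hx; simp only [hB, hx, if_true]
    have Bn : ∀ x : nb G v, x.1 ≠ q → B x = {x.1} := by
      intro x hx; simp only [hB, hx, if_false]
    have Bself : ∀ x, x.1 ∈ B x := by
      intro x
      by_cases hx : x.1 = q
      · rw [Bq x hx]; exact Or.inl rfl
      · rw [Bn x hx]; rfl
    have hnC : ∀ x : nb G v, x.1 ∉ C := fun x hx => (hCv hx).2 x.2
    refine cone B ?_ ?_ ?_ {v} (SC.singleton G v) ?_ ?_ hmin
    · intro x
      by_cases hx : x.1 = q
      · rw [Bq x hx]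
        exact SC.union_adj (SC.singleton G _) hCsc rfl hc' (by rw [hx]; exact hcq.symm)
      · rw [Bn x hx]; exact SC.singleton G _
    · intro x y hxy
      have hne' : x.1 ≠ y.1 := fun h => hxy (Subtype.ext h)
      rw [Set.disjoint_left]
      intro z hz hz'
      by_cases hx : x.1 = q
      · have hy : y.1 ≠ q := fun h => hne' (hx.trans h.symm)
        rw [Bn y hy, Set.mem_singleton_iff] at hz'
        rw [Bq x hx] at hz
        rcases hz with hz | hz
        · exact hne' ((Set.mem_singleton_iff.1 hz).symm.trans hz')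
        · rw [hz'] at hz; exact hnC y hz
      · rw [Bn x hx, Set.mem_singleton_iff] at hz
        by_cases hy : y.1 = q
        · rw [Bq y hy] at hz'
          rcases hz' with hz' | hz'
          · exact hne' (hz.symm.trans (Set.mem_singleton_iff.1 hz'))
          · rw [hz] at hz'; exact hnC x hz'
        · rw [Bn y hy, Set.mem_singleton_iff] at hz'
          exact hne' (hz.symm.trans hz')
    · intro x y hxy
      rw [sup_adj, edge_adj] at hxy
      rcases hxy with hxy | ⟨⟨h5, h6⟩ | ⟨h5, h6⟩, -⟩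
      · exact ⟨x.1, Bself x, y.1, Bself y, hxy⟩
      · have e2 : x.1 = p := congrArg Subtype.val h5
        have e3 : y.1 = q := congrArg Subtype.val h6
        refine ⟨x.1, Bself x, c, ?_, by rw [e2]; exact hcp.symm⟩
        rw [Bq y e3]; exact Or.inr hc
      · have e2 : x.1 = q := congrArg Subtype.val h5
        have e3 : y.1 = p := congrArg Subtype.val h6
        refine ⟨c, ?_, y.1, Bself y, by rw [e3]; exact hcp⟩
        rw [Bq x e2]; exact Or.inr hc
    · intro x
      rw [Set.disjoint_singleton_right]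
      intro hvx
      have hx0 : x.1 ≠ v := (G.ne_of_adj x.2).symm
      by_cases hx : x.1 = q
      · rw [Bq x hx] at hvx
        rcases hvx with h | h
        · exact hx0 (Set.mem_singleton_iff.1 h).symm
        · exact (hCv h).1 rfl
      · rw [Bn x hx, Set.mem_singleton_iff] at hvx
        exact hx0 hvx.symm
    · intro x
      exact ⟨x.1, Bself x, v, rfl, (show G.Adj v x.1 from x.2).symm⟩
  -- the attachments form a clique
  have hK4 : K.ncard ≤ 4 := by
    by_contra hlt
    push Not at hlt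
    apply hM
    refine clique_minor _ {x : nb G v | x.1 ∈ K} 5 (Set.toFinite _) ?_ ?_
    · have : K ⊆ (fun x : nb G v => x.1) '' {x : nb G v | x.1 ∈ K} := by
        intro x hx
        exact ⟨⟨x, (hKm.1 hx).1⟩, hx, rfl⟩
      exact lt_of_lt_of_le hlt ((Set.ncard_le_ncard this (Set.toFinite _)).trans
        (Set.ncard_image_le (Set.toFinite _)))
    · intro x hx y hy hxy
      exact hcl x.1 hx y.1 hy (fun h => hxy (Subtype.ext h))
  have hCK : Disjoint C K := by
    rw [Set.disjoint_left]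
    intro x hx hx'
    exact (hCv hx).2 (hKm.1 hx').1
  have c1 : (C ∪ K).ncard = C.ncard + K.ncard :=
    Set.ncard_union_eq hCK (Set.toFinite _) (Set.toFinite _)
  have c2 := Set.ncard_add_ncard_compl C (Set.toFinite _) (Set.toFinite _)
  have c3 : 0 < C.ncard := (Set.ncard_pos (Set.toFinite _)).2 ⟨r, hrC⟩
  have c4 : (C ∪ K).ncard < Nat.card V := by
    have : v ∉ C ∪ K := by
      rintro (h | h)
      · exact (hCv h).1 rfl
      · exact G.irrefl (hKm.1 h).1
    have h5 : C ∪ K ⊆ {v}ᶜ := fun x hx h => by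
      rw [Set.mem_singleton_iff] at h
      rw [h] at hx
      exact this hx
    have h6 := Set.ncard_le_ncard h5 (Set.toFinite _)
    have h7 := Set.ncard_add_ncard_compl ({v} : Set V) (Set.toFinite _) (Set.toFinite _)
    rw [Set.ncard_singleton] at h7
    omega
  have c5 : 5 ≤ (C ∪ K).ncard := by
    have h5 : nb G r ⊆ C ∪ K := fun x hx => hKout hrC hx
    exact (h4 r).trans (Set.ncard_le_ncard h5 (Set.toFinite _))
  have c6 : 5 ≤ Cᶜ.ncard := by
    have h5 : nb G v ⊆ Cᶜ := fun x hx hx' => (hCv hx').2 hx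
    exact (h4 v).trans (Set.ncard_le_ncard h5 (Set.toFinite _))
  by_cases hm1 : 8 * (C ∪ K).ncard ≤ dn (G.induce (C ∪ K)) + 18
  · refine (hIH _ (G.induce (C ∪ K)) ?_ ?_ ?_).trans (isMinor_induce G _)
    · rw [Nat.card_coe_set_eq]; omega
    · rw [Nat.card_coe_set_eq]; omega
    · rw [Nat.card_coe_set_eq]; omega
  by_cases hm2 : 8 * Cᶜ.ncard ≤ dn (G.induce Cᶜ) + 18
  · refine (hIH _ (G.induce Cᶜ) ?_ ?_ ?_).trans (isMinor_induce G _)
    · rw [Nat.card_coe_set_eq]; omega
    · rw [Nat.card_coe_set_eq]; omega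
    · rw [Nat.card_coe_set_eq]; omega
  exfalso
  have d1 := dn_induce G (C ∪ K)
  have d2 := dn_induce G Cᶜ
  have d3 := dn_clique G K hcl
  rw [dn_induce] at d3
  have hun : dartSet G ⊆ {x : V × V | G.Adj x.1 x.2 ∧ x.1 ∈ C ∪ K ∧ x.2 ∈ C ∪ K} ∪
      {x : V × V | G.Adj x.1 x.2 ∧ x.1 ∈ Cᶜ ∧ x.2 ∈ Cᶜ} := by
    rintro ⟨x, y⟩ hxy
    have hxy' : G.Adj x y := hxy
    by_cases hx : x ∈ C
    · exact Or.inl ⟨hxy', Or.inl hx, hKout hx hxy'⟩
    · by_cases hy : y ∈ C
      · exact Or.inl ⟨hxy', hKout hy hxy'.symm, Or.inl hy⟩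
      · exact Or.inr ⟨hxy', hx, hy⟩
  have hin : {x : V × V | G.Adj x.1 x.2 ∧ x.1 ∈ K ∧ x.2 ∈ K} ⊆
      {x : V × V | G.Adj x.1 x.2 ∧ x.1 ∈ C ∪ K ∧ x.2 ∈ C ∪ K} ∩
      {x : V × V | G.Adj x.1 x.2 ∧ x.1 ∈ Cᶜ ∧ x.2 ∈ Cᶜ} := by
    rintro x ⟨hx1, hx2, hx3⟩
    exact ⟨⟨hx1, Or.inr hx2, Or.inr hx3⟩, hx1, fun h => Set.disjoint_left.1 hCK h hx2,
      fun h => Set.disjoint_left.1 hCK h hx3⟩
  have d4 := Set.ncard_le_ncard hun (Set.toFinite _)
  have d5 := Set.ncard_le_ncard hin (Set.toFinite _)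
  have d6 := Set.ncard_union_add_ncard_inter
    {x : V × V | G.Adj x.1 x.2 ∧ x.1 ∈ C ∪ K ∧ x.2 ∈ C ∪ K}
    {x : V × V | G.Adj x.1 x.2 ∧ x.1 ∈ Cᶜ ∧ x.2 ∈ Cᶜ} (Set.toFinite _) (Set.toFinite _)
  have d7 : dn G = (dartSet G).ncard := rfl
  obtain ⟨k1, hk1⟩ := dn_even (G.induce (C ∪ K))
  obtain ⟨k2, hk2⟩ := dn_even (G.induce Cᶜ)
  interval_cases hKc : K.ncard <;> omega

end Pool.Agent.K6
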