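import Pool.Agent.K6.Mader

set_option autoImplicit false
set_option linter.unusedSectionVars false

/-!
# Optimal matchings
-/

namespace Pool.Agent.K6

open SimpleGraph Pool.Agent.TreewidthMinor

open scoped Classical

variable {V : Type}

/-- two vertex-disjoint pairs joined by two disjoint edges -/
def Pr (G : SimpleGraph V) (e f : V × V) : Prop :=
  e.1 ≠ f.1 ∧ e.1 ≠ f.2 ∧ e.2 ≠ f.1 ∧ e.2 ≠ f.2 ∧
    ((G.Adj e.1 f.1 ∧ G.Adj e.2 f.2) ∨ (G.Adj e.1 f.2 ∧ G.Adj e.2 f.1))

theorem Pr.symm {G : SimpleGraph V} {e f : V × V} (h : Pr G e f) : Pr G f e := by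
  obtain ⟨h1, h2, h3, h4, h5⟩ := h
  refine ⟨h1.symm, h3.symm, h2.symm, h4.symm, ?_⟩
  rcases h5 with ⟨h5, h6⟩ | ⟨h5, h6⟩
  · exact Or.inl ⟨h5.symm, h6.symm⟩
  · exact Or.inr ⟨h6.symm, h5.symm⟩

theorem not_Pr_self (G : SimpleGraph V) (e : V × V) : ¬ Pr G e e := fun h => h.1 rfl

/-- the number of elements of `M` parallel to `e` -/
noncomputable def cM (G : SimpleGraph V) (M : Finset (V × V)) (e : V × V) : ℕ :=
  (M.filter (Pr G e)).card

/-- the number of ordered parallel pairs in `M` -/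
noncomputable def PM (G : SimpleGraph V) (M : Finset (V × V)) : ℕ := ∑ e ∈ M, cM G M e

theorem cM_insert (G : SimpleGraph V) {M : Finset (V × V)} {e : V × V} (he : e ∉ M) (f : V × V) :
    cM G (insert e M) f = cM G M f + if Pr G f e then 1 else 0 := by
  unfold cM
  rw [Finset.filter_insert]
  split_ifs with h
  · rw [Finset.card_insert_of_notMem (fun h' => he (Finset.mem_filter.1 h').1)]
  · rfl

theorem PM_insert (G : SimpleGraph V) {M : Finset (V × V)} {e : V × V} (he : e ∉ M) :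
    PM G (insert e M) = PM G M + 2 * cM G M e := by
  unfold PM
  rw [Finset.sum_insert he, cM_insert G he, if_neg (not_Pr_self G e)]
  have : ∑ f ∈ M, cM G (insert e M) f = ∑ f ∈ M, cM G M f + cM G M e := by
    rw [Finset.sum_congr rfl fun f _ => cM_insert G he f, Finset.sum_add_distrib]
    congr 1
    rw [cM, Finset.card_filter]
    refine Finset.sum_congr rfl fun f _ => ?_
    have : Pr G f e ↔ Pr G e f := ⟨Pr.symm, Pr.symm⟩
    simp only [this]
  rw [this]
  ring

/-- `M` is a matching -/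
structure Mtch (G : SimpleGraph V) (M : Finset (V × V)) : Prop where
  adj : ∀ e ∈ M, G.Adj e.1 e.2
  dis : ∀ e ∈ M, ∀ f ∈ M, e ≠ f → e.1 ≠ f.1 ∧ e.1 ≠ f.2 ∧ e.2 ≠ f.1 ∧ e.2 ≠ f.2

/-- `v` is covered by `M` -/
def Sat (M : Finset (V × V)) (v : V) : Prop := ∃ e ∈ M, v = e.1 ∨ v = e.2

theorem Mtch.erase {G : SimpleGraph V} {M : Finset (V × V)} (h : Mtch G M) (e : V × V) :
    Mtch G (M.erase e) :=
  ⟨fun f hf => h.adj f (Finset.mem_of_mem_erase hf), fun f hf g hg hfg =>
    h.dis f (Finset.mem_of_mem_erase hf) g (Finset.mem_of_mem_erase hg) hfg⟩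

theorem Mtch.insert {G : SimpleGraph V} {M : Finset (V × V)} (h : Mtch G M) {e : V × V}
    (he : G.Adj e.1 e.2) (h1 : ¬ Sat M e.1) (h2 : ¬ Sat M e.2) : Mtch G (insert e M) := by
  have key : ∀ f ∈ M, e.1 ≠ f.1 ∧ e.1 ≠ f.2 ∧ e.2 ≠ f.1 ∧ e.2 ≠ f.2 := fun f hf =>
    ⟨fun h => h1 ⟨f, hf, Or.inl h⟩, fun h => h1 ⟨f, hf, Or.inr h⟩,
      fun h => h2 ⟨f, hf, Or.inl h⟩, fun h => h2 ⟨f, hf, Or.inr h⟩⟩
  refine ⟨?_, ?_⟩
  · intro f hf
    rcases Finset.mem_insert.1 hf with rfl | hf
    · exact he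
    · exact h.adj f hf
  · intro f hf g hg hfg
    rcases Finset.mem_insert.1 hf with hf | hf
    · rcases Finset.mem_insert.1 hg with hg | hg
      · exact absurd (hf.trans hg.symm) hfg
      · rw [hf]; exact key g hg
    · rcases Finset.mem_insert.1 hg with hg | hg
      · rw [hg]
        obtain ⟨k1, k2, k3, k4⟩ := key f hf
        exact ⟨k1.symm, k3.symm, k2.symm, k4.symm⟩
      · exact h.dis f hf g hg hfg

/-- `M` is a matching with `3 |M| - (number of parallel pairs)` maximal, and `|M|` minimal. -/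
structure Opt (G : SimpleGraph V) (M : Finset (V × V)) : Prop where
  mt : Mtch G M
  b1 : ∀ M', Mtch G M' → 6 * M'.card + PM G M ≤ 6 * M.card + PM G M'
  b2 : ∀ M', Mtch G M' → 6 * M'.card + PM G M = 6 * M.card + PM G M' → M.card ≤ M'.card

theorem exists_opt [Finite V] (G : SimpleGraph V) : ∃ M, Opt G M := by
  have := Fintype.ofFinite V
  obtain ⟨N, hN⟩ : ∃ N : ℤ, N = (Fintype.card (V × V) : ℤ) := ⟨_, rfl⟩
  have hne : ((Finset.univ : Finset (Finset (V × V))).filter (Mtch G)).Nonempty :=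
    ⟨∅, by
      rw [Finset.mem_filter]
      exact ⟨Finset.mem_univ _, fun e he => absurd he (Finset.notMem_empty _),
        fun e he => absurd he (Finset.notMem_empty _)⟩⟩
  obtain ⟨M, hM, hmax⟩ := Finset.exists_max_image _
    (fun M : Finset (V × V) => (N + 1) * (6 * (M.card : ℤ) - PM G M) - M.card) hne
  rw [Finset.mem_filter] at hM
  have hcard : ∀ M : Finset (V × V), (M.card : ℤ) ≤ N := by
    intro M
    rw [hN]
    exact_mod_cast Finset.card_le_univ M
  have hNp : 0 ≤ N := by rw [hN]; positivity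
  refine ⟨M, hM.2, ?_, ?_⟩
  · intro M' hM'
    have h1 := hmax M' (by rw [Finset.mem_filter]; exact ⟨Finset.mem_univ _, hM'⟩)
    have h2 := hcard M'
    have h3 : (0 : ℤ) ≤ M.card := by positivity
    by_contra hlt
    push Not at hlt
    have h4 : (6 * (M.card : ℤ) - PM G M) + 1 ≤ 6 * (M'.card : ℤ) - PM G M' := by
      have : (6 * M.card + PM G M' : ℤ) < 6 * M'.card + PM G M := by exact_mod_cast hlt
      linarith
    have h5 : (N + 1) * ((6 * (M.card : ℤ) - PM G M) + 1) ≤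
        (N + 1) * (6 * (M'.card : ℤ) - PM G M') :=
      mul_le_mul_of_nonneg_left h4 (by linarith)
    nlinarith
  · intro M' hM' heq
    have h1 := hmax M' (by rw [Finset.mem_filter]; exact ⟨Finset.mem_univ _, hM'⟩)
    have h4 : (6 * (M.card : ℤ) - PM G M) = 6 * (M'.card : ℤ) - PM G M' := by
      have : (6 * M'.card + PM G M : ℤ) = 6 * M.card + PM G M' := by exact_mod_cast heq
      linarith
    rw [h4] at h1
    have : (M.card : ℤ) ≤ M'.card := by linarith
    exact_mod_cast this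

section moves

variable {G : SimpleGraph V} {M : Finset (V × V)} (K : Opt G M)

include K

theorem Opt.erase_eq {e : V × V} (he : e ∈ M) :
    PM G M = PM G (M.erase e) + 2 * cM G M e ∧ M.card = (M.erase e).card + 1 := by
  have h1 : e ∉ M.erase e := Finset.notMem_erase e M
  have h2 : insert e (M.erase e) = M := Finset.insert_erase he
  have h3 := PM_insert G h1
  have h4 := cM_insert G h1 e
  rw [h2] at h3 h4
  rw [if_neg (not_Pr_self G e)] at h4
  refine ⟨by rw [h3]; omega, ?_⟩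
  rw [Finset.card_erase_of_mem he]
  have : 0 < M.card := Finset.card_pos.2 ⟨e, he⟩
  omega

/-- (a) -/
theorem Opt.le_two {e : V × V} (he : e ∈ M) : cM G M e ≤ 2 := by
  obtain ⟨h1, h2⟩ := K.erase_eq he
  have h3 := K.b1 _ (K.mt.erase e)
  by_contra hlt
  push Not at hlt
  have h4 := K.b2 _ (K.mt.erase e) (by omega)
  omega

theorem Opt.not_sat_ne {u : V} (hu : ¬ Sat M u) {e : V × V} (he : e ∈ M) : u ≠ e.1 ∧ u ≠ e.2 :=
  ⟨fun h => hu ⟨e, he, Or.inl h⟩, fun h => hu ⟨e, he, Or.inr h⟩⟩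

theorem Opt.notMem {u : V} (hu : ¬ Sat M u) (w : V) : (u, w) ∉ M := fun h =>
  hu ⟨_, h, Or.inl rfl⟩

/-- (b) -/
theorem Opt.three_le {u v : V} (hu : ¬ Sat M u) (hv : ¬ Sat M v) (huv : G.Adj u v) :
    3 ≤ cM G M (u, v) := by
  have h1 := K.b1 _ (K.mt.insert (e := (u, v)) huv hu hv)
  rw [PM_insert G (K.notMem hu v), Finset.card_insert_of_notMem (K.notMem hu v)] at h1
  omega

theorem Opt.erase_not_sat {a b : V} (hab : (a, b) ∈ M) :
    ¬ Sat (M.erase (a, b)) a ∧ ¬ Sat (M.erase (a, b)) b := by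
  constructor
  · rintro ⟨f, hf, h⟩
    rw [Finset.mem_erase] at hf
    have := K.mt.dis _ hab f hf.2 hf.1.symm
    rcases h with h | h
    · exact this.1 h
    · exact this.2.1 h
  · rintro ⟨f, hf, h⟩
    rw [Finset.mem_erase] at hf
    have := K.mt.dis _ hab f hf.2 hf.1.symm
    rcases h with h | h
    · exact this.2.2.1 h
    · exact this.2.2.2 h

omit K in
theorem not_sat_erase {u : V} (hu : ¬ Sat M u) (e : V × V) : ¬ Sat (M.erase e) u := by
  rintro ⟨f, hf, h⟩
  exact hu ⟨f, Finset.mem_of_mem_erase hf, h⟩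

omit K in
theorem cM_erase {e f : V × V} (he : e ∈ M) (hn : ¬ Pr G f e) :
    cM G (M.erase e) f = cM G M f := by
  have h4 := cM_insert G (Finset.notMem_erase e M) f
  rw [Finset.insert_erase he, if_neg hn] at h4
  omega

/-- (c), at the first end -/
theorem Opt.rot1 {a b u : V} (hab : (a, b) ∈ M) (hu : ¬ Sat M u) (hua : G.Adj u a) :
    cM G M (a, b) ≤ cM G M (u, a) := by
  obtain ⟨h1, h2⟩ := K.erase_eq hab
  have hn : (u, a) ∉ M.erase (a, b) := fun h => K.notMem hu a (Finset.mem_of_mem_erase h)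
  have h3 := K.b1 _ ((K.mt.erase (a, b)).insert (e := (u, a)) hua (not_sat_erase hu _)
    (K.erase_not_sat hab).1)
  rw [PM_insert G hn, Finset.card_insert_of_notMem hn,
    cM_erase (f := (u, a)) hab (fun h => h.2.2.1 rfl)] at h3
  omega

/-- (c), at the second end -/
theorem Opt.rot2 {a b u : V} (hab : (a, b) ∈ M) (hu : ¬ Sat M u) (hub : G.Adj u b) :
    cM G M (a, b) ≤ cM G M (u, b) := by
  obtain ⟨h1, h2⟩ := K.erase_eq hab
  have hn : (u, b) ∉ M.erase (a, b) := fun h => K.notMem hu b (Finset.mem_of_mem_erase h)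
  have h3 := K.b1 _ ((K.mt.erase (a, b)).insert (e := (u, b)) hub (not_sat_erase hu _)
    (K.erase_not_sat hab).2)
  rw [PM_insert G hn, Finset.card_insert_of_notMem hn,
    cM_erase (f := (u, b)) hab (fun h => h.2.2.2.1 rfl)] at h3
  omega

/-- (d) -/
theorem Opt.aug (hT : ∀ x y z, G.Adj x y → G.Adj y z → G.Adj x z → False) {a b u v : V}
    (hab : (a, b) ∈ M) (hu : ¬ Sat M u) (hv : ¬ Sat M v) (hua : G.Adj u a) (hvb : G.Adj v b) :
    3 + cM G M (a, b) ≤ cM G M (u, a) + cM G M (v, b) + if G.Adj u v then 1 else 0 := by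
  obtain ⟨h1, h2⟩ := K.erase_eq hab
  have hadj : G.Adj a b := K.mt.adj _ hab
  have huv : u ≠ v := by
    rintro rfl
    exact hT u a b hua hadj hvb
  have hua' := K.not_sat_ne hu hab
  have hva' := K.not_sat_ne hv hab
  have hn : (u, a) ∉ M.erase (a, b) := fun h => K.notMem hu a (Finset.mem_of_mem_erase h)
  have hm1 := (K.mt.erase (a, b)).insert (e := (u, a)) hua (not_sat_erase hu _)
    (K.erase_not_sat hab).1
  have hvs : ¬ Sat (insert (u, a) (M.erase (a, b))) v := by
    rintro ⟨f, hf, h⟩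
    rcases Finset.mem_insert.1 hf with rfl | hf
    · rcases h with h | h
      · exact huv h.symm
      · exact hva'.1 h
    · exact not_sat_erase hv (a, b) ⟨f, hf, h⟩
  have hbs : ¬ Sat (insert (u, a) (M.erase (a, b))) b := by
    rintro ⟨f, hf, h⟩
    rcases Finset.mem_insert.1 hf with rfl | hf
    · rcases h with h | h
      · exact hua'.2 h.symm
      · exact hadj.ne h.symm
    · exact (K.erase_not_sat hab).2 ⟨f, hf, h⟩
  have hn2 : (v, b) ∉ insert (u, a) (M.erase (a, b)) := fun h => hvs ⟨_, h, Or.inl rfl⟩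
  have h3 := K.b1 _ (hm1.insert (e := (v, b)) hvb hvs hbs)
  have hPr : Pr G (v, b) (u, a) ↔ G.Adj u v := by
    constructor
    · rintro ⟨-, -, -, -, h | h⟩
      · exact h.1.symm
      · exact (hT v b a hvb hadj.symm h.1).elim
    · intro h
      exact ⟨huv.symm, hva'.1, hua'.2.symm, hadj.ne.symm, Or.inl ⟨h.symm, hadj.symm⟩⟩
  rw [PM_insert G hn2, Finset.card_insert_of_notMem hn2, cM_insert G hn, PM_insert G hn,
    Finset.card_insert_of_notMem hn, cM_erase (f := (u, a)) hab (fun h => h.2.2.1 rfl),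
    cM_erase (f := (v, b)) hab (fun h => h.2.2.2.1 rfl)] at h3
  simp only [hPr] at h3
  omega

end moves

/-- the partner of a vertex -/
noncomputable def mu (M : Finset (V × V)) (v : V) : V :=
  if h : ∃ w, (v, w) ∈ M ∨ (w, v) ∈ M then h.choose else v

section partner

variable {G : SimpleGraph V} {M : Finset (V × V)} (K : Mtch G M)

include K

theorem Mtch.mu_eq {a b : V} (h : (a, b) ∈ M ∨ (b, a) ∈ M) : mu M a = b := by
  have hex : ∃ w, (a, w) ∈ M ∨ (w, a) ∈ M := ⟨b, h⟩
  have hs := hex.choose_spec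
  rw [mu, dif_pos hex]
  by_contra hne
  rcases h with h | h
  · rcases hs with hs | hs
    · exact (K.dis _ h _ hs (fun he => hne (congrArg Prod.snd he).symm)).1 rfl
    · have hab : a ≠ b := (K.adj _ h).ne
      exact (K.dis _ h _ hs (fun he => hab (congrArg Prod.snd he).symm)).2.1 rfl
  · rcases hs with hs | hs
    · have hab : b ≠ a := (K.adj _ h).ne
      exact (K.dis _ h _ hs (fun he => hab (congrArg Prod.fst he))).2.2.1 rfl
    · exact (K.dis _ h _ hs (fun he => hne (congrArg Prod.fst he).symm)).2.2.2 rfl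

theorem Mtch.mu_mem {v : V} (h : Sat M v) : (v, mu M v) ∈ M ∨ (mu M v, v) ∈ M := by
  obtain ⟨⟨x, y⟩, he, h | h⟩ := h
  · simp only at h
    subst h
    rw [K.mu_eq (Or.inl he)]
    exact Or.inl he
  · simp only at h
    subst h
    rw [K.mu_eq (Or.inr he)]
    exact Or.inr he

theorem Mtch.mu_adj {v : V} (h : Sat M v) : G.Adj v (mu M v) := by
  rcases K.mu_mem h with h | h
  · exact K.adj _ h
  · exact (K.adj _ h).symm

theorem Mtch.mu_sat {v : V} (h : Sat M v) : Sat M (mu M v) := by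
  rcases K.mu_mem h with h | h
  · exact ⟨_, h, Or.inr rfl⟩
  · exact ⟨_, h, Or.inl rfl⟩

theorem Mtch.mu_mu {v : V} (h : Sat M v) : mu M (mu M v) = v :=
  K.mu_eq (K.mu_mem h).symm

/-- The set of vertices through which the elements of `M` parallel to `(p, q)` are seen. -/
def Xs (G : SimpleGraph V) (M : Finset (V × V)) (p q : V) : Set V :=
  {x | Sat M x ∧ G.Adj p x ∧ x ≠ q ∧ G.Adj q (mu M x) ∧ mu M x ≠ p}

theorem Mtch.card_Xs [Finite V] (hT : ∀ x y z, G.Adj x y → G.Adj y z → G.Adj x z → False)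
    (p q : V) : (Xs G M p q).ncard = cM G M (p, q) := by
  have := Fintype.ofFinite V
  have h1 : (Xs G M p q).ncard = (Finset.univ.filter (fun x => x ∈ Xs G M p q)).card := by
    rw [← Set.ncard_coe_finset]
    congr 1
    ext x
    simp
  rw [h1, cM]
  have hex : ∀ x : V, Sat M x → ∃ e ∈ M, x = e.1 ∨ x = e.2 := fun x h => h
  obtain ⟨eo, heo⟩ : ∃ eo : V → V × V, ∀ x, Sat M x → eo x ∈ M ∧ (x = (eo x).1 ∨ x = (eo x).2) := by
    refine ⟨fun x => if h : Sat M x then (hex x h).choose else (x, x), ?_⟩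
    intro x hx
    simp only [dif_pos hx]
    exact (hex x hx).choose_spec
  have huniq : ∀ {x : V} {e f : V × V}, e ∈ M → f ∈ M → (x = e.1 ∨ x = e.2) →
      (x = f.1 ∨ x = f.2) → e = f := by
    intro x e f he hf h h'
    by_contra hne
    obtain ⟨k1, k2, k3, k4⟩ := K.dis e he f hf hne
    rcases h with h | h <;> rcases h' with h' | h'
    · exact k1 (h.symm.trans h')
    · exact k2 (h.symm.trans h')
    · exact k3 (h.symm.trans h')
    · exact k4 (h.symm.trans h')
  refine Finset.card_bij (fun x _ => eo x) ?_ ?_ ?_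
  · intro x hx
    rw [Finset.mem_filter] at hx ⊢
    obtain ⟨-, hs, hpx, hxq, hqm, hmp⟩ := hx
    obtain ⟨hm, h⟩ := heo x hs
    refine ⟨hm, ?_⟩
    generalize eo x = e at hm h ⊢
    rcases h with rfl | rfl
    · have hmu : mu M e.1 = e.2 := K.mu_eq (Or.inl hm)
      rw [hmu] at hqm hmp
      exact ⟨hpx.ne, hmp.symm, hxq.symm, hqm.ne, Or.inl ⟨hpx, hqm⟩⟩
    · have hmu : mu M e.2 = e.1 := K.mu_eq (Or.inr hm)
      rw [hmu] at hqm hmp
      exact ⟨hmp.symm, hpx.ne, hqm.ne, hxq.symm, Or.inr ⟨hpx, hqm⟩⟩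
  · intro x hx y hy hxy
    rw [Finset.mem_filter] at hx hy
    obtain ⟨-, hs, hpx, -⟩ := hx
    obtain ⟨-, hs', hpy, -⟩ := hy
    obtain ⟨hm, h⟩ := heo x hs
    obtain ⟨hm', h'⟩ := heo y hs'
    by_contra hne
    have hadj : G.Adj x y := by
      rw [← hxy] at h'
      generalize eo x = e at hm h h'
      rcases h with h | h <;> rcases h' with h' | h'
      · exact absurd (h.trans h'.symm) hne
      · rw [h, h']; exact K.adj _ hm
      · rw [h, h']; exact (K.adj _ hm).symm
      · exact absurd (h.trans h'.symm) hne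
    exact hT p x y hpx hadj hpy
  · intro e he
    rw [Finset.mem_filter] at he
    obtain ⟨he, h1, h2, h3, h4, h5⟩ := he
    rcases h5 with ⟨h5, h6⟩ | ⟨h5, h6⟩
    · have hs : Sat M e.1 := ⟨e, he, Or.inl rfl⟩
      have hmu : mu M e.1 = e.2 := K.mu_eq (Or.inl he)
      refine ⟨e.1, ?_, ?_⟩
      · rw [Finset.mem_filter]
        refine ⟨Finset.mem_univ _, hs, h5, h3.symm, ?_, ?_⟩
        · rw [hmu]; exact h6
        · rw [hmu]; exact h2.symm
      · exact huniq (heo _ hs).1 he (heo _ hs).2 (Or.inl rfl)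
    · have hs : Sat M e.2 := ⟨e, he, Or.inr rfl⟩
      have hmu : mu M e.2 = e.1 := K.mu_eq (Or.inr he)
      refine ⟨e.2, ?_, ?_⟩
      · rw [Finset.mem_filter]
        refine ⟨Finset.mem_univ _, hs, h5, h4.symm, ?_, ?_⟩
        · rw [hmu]; exact h6
        · rw [hmu]; exact h1.symm
      · exact huniq (heo _ hs).1 he (heo _ hs).2 (Or.inr rfl)

end partner

end Pool.Agent.K6
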