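import Pool.Agent.K6.Basic

set_option autoImplicit false

/-!
# Small models of complete minors
-/

namespace Pool.Agent.K6

open SimpleGraph Pool.Agent.TreewidthMinor

variable {V W : Type}

theorem SC.pair {G : SimpleGraph V} {x y : V} (h : G.Adj x y) : SC G {x, y} :=
  SC.union_adj (SC.singleton G x) (SC.singleton G y) rfl rfl h

/-- To give a complete minor it is enough to look at ordered pairs of indices. -/
theorem mk_minor {p : ℕ} {G : SimpleGraph V} (B : Fin p → Set V) (hc : ∀ i, SC G (B i))
    (hd : ∀ i j, i < j → Disjoint (B i) (B j))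
    (ha : ∀ i j, i < j → ∃ x ∈ B i, ∃ y ∈ B j, G.Adj x y) :
    IsMinor (⊤ : SimpleGraph (Fin p)) G := by
  rw [isMinor_iff]
  refine ⟨B, hc, ?_, ?_⟩
  · intro i j hij
    rcases lt_or_gt_of_ne hij with h | h
    · exact hd i j h
    · exact (hd j i h).symm
  · intro i j hij
    rw [top_adj] at hij
    rcases lt_or_gt_of_ne hij with h | h
    · exact ha i j h
    · obtain ⟨x, hx, y, hy, hxy⟩ := ha j i h
      exact ⟨y, hy, x, hx, hxy.symm⟩

theorem fin5_lt (P : Fin 5 → Fin 5 → Prop) (h01 : P 0 1) (h02 : P 0 2) (h03 : P 0 3)
    (h04 : P 0 4) (h12 : P 1 2) (h13 : P 1 3) (h14 : P 1 4) (h23 : P 2 3) (h24 : P 2 4)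
    (h34 : P 3 4) : ∀ i j, i < j → P i j := by
  intro i j hij
  fin_cases i <;> fin_cases j <;> first | assumption | exact absurd hij (by decide)

/-- A complete graph on a set of `k` vertices. -/
theorem clique_minor (G : SimpleGraph V) (s : Set V) (k : ℕ) (hf : s.Finite) (hs : k ≤ s.ncard)
    (h : ∀ x ∈ s, ∀ y ∈ s, x ≠ y → G.Adj x y) : IsMinor (⊤ : SimpleGraph (Fin k)) G := by
  classical
  have := hf.to_subtype
  have := Fintype.ofFinite s
  have hc : Fintype.card (Fin k) ≤ Fintype.card s := by
    rw [Fintype.card_fin, ← Nat.card_eq_fintype_card, Nat.card_coe_set_eq]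
    exact hs
  obtain ⟨f⟩ := Function.Embedding.nonempty_of_card_le hc
  refine isMinor_of_inj (fun i => (f i).1) (fun i j hij => f.injective (Subtype.ext hij)) ?_
  intro i j hij
  rw [top_adj] at hij
  exact h _ (f i).2 _ (f j).2 fun h => hij (f.injective (Subtype.ext h))

/-- A model of the complete graph on five vertices with two branch sets of size two. -/
theorem pattern (G : SimpleGraph V) (f : Fin 7 → V) (hf : Function.Injective f)
    (x y z w p q r : Fin 7) (hn : [x, y, z, w, p, q, r].Nodup)
    (hxy : G.Adj (f x) (f y)) (hzw : G.Adj (f z) (f w)) (hpq : G.Adj (f p) (f q))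
    (hpr : G.Adj (f p) (f r)) (hqr : G.Adj (f q) (f r))
    (h1 : G.Adj (f x) (f p) ∨ G.Adj (f y) (f p)) (h2 : G.Adj (f x) (f q) ∨ G.Adj (f y) (f q))
    (h3 : G.Adj (f x) (f r) ∨ G.Adj (f y) (f r)) (h4 : G.Adj (f z) (f p) ∨ G.Adj (f w) (f p))
    (h5 : G.Adj (f z) (f q) ∨ G.Adj (f w) (f q)) (h6 : G.Adj (f z) (f r) ∨ G.Adj (f w) (f r))
    (h7 : G.Adj (f x) (f z) ∨ G.Adj (f x) (f w) ∨ G.Adj (f y) (f z) ∨ G.Adj (f y) (f w)) :
    IsMinor (⊤ : SimpleGraph (Fin 5)) G := by
  simp only [List.nodup_cons, List.mem_cons, List.not_mem_nil, or_false, not_or,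
    List.nodup_nil, and_true, not_false_eq_true] at hn
  obtain ⟨⟨hxy', hxz, hxw, hxp, hxq, hxr⟩, ⟨hyz, hyw, hyp, hyq, hyr⟩, ⟨hzw', hzp, hzq, hzr⟩,
    ⟨hwp, hwq, hwr⟩, ⟨hpq', hpr'⟩, hqr'⟩ := hn
  have ne : ∀ {i j : Fin 7}, i ≠ j → f i ≠ f j := fun h h' => h (hf h')
  have d21 : ∀ {a b c : Fin 7}, a ≠ c → b ≠ c → Disjoint ({f a, f b} : Set V) {f c} := by
    intro a b c h h'
    rw [Set.disjoint_left]
    intro t ht ht'
    rw [Set.mem_singleton_iff] at ht'
    rcases ht with ht | ht
    · exact ne h (ht.symm.trans ht')
    · exact ne h' ((Set.mem_singleton_iff.1 ht).symm.trans ht')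
  have d11 : ∀ {a c : Fin 7}, a ≠ c → Disjoint ({f a} : Set V) {f c} := by
    intro a c h
    rw [Set.disjoint_singleton]
    exact ne h
  have e21 : ∀ {a b c : Fin 7}, G.Adj (f a) (f c) ∨ G.Adj (f b) (f c) →
      ∃ s ∈ ({f a, f b} : Set V), ∃ t ∈ ({f c} : Set V), G.Adj s t := by
    rintro a b c (h | h)
    · exact ⟨_, Or.inl rfl, _, rfl, h⟩
    · exact ⟨_, Or.inr rfl, _, rfl, h⟩
  have e11 : ∀ {a c : Fin 7}, G.Adj (f a) (f c) →
      ∃ s ∈ ({f a} : Set V), ∃ t ∈ ({f c} : Set V), G.Adj s t := fun h => ⟨_, rfl, _, rfl, h⟩
  refine mk_minor ![{f x, f y}, {f z, f w}, {f p}, {f q}, {f r}] ?_ ?_ ?_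
  · intro i
    fin_cases i
    · exact SC.pair hxy
    · exact SC.pair hzw
    · exact SC.singleton G _
    · exact SC.singleton G _
    · exact SC.singleton G _
  · refine fin5_lt (fun i j => Disjoint (![{f x, f y}, {f z, f w}, {f p}, {f q}, {f r}] i : Set V)
      (![{f x, f y}, {f z, f w}, {f p}, {f q}, {f r}] j)) ?_ (d21 hxp hyp) (d21 hxq hyq)
      (d21 hxr hyr) (d21 hzp hwp) (d21 hzq hwq) (d21 hzr hwr) (d11 hpq') (d11 hpr') (d11 hqr')
    show Disjoint ({f x, f y} : Set V) {f z, f w}
    rw [Set.disjoint_left]
    rintro t (rfl | ht) (ht' | ht')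
    · exact ne hxz ht'
    · exact ne hxw ht'
    · rw [Set.mem_singleton_iff.1 ht] at ht'; exact ne hyz ht'
    · rw [Set.mem_singleton_iff.1 ht] at ht'; exact ne hyw ht'
  · refine fin5_lt (fun i j => ∃ s ∈ (![{f x, f y}, {f z, f w}, {f p}, {f q}, {f r}] i : Set V),
      ∃ t ∈ (![{f x, f y}, {f z, f w}, {f p}, {f q}, {f r}] j : Set V), G.Adj s t) ?_ (e21 h1)
      (e21 h2) (e21 h3) (e21 h4) (e21 h5) (e21 h6) (e11 hpq) (e11 hpr) (e11 hqr)
    rcases h7 with h | h | h | h
    · exact ⟨_, Or.inl rfl, _, Or.inl rfl, h⟩
    · exact ⟨_, Or.inl rfl, _, Or.inr rfl, h⟩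
    · exact ⟨_, Or.inr rfl, _, Or.inl rfl, h⟩
    · exact ⟨_, Or.inr rfl, _, Or.inr rfl, h⟩

/-- The case tree for 4-regular graphs on seven vertices. -/
theorem seven_tree (a : Fin 7 → Fin 7 → Prop) (Q : Prop) (sy : ∀ {i j}, a i j → a j i)
    (n3 : ∀ i j k l : Fin 7, [i, j, k, l].Nodup → ¬ a i j → ¬ a i k → ¬ a i l → False)
    (n5 : ∀ i j k l m n : Fin 7, [i, j, k, l, m, n].Nodup → a i j → a i k → a i l → a i m →
      a i n → False)
    (pt : ∀ x y z w p q r : Fin 7, [x, y, z, w, p, q, r].Nodup → a x y → a z w → a p q → a p r →
      a q r → (a x p ∨ a y p) → (a x q ∨ a y q) → (a x r ∨ a y r) → (a z p ∨ a w p) →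
      (a z q ∨ a w q) → (a z r ∨ a w r) → (a x z ∨ a x w ∨ a y z ∨ a y w) → Q)
    (h01 : ¬ a 0 1) (h02 : ¬ a 0 2) (h03 : a 0 3) (h04 : a 0 4) (h05 : a 0 5) (h06 : a 0 6) :
    Q := by
  by_cases h15 : a 1 5
  · by_cases h13 : a 1 3
    · by_cases h14 : a 1 4
      · by_cases h16 : a 1 6
        · by_cases h12 : a 1 2
          · exact (n5 1 2 3 4 5 6 (by decide) h12 h13 h14 h15 h16).elim
          · by_cases h23 : a 2 3
            · by_cases h24 : a 2 4
              · by_cases h25 : a 2 5
                · by_cases h26 : a 2 6
                  · by_cases h34 : a 3 4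
                    · exact pt 1 5 2 6 0 3 4 (by decide) h15 h26 h03 h04 h34 (Or.inr (sy h05)) (Or.inl h13) (Or.inl h14) (Or.inr (sy h06)) (Or.inl h23) (Or.inl h24) (Or.inr (Or.inl h16))
                    · by_cases h35 : a 3 5
                      · exact pt 1 4 2 6 0 3 5 (by decide) h14 h26 h03 h05 h35 (Or.inr (sy h04)) (Or.inl h13) (Or.inl h15) (Or.inr (sy h06)) (Or.inl h23) (Or.inl h25) (Or.inr (Or.inl h16))
                      · by_cases h36 : a 3 6
                        · exact pt 1 4 2 5 0 3 6 (by decide) h14 h25 h03 h06 h36 (Or.inr (sy h04)) (Or.inl h13) (Or.inl h16) (Or.inr (sy h05)) (Or.inl h23) (Or.inl h26) (Or.inr (Or.inl h15))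
                        · exact (n3 3 4 5 6 (by decide) h34 h35 h36).elim
                  · exact (n3 2 0 1 6 (by decide) (fun h => h02 (sy h)) (fun h => h12 (sy h)) h26).elim
                · exact (n3 2 0 1 5 (by decide) (fun h => h02 (sy h)) (fun h => h12 (sy h)) h25).elim
              · exact (n3 2 0 1 4 (by decide) (fun h => h02 (sy h)) (fun h => h12 (sy h)) h24).elim
            · exact (n3 2 0 1 3 (by decide) (fun h => h02 (sy h)) (fun h => h12 (sy h)) h23).elim
        · by_cases h12 : a 1 2
          · by_cases h26 : a 2 6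
            · by_cases h23 : a 2 3
              · by_cases h24 : a 2 4
                · by_cases h25 : a 2 5
                  · exact (n5 2 1 3 4 5 6 (by decide) (sy h12) h23 h24 h25 h26).elim
                  · by_cases h34 : a 3 4
                    · exact pt 1 5 2 6 0 3 4 (by decide) h15 h26 h03 h04 h34 (Or.inr (sy h05)) (Or.inl h13) (Or.inl h14) (Or.inr (sy h06)) (Or.inl h23) (Or.inl h24) (Or.inl h12)
                    · by_cases h56 : a 5 6
                      · by_cases h35 : a 3 5
                        · exact pt 1 4 2 6 0 3 5 (by decide) h14 h26 h03 h05 h35 (Or.inr (sy h04)) (Or.inl h13) (Or.inl h15) (Or.inr (sy h06)) (Or.inl h23) (Or.inr (sy h56)) (Or.inl h12)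
                        · by_cases h36 : a 3 6
                          · exact pt 1 5 2 4 0 3 6 (by decide) h15 h24 h03 h06 h36 (Or.inr (sy h05)) (Or.inl h13) (Or.inr h56) (Or.inr (sy h04)) (Or.inl h23) (Or.inl h26) (Or.inl h12)
                          · exact (n3 3 4 5 6 (by decide) h34 h35 h36).elim
                      · by_cases h35 : a 3 5
                        · by_cases h36 : a 3 6
                          · exact (n5 3 0 1 2 5 6 (by decide) (sy h03) (sy h13) (sy h23) h35 h36).elim
                          · exact (n3 6 1 3 5 (by decide) (fun h => h16 (sy h)) (fun h => h36 (sy h)) (fun h => h56 (sy h))).elim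
                        · exact (n3 5 2 3 6 (by decide) (fun h => h25 (sy h)) (fun h => h35 (sy h)) h56).elim
                · by_cases h25 : a 2 5
                  · by_cases h35 : a 3 5
                    · exact pt 1 4 2 6 0 3 5 (by decide) h14 h26 h03 h05 h35 (Or.inr (sy h04)) (Or.inl h13) (Or.inl h15) (Or.inr (sy h06)) (Or.inl h23) (Or.inl h25) (Or.inl h12)
                    · by_cases h46 : a 4 6
                      · by_cases h34 : a 3 4
                        · exact pt 1 5 2 6 0 3 4 (by decide) h15 h26 h03 h04 h34 (Or.inr (sy h05)) (Or.inl h13) (Or.inl h14) (Or.inr (sy h06)) (Or.inl h23) (Or.inr (sy h46)) (Or.inl h12)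
                        · by_cases h36 : a 3 6
                          · exact pt 1 4 2 5 0 3 6 (by decide) h14 h25 h03 h06 h36 (Or.inr (sy h04)) (Or.inl h13) (Or.inr h46) (Or.inr (sy h05)) (Or.inl h23) (Or.inl h26) (Or.inl h12)
                          · exact (n3 3 4 5 6 (by decide) h34 h35 h36).elim
                      · by_cases h34 : a 3 4
                        · by_cases h36 : a 3 6
                          · exact (n5 3 0 1 2 4 6 (by decide) (sy h03) (sy h13) (sy h23) h34 h36).elim
                          · exact (n3 6 1 3 4 (by decide) (fun h => h16 (sy h)) (fun h => h36 (sy h)) (fun h => h46 (sy h))).elim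
                        · exact (n3 4 2 3 6 (by decide) (fun h => h24 (sy h)) (fun h => h34 (sy h)) h46).elim
                  · exact (n3 2 0 4 5 (by decide) (fun h => h02 (sy h)) h24 h25).elim
              · by_cases h24 : a 2 4
                · by_cases h25 : a 2 5
                  · by_cases h45 : a 4 5
                    · exact pt 1 3 2 6 0 4 5 (by decide) h13 h26 h04 h05 h45 (Or.inr (sy h03)) (Or.inl h14) (Or.inl h15) (Or.inr (sy h06)) (Or.inl h24) (Or.inl h25) (Or.inl h12)
                    · by_cases h36 : a 3 6
                      · by_cases h34 : a 3 4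
                        · exact pt 1 5 2 6 0 3 4 (by decide) h15 h26 h03 h04 h34 (Or.inr (sy h05)) (Or.inl h13) (Or.inl h14) (Or.inr (sy h06)) (Or.inr (sy h36)) (Or.inl h24) (Or.inl h12)
                        · by_cases h35 : a 3 5
                          · exact pt 1 4 2 6 0 3 5 (by decide) h14 h26 h03 h05 h35 (Or.inr (sy h04)) (Or.inl h13) (Or.inl h15) (Or.inr (sy h06)) (Or.inr (sy h36)) (Or.inl h25) (Or.inl h12)
                          · exact (n3 3 2 4 5 (by decide) (fun h => h23 (sy h)) h34 h35).elim
                      · by_cases h34 : a 3 4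
                        · by_cases h35 : a 3 5
                          · by_cases h46 : a 4 6
                            · exact (n5 4 0 1 2 3 6 (by decide) (sy h04) (sy h14) (sy h24) (sy h34) h46).elim
                            · exact (n3 6 1 3 4 (by decide) (fun h => h16 (sy h)) (fun h => h36 (sy h)) (fun h => h46 (sy h))).elim
                          · exact (n3 3 2 5 6 (by decide) (fun h => h23 (sy h)) h35 h36).elim
                        · exact (n3 3 2 4 6 (by decide) (fun h => h23 (sy h)) h34 h36).elim
                  · exact (n3 2 0 3 5 (by decide) (fun h => h02 (sy h)) h23 h25).elim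
                · exact (n3 2 0 3 4 (by decide) (fun h => h02 (sy h)) h23 h24).elim
            · by_cases h23 : a 2 3
              · by_cases h24 : a 2 4
                · by_cases h25 : a 2 5
                  · by_cases h36 : a 3 6
                    · by_cases h34 : a 3 4
                      · exact (n5 3 0 1 2 4 6 (by decide) (sy h03) (sy h13) (sy h23) h34 h36).elim
                      · by_cases h35 : a 3 5
                        · exact (n5 3 0 1 2 5 6 (by decide) (sy h03) (sy h13) (sy h23) h35 h36).elim
                        · by_cases h46 : a 4 6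
                          · exact pt 0 5 4 6 1 2 3 (by decide) h05 h46 h12 h13 h23 (Or.inr (sy h15)) (Or.inr (sy h25)) (Or.inl h03) (Or.inl (sy h14)) (Or.inl (sy h24)) (Or.inr (sy h36)) (Or.inl h04)
                          · exact (n3 6 1 2 4 (by decide) (fun h => h16 (sy h)) (fun h => h26 (sy h)) (fun h => h46 (sy h))).elim
                    · exact (n3 6 1 2 3 (by decide) (fun h => h16 (sy h)) (fun h => h26 (sy h)) (fun h => h36 (sy h))).elim
                  · exact (n3 2 0 5 6 (by decide) (fun h => h02 (sy h)) h25 h26).elim
                · exact (n3 2 0 4 6 (by decide) (fun h => h02 (sy h)) h24 h26).elim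
              · exact (n3 2 0 3 6 (by decide) (fun h => h02 (sy h)) h23 h26).elim
          · exact (n3 1 0 2 6 (by decide) (fun h => h01 (sy h)) h12 h16).elim
      · by_cases h12 : a 1 2
        · by_cases h16 : a 1 6
          · by_cases h24 : a 2 4
            · by_cases h26 : a 2 6
              · by_cases h23 : a 2 3
                · by_cases h25 : a 2 5
                  · exact (n5 2 1 3 4 5 6 (by decide) (sy h12) h23 h24 h25 h26).elim
                  · by_cases h36 : a 3 6
                    · exact pt 1 5 2 4 0 3 6 (by decide) h15 h24 h03 h06 h36 (Or.inr (sy h05)) (Or.inl h13) (Or.inl h16) (Or.inr (sy h04)) (Or.inl h23) (Or.inl h26) (Or.inl h12)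
                    · by_cases h45 : a 4 5
                      · by_cases h34 : a 3 4
                        · exact pt 1 5 2 6 0 3 4 (by decide) h15 h26 h03 h04 h34 (Or.inr (sy h05)) (Or.inl h13) (Or.inr (sy h45)) (Or.inr (sy h06)) (Or.inl h23) (Or.inl h24) (Or.inl h12)
                        · by_cases h35 : a 3 5
                          · exact pt 1 6 2 4 0 3 5 (by decide) h16 h24 h03 h05 h35 (Or.inr (sy h06)) (Or.inl h13) (Or.inl h15) (Or.inr (sy h04)) (Or.inl h23) (Or.inr h45) (Or.inl h12)
                          · exact (n3 3 4 5 6 (by decide) h34 h35 h36).elim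
                      · by_cases h34 : a 3 4
                        · by_cases h35 : a 3 5
                          · exact (n5 3 0 1 2 4 5 (by decide) (sy h03) (sy h13) (sy h23) h34 h35).elim
                          · exact (n3 5 2 3 4 (by decide) (fun h => h25 (sy h)) (fun h => h35 (sy h)) (fun h => h45 (sy h))).elim
                        · exact (n3 4 1 3 5 (by decide) (fun h => h14 (sy h)) (fun h => h34 (sy h)) h45).elim
                · by_cases h25 : a 2 5
                  · by_cases h56 : a 5 6
                    · exact pt 1 3 2 4 0 5 6 (by decide) h13 h24 h05 h06 h56 (Or.inr (sy h03)) (Or.inl h15) (Or.inl h16) (Or.inr (sy h04)) (Or.inl h25) (Or.inl h26) (Or.inl h12)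
                    · by_cases h34 : a 3 4
                      · by_cases h36 : a 3 6
                        · exact pt 1 5 2 4 0 3 6 (by decide) h15 h24 h03 h06 h36 (Or.inr (sy h05)) (Or.inl h13) (Or.inl h16) (Or.inr (sy h04)) (Or.inr (sy h34)) (Or.inl h26) (Or.inl h12)
                        · by_cases h35 : a 3 5
                          · exact pt 1 6 2 4 0 3 5 (by decide) h16 h24 h03 h05 h35 (Or.inr (sy h06)) (Or.inl h13) (Or.inl h15) (Or.inr (sy h04)) (Or.inr (sy h34)) (Or.inl h25) (Or.inl h12)
                          · exact (n3 3 2 5 6 (by decide) (fun h => h23 (sy h)) h35 h36).elim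
                      · by_cases h35 : a 3 5
                        · by_cases h36 : a 3 6
                          · by_cases h45 : a 4 5
                            · exact (n5 5 0 1 2 3 4 (by decide) (sy h05) (sy h15) (sy h25) (sy h35) (sy h45)).elim
                            · exact (n3 4 1 3 5 (by decide) (fun h => h14 (sy h)) (fun h => h34 (sy h)) h45).elim
                          · exact (n3 3 2 4 6 (by decide) (fun h => h23 (sy h)) h34 h36).elim
                        · exact (n3 3 2 4 5 (by decide) (fun h => h23 (sy h)) h34 h35).elim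
                  · exact (n3 2 0 3 5 (by decide) (fun h => h02 (sy h)) h23 h25).elim
              · by_cases h23 : a 2 3
                · by_cases h25 : a 2 5
                  · by_cases h35 : a 3 5
                    · exact pt 1 6 2 4 0 3 5 (by decide) h16 h24 h03 h05 h35 (Or.inr (sy h06)) (Or.inl h13) (Or.inl h15) (Or.inr (sy h04)) (Or.inl h23) (Or.inl h25) (Or.inl h12)
                    · by_cases h46 : a 4 6
                      · by_cases h34 : a 3 4
                        · exact pt 1 6 2 5 0 3 4 (by decide) h16 h25 h03 h04 h34 (Or.inr (sy h06)) (Or.inl h13) (Or.inr (sy h46)) (Or.inr (sy h05)) (Or.inl h23) (Or.inl h24) (Or.inl h12)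
                        · by_cases h36 : a 3 6
                          · exact pt 1 5 2 4 0 3 6 (by decide) h15 h24 h03 h06 h36 (Or.inr (sy h05)) (Or.inl h13) (Or.inl h16) (Or.inr (sy h04)) (Or.inl h23) (Or.inr h46) (Or.inl h12)
                          · exact (n3 3 4 5 6 (by decide) h34 h35 h36).elim
                      · by_cases h34 : a 3 4
                        · by_cases h36 : a 3 6
                          · exact (n5 3 0 1 2 4 6 (by decide) (sy h03) (sy h13) (sy h23) h34 h36).elim
                          · exact (n3 6 2 3 4 (by decide) (fun h => h26 (sy h)) (fun h => h36 (sy h)) (fun h => h46 (sy h))).elim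
                        · exact (n3 4 1 3 6 (by decide) (fun h => h14 (sy h)) (fun h => h34 (sy h)) h46).elim
                  · exact (n3 2 0 5 6 (by decide) (fun h => h02 (sy h)) h25 h26).elim
                · exact (n3 2 0 3 6 (by decide) (fun h => h02 (sy h)) h23 h26).elim
            · by_cases h23 : a 2 3
              · by_cases h25 : a 2 5
                · by_cases h26 : a 2 6
                  · by_cases h34 : a 3 4
                    · by_cases h35 : a 3 5
                      · exact (n5 3 0 1 2 4 5 (by decide) (sy h03) (sy h13) (sy h23) h34 h35).elim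
                      · by_cases h36 : a 3 6
                        · exact (n5 3 0 1 2 4 6 (by decide) (sy h03) (sy h13) (sy h23) h34 h36).elim
                        · by_cases h45 : a 4 5
                          · exact pt 0 6 4 5 1 2 3 (by decide) h06 h45 h12 h13 h23 (Or.inr (sy h16)) (Or.inr (sy h26)) (Or.inl h03) (Or.inr (sy h15)) (Or.inr (sy h25)) (Or.inl (sy h34)) (Or.inl h04)
                          · exact (n3 4 1 2 5 (by decide) (fun h => h14 (sy h)) (fun h => h24 (sy h)) h45).elim
                    · exact (n3 4 1 2 3 (by decide) (fun h => h14 (sy h)) (fun h => h24 (sy h)) (fun h => h34 (sy h))).elim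
                  · exact (n3 2 0 4 6 (by decide) (fun h => h02 (sy h)) h24 h26).elim
                · exact (n3 2 0 4 5 (by decide) (fun h => h02 (sy h)) h24 h25).elim
              · exact (n3 2 0 3 4 (by decide) (fun h => h02 (sy h)) h23 h24).elim
          · exact (n3 1 0 4 6 (by decide) (fun h => h01 (sy h)) h14 h16).elim
        · exact (n3 1 0 2 4 (by decide) (fun h => h01 (sy h)) h12 h14).elim
    · by_cases h12 : a 1 2
      · by_cases h14 : a 1 4
        · by_cases h16 : a 1 6
          · by_cases h23 : a 2 3
            · by_cases h26 : a 2 6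
              · by_cases h24 : a 2 4
                · by_cases h25 : a 2 5
                  · exact (n5 2 1 3 4 5 6 (by decide) (sy h12) h23 h24 h25 h26).elim
                  · by_cases h46 : a 4 6
                    · exact pt 1 5 2 3 0 4 6 (by decide) h15 h23 h04 h06 h46 (Or.inr (sy h05)) (Or.inl h14) (Or.inl h16) (Or.inr (sy h03)) (Or.inl h24) (Or.inl h26) (Or.inl h12)
                    · by_cases h35 : a 3 5
                      · by_cases h34 : a 3 4
                        · exact pt 1 5 2 6 0 3 4 (by decide) h15 h26 h03 h04 h34 (Or.inr (sy h05)) (Or.inr (sy h35)) (Or.inl h14) (Or.inr (sy h06)) (Or.inl h23) (Or.inl h24) (Or.inl h12)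
                        · by_cases h36 : a 3 6
                          · exact pt 1 5 2 4 0 3 6 (by decide) h15 h24 h03 h06 h36 (Or.inr (sy h05)) (Or.inr (sy h35)) (Or.inl h16) (Or.inr (sy h04)) (Or.inl h23) (Or.inl h26) (Or.inl h12)
                          · exact (n3 3 1 4 6 (by decide) (fun h => h13 (sy h)) h34 h36).elim
                      · by_cases h34 : a 3 4
                        · by_cases h36 : a 3 6
                          · by_cases h45 : a 4 5
                            · exact (n5 4 0 1 2 3 5 (by decide) (sy h04) (sy h14) (sy h24) (sy h34) h45).elim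
                            · exact (n3 5 2 3 4 (by decide) (fun h => h25 (sy h)) (fun h => h35 (sy h)) (fun h => h45 (sy h))).elim
                          · exact (n3 3 1 5 6 (by decide) (fun h => h13 (sy h)) h35 h36).elim
                        · exact (n3 3 1 4 5 (by decide) (fun h => h13 (sy h)) h34 h35).elim
                · by_cases h25 : a 2 5
                  · by_cases h56 : a 5 6
                    · exact pt 1 4 2 3 0 5 6 (by decide) h14 h23 h05 h06 h56 (Or.inr (sy h04)) (Or.inl h15) (Or.inl h16) (Or.inr (sy h03)) (Or.inl h25) (Or.inl h26) (Or.inl h12)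
                    · by_cases h34 : a 3 4
                      · by_cases h35 : a 3 5
                        · exact pt 1 4 2 6 0 3 5 (by decide) h14 h26 h03 h05 h35 (Or.inr (sy h04)) (Or.inr (sy h34)) (Or.inl h15) (Or.inr (sy h06)) (Or.inl h23) (Or.inl h25) (Or.inl h12)
                        · by_cases h36 : a 3 6
                          · exact pt 1 4 2 5 0 3 6 (by decide) h14 h25 h03 h06 h36 (Or.inr (sy h04)) (Or.inr (sy h34)) (Or.inl h16) (Or.inr (sy h05)) (Or.inl h23) (Or.inl h26) (Or.inl h12)
                          · exact (n3 3 1 5 6 (by decide) (fun h => h13 (sy h)) h35 h36).elim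
                      · by_cases h35 : a 3 5
                        · by_cases h36 : a 3 6
                          · by_cases h45 : a 4 5
                            · exact (n5 5 0 1 2 3 4 (by decide) (sy h05) (sy h15) (sy h25) (sy h35) (sy h45)).elim
                            · exact (n3 4 2 3 5 (by decide) (fun h => h24 (sy h)) (fun h => h34 (sy h)) h45).elim
                          · exact (n3 3 1 4 6 (by decide) (fun h => h13 (sy h)) h34 h36).elim
                        · exact (n3 3 1 4 5 (by decide) (fun h => h13 (sy h)) h34 h35).elim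
                  · exact (n3 2 0 4 5 (by decide) (fun h => h02 (sy h)) h24 h25).elim
              · by_cases h24 : a 2 4
                · by_cases h25 : a 2 5
                  · by_cases h45 : a 4 5
                    · exact pt 1 6 2 3 0 4 5 (by decide) h16 h23 h04 h05 h45 (Or.inr (sy h06)) (Or.inl h14) (Or.inl h15) (Or.inr (sy h03)) (Or.inl h24) (Or.inl h25) (Or.inl h12)
                    · by_cases h36 : a 3 6
                      · by_cases h34 : a 3 4
                        · exact pt 1 6 2 5 0 3 4 (by decide) h16 h25 h03 h04 h34 (Or.inr (sy h06)) (Or.inr (sy h36)) (Or.inl h14) (Or.inr (sy h05)) (Or.inl h23) (Or.inl h24) (Or.inl h12)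
                        · by_cases h35 : a 3 5
                          · exact pt 1 6 2 4 0 3 5 (by decide) h16 h24 h03 h05 h35 (Or.inr (sy h06)) (Or.inr (sy h36)) (Or.inl h15) (Or.inr (sy h04)) (Or.inl h23) (Or.inl h25) (Or.inl h12)
                          · exact (n3 3 1 4 5 (by decide) (fun h => h13 (sy h)) h34 h35).elim
                      · by_cases h34 : a 3 4
                        · by_cases h35 : a 3 5
                          · by_cases h46 : a 4 6
                            · exact (n5 4 0 1 2 3 6 (by decide) (sy h04) (sy h14) (sy h24) (sy h34) h46).elim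
                            · exact (n3 6 2 3 4 (by decide) (fun h => h26 (sy h)) (fun h => h36 (sy h)) (fun h => h46 (sy h))).elim
                          · exact (n3 3 1 5 6 (by decide) (fun h => h13 (sy h)) h35 h36).elim
                        · exact (n3 3 1 4 6 (by decide) (fun h => h13 (sy h)) h34 h36).elim
                  · exact (n3 2 0 5 6 (by decide) (fun h => h02 (sy h)) h25 h26).elim
                · exact (n3 2 0 4 6 (by decide) (fun h => h02 (sy h)) h24 h26).elim
            · by_cases h24 : a 2 4
              · by_cases h25 : a 2 5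
                · by_cases h26 : a 2 6
                  · by_cases h34 : a 3 4
                    · by_cases h35 : a 3 5
                      · exact pt 0 6 3 5 1 2 4 (by decide) h06 h35 h12 h14 h24 (Or.inr (sy h16)) (Or.inr (sy h26)) (Or.inl h04) (Or.inr (sy h15)) (Or.inr (sy h25)) (Or.inl h34) (Or.inl h03)
                      · exact (n3 3 1 2 5 (by decide) (fun h => h13 (sy h)) (fun h => h23 (sy h)) h35).elim
                    · exact (n3 3 1 2 4 (by decide) (fun h => h13 (sy h)) (fun h => h23 (sy h)) h34).elim
                  · exact (n3 2 0 3 6 (by decide) (fun h => h02 (sy h)) h23 h26).elim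
                · exact (n3 2 0 3 5 (by decide) (fun h => h02 (sy h)) h23 h25).elim
              · exact (n3 2 0 3 4 (by decide) (fun h => h02 (sy h)) h23 h24).elim
          · exact (n3 1 0 3 6 (by decide) (fun h => h01 (sy h)) h13 h16).elim
        · exact (n3 1 0 3 4 (by decide) (fun h => h01 (sy h)) h13 h14).elim
      · exact (n3 1 0 2 3 (by decide) (fun h => h01 (sy h)) h12 h13).elim
  · by_cases h12 : a 1 2
    · by_cases h13 : a 1 3
      · by_cases h14 : a 1 4
        · by_cases h16 : a 1 6
          · by_cases h25 : a 2 5
            · by_cases h23 : a 2 3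
              · by_cases h24 : a 2 4
                · by_cases h26 : a 2 6
                  · exact (n5 2 1 3 4 5 6 (by decide) (sy h12) h23 h24 h25 h26).elim
                  · by_cases h34 : a 3 4
                    · exact pt 1 6 2 5 0 3 4 (by decide) h16 h25 h03 h04 h34 (Or.inr (sy h06)) (Or.inl h13) (Or.inl h14) (Or.inr (sy h05)) (Or.inl h23) (Or.inl h24) (Or.inl h12)
                    · by_cases h56 : a 5 6
                      · by_cases h35 : a 3 5
                        · exact pt 1 6 2 4 0 3 5 (by decide) h16 h24 h03 h05 h35 (Or.inr (sy h06)) (Or.inl h13) (Or.inr (sy h56)) (Or.inr (sy h04)) (Or.inl h23) (Or.inl h25) (Or.inl h12)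
                        · by_cases h36 : a 3 6
                          · exact pt 1 4 2 5 0 3 6 (by decide) h14 h25 h03 h06 h36 (Or.inr (sy h04)) (Or.inl h13) (Or.inl h16) (Or.inr (sy h05)) (Or.inl h23) (Or.inr h56) (Or.inl h12)
                          · exact (n3 3 4 5 6 (by decide) h34 h35 h36).elim
                      · by_cases h35 : a 3 5
                        · by_cases h36 : a 3 6
                          · exact (n5 3 0 1 2 5 6 (by decide) (sy h03) (sy h13) (sy h23) h35 h36).elim
                          · exact (n3 6 2 3 5 (by decide) (fun h => h26 (sy h)) (fun h => h36 (sy h)) (fun h => h56 (sy h))).elim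
                        · exact (n3 5 1 3 6 (by decide) (fun h => h15 (sy h)) (fun h => h35 (sy h)) h56).elim
                · by_cases h26 : a 2 6
                  · by_cases h36 : a 3 6
                    · exact pt 1 4 2 5 0 3 6 (by decide) h14 h25 h03 h06 h36 (Or.inr (sy h04)) (Or.inl h13) (Or.inl h16) (Or.inr (sy h05)) (Or.inl h23) (Or.inl h26) (Or.inl h12)
                    · by_cases h45 : a 4 5
                      · by_cases h34 : a 3 4
                        · exact pt 1 6 2 5 0 3 4 (by decide) h16 h25 h03 h04 h34 (Or.inr (sy h06)) (Or.inl h13) (Or.inl h14) (Or.inr (sy h05)) (Or.inl h23) (Or.inr (sy h45)) (Or.inl h12)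
                        · by_cases h35 : a 3 5
                          · exact pt 1 4 2 6 0 3 5 (by decide) h14 h26 h03 h05 h35 (Or.inr (sy h04)) (Or.inl h13) (Or.inr h45) (Or.inr (sy h06)) (Or.inl h23) (Or.inl h25) (Or.inl h12)
                          · exact (n3 3 4 5 6 (by decide) h34 h35 h36).elim
                      · by_cases h34 : a 3 4
                        · by_cases h35 : a 3 5
                          · exact (n5 3 0 1 2 4 5 (by decide) (sy h03) (sy h13) (sy h23) h34 h35).elim
                          · exact (n3 5 1 3 4 (by decide) (fun h => h15 (sy h)) (fun h => h35 (sy h)) (fun h => h45 (sy h))).elim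
                        · exact (n3 4 2 3 5 (by decide) (fun h => h24 (sy h)) (fun h => h34 (sy h)) h45).elim
                  · exact (n3 2 0 4 6 (by decide) (fun h => h02 (sy h)) h24 h26).elim
              · by_cases h24 : a 2 4
                · by_cases h26 : a 2 6
                  · by_cases h46 : a 4 6
                    · exact pt 1 3 2 5 0 4 6 (by decide) h13 h25 h04 h06 h46 (Or.inr (sy h03)) (Or.inl h14) (Or.inl h16) (Or.inr (sy h05)) (Or.inl h24) (Or.inl h26) (Or.inl h12)
                    · by_cases h35 : a 3 5
                      · by_cases h34 : a 3 4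
                        · exact pt 1 6 2 5 0 3 4 (by decide) h16 h25 h03 h04 h34 (Or.inr (sy h06)) (Or.inl h13) (Or.inl h14) (Or.inr (sy h05)) (Or.inr (sy h35)) (Or.inl h24) (Or.inl h12)
                        · by_cases h36 : a 3 6
                          · exact pt 1 4 2 5 0 3 6 (by decide) h14 h25 h03 h06 h36 (Or.inr (sy h04)) (Or.inl h13) (Or.inl h16) (Or.inr (sy h05)) (Or.inr (sy h35)) (Or.inl h26) (Or.inl h12)
                          · exact (n3 3 2 4 6 (by decide) (fun h => h23 (sy h)) h34 h36).elim
                      · by_cases h34 : a 3 4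
                        · by_cases h36 : a 3 6
                          · by_cases h45 : a 4 5
                            · exact (n5 4 0 1 2 3 5 (by decide) (sy h04) (sy h14) (sy h24) (sy h34) h45).elim
                            · exact (n3 5 1 3 4 (by decide) (fun h => h15 (sy h)) (fun h => h35 (sy h)) (fun h => h45 (sy h))).elim
                          · exact (n3 3 2 5 6 (by decide) (fun h => h23 (sy h)) h35 h36).elim
                        · exact (n3 3 2 4 5 (by decide) (fun h => h23 (sy h)) h34 h35).elim
                  · exact (n3 2 0 3 6 (by decide) (fun h => h02 (sy h)) h23 h26).elim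
                · exact (n3 2 0 3 4 (by decide) (fun h => h02 (sy h)) h23 h24).elim
            · by_cases h23 : a 2 3
              · by_cases h24 : a 2 4
                · by_cases h26 : a 2 6
                  · by_cases h35 : a 3 5
                    · by_cases h34 : a 3 4
                      · exact (n5 3 0 1 2 4 5 (by decide) (sy h03) (sy h13) (sy h23) h34 h35).elim
                      · by_cases h36 : a 3 6
                        · exact (n5 3 0 1 2 5 6 (by decide) (sy h03) (sy h13) (sy h23) h35 h36).elim
                        · by_cases h45 : a 4 5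
                          · exact pt 0 6 4 5 1 2 3 (by decide) h06 h45 h12 h13 h23 (Or.inr (sy h16)) (Or.inr (sy h26)) (Or.inl h03) (Or.inl (sy h14)) (Or.inl (sy h24)) (Or.inr (sy h35)) (Or.inl h04)
                          · exact (n3 5 1 2 4 (by decide) (fun h => h15 (sy h)) (fun h => h25 (sy h)) (fun h => h45 (sy h))).elim
                    · exact (n3 5 1 2 3 (by decide) (fun h => h15 (sy h)) (fun h => h25 (sy h)) (fun h => h35 (sy h))).elim
                  · exact (n3 2 0 5 6 (by decide) (fun h => h02 (sy h)) h25 h26).elim
                · exact (n3 2 0 4 5 (by decide) (fun h => h02 (sy h)) h24 h25).elim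
              · exact (n3 2 0 3 5 (by decide) (fun h => h02 (sy h)) h23 h25).elim
          · exact (n3 1 0 5 6 (by decide) (fun h => h01 (sy h)) h15 h16).elim
        · exact (n3 1 0 4 5 (by decide) (fun h => h01 (sy h)) h14 h15).elim
      · exact (n3 1 0 3 5 (by decide) (fun h => h01 (sy h)) h13 h15).elim
    · exact (n3 1 0 2 5 (by decide) (fun h => h01 (sy h)) h12 h15).elim

theorem fin7_lt (P : Fin 7 → Fin 7 → Prop) (h01 : P 0 1) (h02 : P 0 2) (h03 : P 0 3)
    (h04 : P 0 4) (h05 : P 0 5) (h06 : P 0 6) (h12 : P 1 2) (h13 : P 1 3) (h14 : P 1 4)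
    (h15 : P 1 5) (h16 : P 1 6) (h23 : P 2 3) (h24 : P 2 4) (h25 : P 2 5) (h26 : P 2 6)
    (h34 : P 3 4) (h35 : P 3 5) (h36 : P 3 6) (h45 : P 4 5) (h46 : P 4 6) (h56 : P 5 6) :
    ∀ i j, i < j → P i j := by
  intro i j hij
  fin_cases i <;> fin_cases j <;> first | assumption | exact absurd hij (by decide)

theorem ncard_list {n : ℕ} (f : Fin n → V) (hf : Function.Injective f) (l : List (Fin n))
    (hl : l.Nodup) : (f '' {i | i ∈ l}).ncard = l.length := by
  classical
  rw [Set.ncard_image_of_injective _ hf]
  have : {i | i ∈ l} = (l.toFinset : Set (Fin n)) := by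
    ext i
    simp
  rw [this, Set.ncard_coe_finset, List.toFinset_card_of_nodup hl]

/-- A 4-regular graph on seven vertices contracts to the complete graph on five vertices. -/
theorem seven [Finite W] (H : SimpleGraph W) (hW : Nat.card W = 7)
    (hdeg : ∀ w, (nb H w).ncard = 4) : IsMinor (⊤ : SimpleGraph (Fin 5)) H := by
  classical
  have hne : Nonempty W := by
    by_contra h
    rw [not_nonempty_iff] at h
    rw [Nat.card_of_isEmpty] at hW
    omega
  obtain ⟨x⟩ := hne
  have h4 : Nat.card (nb H x) = 4 := by rw [Nat.card_coe_set_eq]; exact hdeg x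
  have e4 : Fin 4 ≃ nb H x := (Finite.equivFinOfCardEq h4).symm
  have hM : {w | w ≠ x ∧ ¬ H.Adj x w}.ncard = 2 := by
    have h1 := Set.ncard_add_ncard_compl (nb H x) (Set.toFinite _) (Set.toFinite _)
    have h2 : (nb H x)ᶜ = insert x {w | w ≠ x ∧ ¬ H.Adj x w} := by
      ext w
      simp only [Set.mem_compl_iff, nb, Set.mem_setOf_eq, Set.mem_insert_iff]
      constructor
      · intro h
        by_cases hw : w = x
        · exact Or.inl hw
        · exact Or.inr ⟨hw, h⟩
      · rintro (rfl | h)
        · exact H.irrefl
        · exact h.2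
    have h3 : x ∉ {w | w ≠ x ∧ ¬ H.Adj x w} := fun h => h.1 rfl
    rw [h2, Set.ncard_insert_of_notMem h3 (Set.toFinite _), hdeg, hW] at h1
    omega
  obtain ⟨y, z, hyz, hM⟩ := Set.ncard_eq_two.1 hM
  have hy : y ∈ {w | w ≠ x ∧ ¬ H.Adj x w} := by rw [hM]; exact Or.inl rfl
  have hz : z ∈ {w | w ≠ x ∧ ¬ H.Adj x w} := by rw [hM]; exact Or.inr rfl
  let f : Fin 7 → W := ![x, y, z, e4 0, e4 1, e4 2, e4 3]
  have hxe : ∀ i, x ≠ (e4 i).1 := fun i h => by
    have : H.Adj x (e4 i).1 := (e4 i).2
    rw [← h] at this
    exact H.irrefl this
  have hye : ∀ i, y ≠ (e4 i).1 := fun i h => by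
    have : H.Adj x (e4 i).1 := (e4 i).2
    rw [← h] at this
    exact hy.2 this
  have hze : ∀ i, z ≠ (e4 i).1 := fun i h => by
    have : H.Adj x (e4 i).1 := (e4 i).2
    rw [← h] at this
    exact hz.2 this
  have hee : ∀ i j, i ≠ j → (e4 i).1 ≠ (e4 j).1 := fun i j hij h =>
    hij (e4.injective (Subtype.ext h))
  have hlt : ∀ i j, i < j → f i ≠ f j :=
    fin7_lt (fun i j => f i ≠ f j) hy.1.symm hz.1.symm (hxe 0) (hxe 1) (hxe 2) (hxe 3) hyz
      (hye 0) (hye 1) (hye 2) (hye 3) (hze 0) (hze 1) (hze 2) (hze 3)
      (hee 0 1 (by decide)) (hee 0 2 (by decide)) (hee 0 3 (by decide)) (hee 1 2 (by decide))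
      (hee 1 3 (by decide)) (hee 2 3 (by decide))
  have hf : Function.Injective f := by
    intro i j hij
    by_contra hne
    rcases lt_or_gt_of_ne hne with h | h
    · exact hlt i j h hij
    · exact hlt j i h hij.symm
  refine seven_tree (fun i j => H.Adj (f i) (f j)) _ (fun h => h.symm) ?_ ?_
    (fun x y z w p q r => pattern H f hf x y z w p q r) hy.2 hz.2 (e4 0).2 (e4 1).2 (e4 2).2
    (e4 3).2
  · intro i j k l hn h1 h2 h3
    have hc := ncard_list f hf _ hn
    have hsub : nb H (f i) ⊆ (f '' {t | t ∈ [i, j, k, l]})ᶜ := by
      intro w hw hw'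
      obtain ⟨t, ht, rfl⟩ := hw'
      simp only [List.mem_cons, List.not_mem_nil, or_false, Set.mem_setOf_eq] at ht
      rcases ht with rfl | rfl | rfl | rfl
      · exact H.irrefl hw
      · exact h1 hw
      · exact h2 hw
      · exact h3 hw
    have h4 := Set.ncard_le_ncard hsub (Set.toFinite _)
    have h5 := Set.ncard_add_ncard_compl (f '' {t | t ∈ [i, j, k, l]}) (Set.toFinite _)
      (Set.toFinite _)
    rw [hdeg] at h4
    rw [hc, hW] at h5
    simp only [List.length_cons, List.length_nil] at h5
    omega
  · intro i j k l m n hn h1 h2 h3 h4 h5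
    have hc := ncard_list f hf _ (List.nodup_cons.1 hn).2
    have hsub : f '' {t | t ∈ [j, k, l, m, n]} ⊆ nb H (f i) := by
      rintro w ⟨t, ht, rfl⟩
      simp only [List.mem_cons, List.not_mem_nil, or_false, Set.mem_setOf_eq] at ht
      rcases ht with rfl | rfl | rfl | rfl | rfl
      · exact h1
      · exact h2
      · exact h3
      · exact h4
      · exact h5
    have h4 := Set.ncard_le_ncard hsub (Set.toFinite _)
    rw [hdeg, hc] at h4
    simp only [List.length_cons, List.length_nil] at h4
    omega

end Pool.Agent.K6
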